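import Mathlib
import Pool.Agent.H556.CP.Alg

/-!
# Expansions of algebraic functions of `T = ± β ^ e`
-/

set_option autoImplicit false

namespace Pool.Agent.H556.FX

open Filter Topology Pool.Agent.TH932.Abs Pool.Agent.TH932.Germs Pool.Agent.TH932.Chi
open Pool.Agent.TH796.AL Pool.Agent.Q270.PX Asymptotics

/-- **expansions of algebraic functions of `T = β ^ e`** -/
theorem expand {e : ℕ → ℕ} (he : Tendsto e atTop atTop) {b : ℚ} (hb : 1 < b) (z : ℕ → ℚ)
    (R : Polynomial (Polynomial ℤ)) (hR : R ≠ 0)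
    (hRn : ∀ᶠ n in (UU : Filter ℕ), (R.map (Polynomial.mapRingHom (Int.castRingHom ℚ))).evalEval
      (b ^ e n) (z n) = 0) (J : ℕ) :
    ∃ (q : ℕ) (M : ℕ) (k : Fin M → ℤ) (γ : Fin M → ℝ), 1 ≤ q ∧ Function.Injective k ∧
      (∀ i, IsAlgebraic ℚ (γ i)) ∧
      ∀ᶠ n in (UU : Filter ℕ), |(z n : ℝ) - ∑ i, γ i * (b : ℝ) ^ (k i * ((e n / q : ℕ) : ℤ))| ≤
        Real.exp (-J * (e n * Real.log b)) := by
  classical
  set B : ℝ := (b : ℝ) with hB
  have hB1 : 1 < B := by rw [hB]; exact_mod_cast hb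
  have hB0 : 0 < B := by linarith
  have hBne : B ≠ 0 := hB0.ne'
  -- real polynomial
  set P : Polynomial (Polynomial ℝ) := R.map (Polynomial.mapRingHom (Int.castRingHom ℝ)) with hP
  have hP0 : P ≠ 0 := by
    rw [hP, Polynomial.map_ne_zero_iff]
    · exact hR
    · exact Polynomial.map_injective _ Int.cast_injective
  have hPK : ∀ i j, (P.coeff i).coeff j ∈ RA := by
    intro i j
    rw [hP, Polynomial.coeff_map, Polynomial.coe_mapRingHom, Polynomial.coeff_map]
    exact intCast_mem _ _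
  obtain ⟨D, q, hq, S, hSfin, hSan, hev⟩ := puiseux RA_closed P hP0 hPK
  have hq0 : (0 : ℝ) < q := by exact_mod_cast hq
  have htt : Tendsto (fun n => B ^ e n) atTop atTop :=
    (tendsto_pow_atTop_atTop_of_one_lt hB1).comp he
  have h1 : ∀ᶠ n in (UU : Filter ℕ), ∃ G ∈ S, (z n : ℝ) = (B ^ e n) ^ D *
      G (rt q (B ^ e n)) := by
    filter_upwards [ev_of_atTop (htt.eventually hev), hRn] with n h2 h3
    rw [← h2 (z n)]
    have h4 := Polynomial.map_mapRingHom_evalEval (algebraMap ℚ ℝ)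
      (R.map (Polynomial.mapRingHom (Int.castRingHom ℚ))) (b ^ e n) (z n)
    rw [h3, map_zero, Polynomial.map_map, Polynomial.mapRingHom_comp] at h4
    have h5 : (algebraMap ℚ ℝ).comp (Int.castRingHom ℚ) = Int.castRingHom ℝ :=
      RingHom.ext_int _ _
    rw [h5] at h4
    simp only [eq_ratCast] at h4
    push_cast at h4
    exact h4
  rw [Ultrafilter.eventually_exists_mem_iff hSfin] at h1
  obtain ⟨G, hGS, hG⟩ := h1
  have h2 : ∀ᶠ n in (UU : Filter ℕ), ∃ ρ ∈ Set.Iio q, e n % q = ρ :=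
    Eventually.of_forall fun n => ⟨_, Nat.mod_lt _ hq, rfl⟩
  rw [Ultrafilter.eventually_exists_mem_iff (Set.finite_Iio q)] at h2
  obtain ⟨ρ, -, hρ⟩ := h2
  obtain ⟨p, hp⟩ := (hSan G hGS).2 (q * (D + J + 1))
  obtain ⟨C, hC⟩ := hp.bound
  set M : ℕ := p.natDegree + 1 with hM
  set β : ℝ := B ^ (-(ρ : ℝ) / q) with hβ
  set e' : ℕ → ℕ := fun n => e n / q with he'
  set k : Fin M → ℤ := fun i => (q * D : ℕ) - (i : ℕ) with hk
  set γ : Fin M → ℝ := fun i => (p.coeff i : ℝ) * β ^ (i : ℕ) * B ^ (ρ * D) with hγ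
  have hβalg : IsAlgebraic ℚ β := by
    have h3 : β ^ q = B ^ (-(ρ : ℝ)) := by
      rw [hβ, ← Real.rpow_natCast, ← Real.rpow_mul hB0.le]
      congr 1
      field_simp
    have h4 : IsAlgebraic ℚ (β ^ q) := by
      rw [h3, Real.rpow_neg hB0.le, Real.rpow_natCast]
      have : (B ^ ρ)⁻¹ = algebraMap ℚ ℝ ((b ^ ρ)⁻¹) := by
        rw [hB, eq_ratCast]
        push_cast
        rfl
      rw [this]
      exact isAlgebraic_algebraMap _
    exact h4.of_pow hq
  have hγalg : ∀ i, IsAlgebraic ℚ (γ i) := by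
    intro i
    apply IsAlgebraic.mul
    · apply IsAlgebraic.mul
      · exact (mem_RA _).1 (p.coeff i).2
      · exact hβalg.pow _
    · have : (B ^ (ρ * D)) = algebraMap ℚ ℝ (b ^ (ρ * D)) := by
        rw [hB, eq_ratCast]
        push_cast
        rfl
      rw [this]
      exact isAlgebraic_algebraMap _
  refine ⟨q, M, k, γ, hq, fun i j hij => Fin.ext (by simp only [hk] at hij; omega), hγalg, ?_⟩
  have h5 : ∀ᶠ n in atTop, C ≤ B ^ e n := htt.eventually_ge_atTop _
  filter_upwards [hG, hρ, ev_of_atTop (((rt_tendsto hq).comp htt).eventually hC),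
    ev_of_atTop h5] with n h6 h7 h8 h9
  simp only [Function.comp, Real.norm_eq_abs] at h8
  set t : ℝ := B ^ e n with ht
  have ht0 : 0 < t := by positivity
  have hen : e n = q * e' n + ρ := by
    rw [he', ← h7]
    exact (Nat.div_add_mod (e n) q).symm
  have hrt : rt q t = β * B ^ (-(e' n : ℝ)) := by
    unfold rt
    rw [ht, hen, ← Real.rpow_natCast, ← Real.rpow_mul hB0.le, hβ,
      ← Real.rpow_add hB0]
    congr 1
    push_cast
    field_simp
    ring
  have hsum : t ^ D * Polynomial.aeval (rt q t) p = ∑ i, γ i * B ^ (k i * (e' n : ℤ)) := by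
    rw [Polynomial.aeval_eq_sum_range, Finset.mul_sum, ← hM, Finset.sum_range]
    refine Finset.sum_congr rfl fun i _ => ?_
    have h10 : (p.coeff i) • rt q t ^ (i : ℕ) = (p.coeff i : ℝ) * rt q t ^ (i : ℕ) := rfl
    rw [h10, hrt, mul_pow, ht, hen, hγ, hk]
    have h11 : (B ^ (q * e' n + ρ)) ^ D = B ^ (ρ * D) * B ^ ((q * D : ℕ) * (e' n) : ℕ) := by
      rw [← pow_mul, ← pow_add]
      congr 1
      ring
    have h12 : (B ^ (-(e' n : ℝ))) ^ (i : ℕ) = B ^ (-((i : ℕ) * (e' n : ℕ) : ℤ)) := by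
      rw [← Real.rpow_natCast, ← Real.rpow_mul hB0.le, ← Real.rpow_intCast]
      congr 1
      push_cast
      ring
    have h13 : B ^ ((q * D : ℕ) * (e' n) : ℕ) * B ^ (-((i : ℕ) * (e' n : ℕ) : ℤ)) =
        B ^ ((((q * D : ℕ) : ℤ) - (i : ℕ)) * (e' n : ℤ)) := by
      rw [← zpow_natCast, ← zpow_add₀ hBne]
      congr 1
      push_cast
      ring
    simp only []
    rw [h11, h12, ← h13]
    ring
  rw [← hsum, h6, ← mul_sub, abs_mul, abs_of_pos (pow_pos ht0 D)]
  have hrt0 : 0 < rt q t := rt_pos ht0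
  rw [abs_of_pos (pow_pos hrt0 _)] at h8
  have h14 : t ^ D * rt q t ^ (q * (D + J + 1)) = (t ^ J)⁻¹ * t⁻¹ := by
    rw [pow_mul, rt_pow hq ht0, inv_pow, pow_succ, pow_add]
    field_simp
  have hJ : (t ^ J)⁻¹ = Real.exp (-J * (e n * Real.log b)) := by
    rw [show -(J : ℝ) * (e n * Real.log b) = -(Real.log b * e n * J) by ring, Real.exp_neg,
      Real.exp_mul, Real.exp_mul, Real.exp_log hB0, Real.rpow_natCast, Real.rpow_natCast]
  rw [← hJ]
  calc t ^ D * |G (rt q t) - Polynomial.aeval (rt q t) p| ≤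
        t ^ D * (C * rt q t ^ (q * (D + J + 1))) := mul_le_mul_of_nonneg_left h8 (pow_pos ht0 D).le
    _ = C * (t⁻¹ * (t ^ J)⁻¹) := by rw [mul_left_comm, h14]; ring
    _ ≤ t * (t⁻¹ * (t ^ J)⁻¹) := mul_le_mul_of_nonneg_right h9 (by positivity)
    _ = _ := by field_simp

/-- the substitution `X ↦ σ X` in the coefficients -/
noncomputable def sub (σ : ℤ) : Polynomial ℤ →+* Polynomial ℤ :=
  Polynomial.compRingHom (Polynomial.C σ * Polynomial.X)

lemma sub_evalEval (σ : ℤ) (R : Polynomial (Polynomial ℤ)) (x z : ℚ) :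
    ((R.map (sub σ)).map (Polynomial.mapRingHom (Int.castRingHom ℚ))).evalEval x z =
      (R.map (Polynomial.mapRingHom (Int.castRingHom ℚ))).evalEval (σ * x) z := by
  induction R using Polynomial.induction_on' with
  | add p q hp hq =>
    simp only [Polynomial.map_add, Polynomial.evalEval_add] at hp hq ⊢
    rw [hp, hq]
  | monomial k p =>
    rw [Polynomial.map_monomial, Polynomial.map_monomial, Polynomial.map_monomial,
      ← Polynomial.C_mul_X_pow_eq_monomial, ← Polynomial.C_mul_X_pow_eq_monomial,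
      Polynomial.evalEval_mul, Polynomial.evalEval_mul, Polynomial.evalEval_C,
      Polynomial.evalEval_C, Polynomial.evalEval_pow, Polynomial.evalEval_X,
      Polynomial.evalEval_pow, Polynomial.evalEval_X]
    congr 1
    rw [sub, Polynomial.coe_compRingHom_apply, Polynomial.coe_mapRingHom, Polynomial.map_comp,
      Polynomial.eval_comp]
    simp

lemma sub_sub {σ : ℤ} (hσ : σ * σ = 1) (R : Polynomial (Polynomial ℤ)) :
    (R.map (sub σ)).map (sub σ) = R := by
  have h1 : (sub σ).comp (sub σ) = RingHom.id _ := by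
    apply Polynomial.ringHom_ext
    · intro a
      simp [sub]
    · rw [RingHom.comp_apply, sub, Polynomial.coe_compRingHom_apply,
        Polynomial.coe_compRingHom_apply, Polynomial.X_comp, Polynomial.mul_comp,
        Polynomial.C_comp, Polynomial.X_comp, ← mul_assoc, ← Polynomial.C_mul, hσ]
      simp
  rw [Polynomial.map_map, h1, Polynomial.map_id]

/-- **expansions of algebraic functions of `T = σ β ^ e`** -/
theorem expand' {e : ℕ → ℕ} (he : Tendsto e atTop atTop) {b : ℚ} (hb : 1 < b) {σ : ℤ}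
    (hσ : σ * σ = 1) (z : ℕ → ℚ)
    (R : Polynomial (Polynomial ℤ)) (hR : R ≠ 0)
    (hRn : ∀ᶠ n in (UU : Filter ℕ), (R.map (Polynomial.mapRingHom (Int.castRingHom ℚ))).evalEval
      (σ * b ^ e n) (z n) = 0) (J : ℕ) :
    ∃ (q : ℕ) (M : ℕ) (k : Fin M → ℤ) (γ : Fin M → ℝ), 1 ≤ q ∧ Function.Injective k ∧
      (∀ i, IsAlgebraic ℚ (γ i)) ∧
      ∀ᶠ n in (UU : Filter ℕ), |(z n : ℝ) - ∑ i, γ i * (b : ℝ) ^ (k i * ((e n / q : ℕ) : ℤ))| ≤
        Real.exp (-J * (e n * Real.log b)) := by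
  refine expand he hb z (R.map (sub σ)) ?_ ?_ J
  · intro h
    apply hR
    rw [← sub_sub hσ R, h, Polynomial.map_zero]
  · filter_upwards [hRn] with n hn
    rw [sub_evalEval]
    exact hn

end Pool.Agent.H556.FX
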