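import Mathlib
import Pool.Agent.H556.FG.Core

/-!
# Common divisors of `1 + Z` and short sums of `S`-units, germs

The general form of `Pool.Agent.H556.FG.core`: the Fermat number is replaced by an integer `Q` prime
to `S` which divides the numerator of `1 + Z`, where `Z` is an `S`-unit satisfying Capelli's
conditions.
-/

set_option autoImplicit false

namespace Pool.Agent.H556.FX

open Filter Topology Pool.Agent.TH932.Germs Pool.Agent.TH551.SU Pool.Agent.Y724.Vj
open Pool.Agent.TH551.SU.SUI MvPolynomial Pool.Agent.H556.FG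

theorem core {s : ℕ} (b : Fin s → ℕ) (hb : ∀ v, (b v).Prime) (hbi : Function.Injective b)
    {L : ℕ → ℝ} (hL : Tendsto L atTop atTop) (Z : ℕ → ℚ) (hZsu : ∀ n, IsSU b (Z n))
    (hZB : Bd L (gm Z)) (hZK : gm Z ∉ KK L hL)
    (hZ1 : ∀ w : GG, ∀ p : ℕ, p.Prime → gm Z ≠ -w ^ p) (hZ2 : ∀ w : GG, gm Z * 4 ≠ w ^ 4)
    (Q : ℕ → ℕ) (hQ0 : ∀ n, Q n ≠ 0) (hQF : ∀ n, (Q n : ℤ) ∣ (1 + Z n).num)
    (hF0 : ∀ n, 1 + Z n ≠ 0) (hQL : ∀ n, (Q n : ℝ) ≤ Real.exp (L n))
    (hcop : ∀ n v, Nat.Coprime (Q n) (b v)) {r : ℕ} (c : Fin r → ℕ → ℤ)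
    (u : Fin r → ℕ → ℚ) (hu : ∀ i n, IsSU b (u i n)) (huB : ∀ i, Bd L (gm (u i)))
    (hc : ∀ i, Negl L (c i)) (D : ℕ → ℕ) (hDF : ∀ n, D n ∣ Q n)
    (hDG : ∀ n, (D n : ℤ) ∣ (∑ i, (c i n : ℚ) * u i n).num)
    (hNF : ∀ n, ¬ (Q n : ℤ) ∣ (∑ i, (c i n : ℚ) * u i n).num) {δ : ℝ} (hδ : 0 < δ)
    (hD : ∀ n, Real.exp (δ * L n) ≤ D n) : False := by
  classical
  set β : ℕ := ∏ v, b v with hβ
  have hD0 : ∀ n, D n ≠ 0 := fun n h => by
    have := hDF n
    rw [h, zero_dvd_iff] at this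
    exact hQ0 n this
  obtain ⟨k, T, j, e, κ0, x, κ, he, hT, hTB, hκ0, hκ0K, hZT, hκ, hκK, huT, hind⟩ :=
    exists_T b hb hL u hu huB Z hZsu hZB hZK
  have hTne : ∀ l, gm (T l) ≠ 0 := fun l => gsu_ne_zero hb ⟨T l, rfl, hT l⟩
  have hκ0ne : gm κ0 ≠ 0 := gsu_ne_zero hb ⟨κ0, rfl, hκ0⟩
  have halg := alg_indep b hb hbi hL T hT hind
  -- the two polynomials
  set k0 : KK L hL := ⟨gm κ0, hκ0K⟩ with hk0
  have hcK : ∀ i, gm (fun n => (c i n : ℚ)) ∈ KK L hL := by
    intro i
    refine ⟨c i, fun _ => 1, hc i, Negl.one hL, by simp, ?_⟩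
    congr 1
    funext n
    push_cast
    rw [div_one]
  set co : Fin r → KK L hL := fun i => ⟨_, mul_mem (hcK i) (hκK i)⟩ with hco
  set h : Fin k → ℕ := fun l => ∑ i, (x i l).natAbs with hh
  set f : MvPolynomial (Fin k) (KK L hL) := 1 + C k0 * X j ^ e with hf
  set E : Fin r → (Fin k →₀ ℕ) := fun i =>
    Finsupp.equivFunOnFinite.symm (fun l => ((h l : ℤ) + x i l).toNat) with hE
  set g : MvPolynomial (Fin k) (KK L hL) := ∑ i, monomial (E i) (co i) with hg
  set TT : GG := ∏ l, gm (T l) ^ (h l) with hTT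
  have hTT0 : TT ≠ 0 := Finset.prod_ne_zero_iff.2 fun l _ => pow_ne_zero _ (hTne l)
  have hfT : aeval (fun l => gm (T l)) f = gm (fun n => 1 + Z n) := by
    rw [hf, map_add, map_one, map_mul, map_pow, aeval_X, aeval_C]
    have h1 : algebraMap (KK L hL) GG k0 = gm κ0 := rfl
    rw [h1, ← hZT, ← gm_one, gm_add]
  have hsum : gm (fun n => ∑ i, (c i n : ℚ) * u i n) =
      ∑ i, gm (fun n => (c i n : ℚ)) * gm (u i) := by
    rw [gm_sum']
    rfl
  have hgT : aeval (fun l => gm (T l)) g = TT * gm (fun n => ∑ i, (c i n : ℚ) * u i n) := by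
    rw [hsum, hg, map_sum, Finset.mul_sum]
    refine Finset.sum_congr rfl fun i _ => ?_
    rw [aeval_monomial, huT i, Finsupp.prod_fintype _ _ (fun l => pow_zero _)]
    have h1 : algebraMap (KK L hL) GG (co i) = gm (fun n => (c i n : ℚ)) * gm (κ i) := rfl
    rw [h1]
    have h2 : ∏ l, gm (T l) ^ (E i l) = TT * ∏ l, gm (T l) ^ (x i l) := by
      rw [hTT, ← Finset.prod_mul_distrib]
      refine Finset.prod_congr rfl fun l _ => ?_
      have h4 : E i l = ((h l : ℤ) + x i l).toNat := rfl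
      rw [h4, ← zpow_natCast, ← zpow_natCast, ← zpow_add₀ (hTne l)]
      congr 1
      rw [Int.toNat_of_nonneg]
      have h3 : (x i l).natAbs ≤ h l :=
        Finset.single_le_sum (f := fun i => (x i l).natAbs) (fun _ _ => Nat.zero_le _)
          (Finset.mem_univ i)
      omega
    rw [h2]
    ring
  -- irreducibility
  have hfirr : Irreducible f := by
    apply irreducible_one_add j he
    · intro h0
      exact hκ0ne (congrArg Subtype.val h0)
    · intro p hp hpe c' hc'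
      obtain ⟨e', rfl⟩ := hpe
      have h1 : gm κ0 * (c' : GG) ^ p = -1 := congrArg Subtype.val hc'
      have hc0 : (c' : GG) ≠ 0 := by
        intro h2
        rw [h2, zero_pow hp.ne_zero, mul_zero] at h1
        exact absurd h1.symm (neg_ne_zero.2 one_ne_zero)
      apply hZ1 (gm (T j) ^ e' / (c' : GG)) p hp
      rw [hZT, div_pow, ← pow_mul, mul_comm e' p, ← neg_div, eq_div_iff (pow_ne_zero _ hc0)]
      linear_combination gm (T j) ^ (p * e') * h1
    · intro h4 c' hc'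
      obtain ⟨e', rfl⟩ := h4
      have h1 : gm κ0 * (4 * (c' : GG) ^ 4) = 1 := by
        have := congrArg Subtype.val hc'
        exact this
      have hc0 : (c' : GG) ≠ 0 := by
        intro h2
        rw [h2, zero_pow (by norm_num), mul_zero, mul_zero] at h1
        exact zero_ne_one h1
      apply hZ2 (gm (T j) ^ e' / (c' : GG))
      rw [hZT, div_pow, ← pow_mul, mul_comm e' 4, eq_div_iff (pow_ne_zero _ hc0)]
      linear_combination gm (T j) ^ (4 * e') * h1
  -- divisibility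
  have hD1 : ∀ n, D n ≤ Q n := fun n => Nat.le_of_dvd (Nat.pos_of_ne_zero (hQ0 n)) (hDF n)
  have hSgG : Sg L β (gm (fun n => ∑ i, (c i n : ℚ) * u i n)) := by
    rw [hsum]
    refine Sg.sum hL _ _ fun i _ => (Sg.int hL (c i)).mul ?_
    exact Sg.of_su b hb hbi hL (hu i) (huB i)
  have hSgF : Sg L β (gm (fun n => 1 + Z n)) := by
    have h1 : gm (fun n => 1 + Z n) = ∑ i : Fin 2, (![gm (fun _ => ((1 : ℤ) : ℚ)), gm Z] i) := by
      rw [Fin.sum_univ_two]
      simp only [Matrix.cons_val_zero, Matrix.cons_val_one, Int.cast_one]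
      rw [gm_add]
    rw [h1]
    refine Sg.sum hL _ _ fun i _ => ?_
    fin_cases i
    · exact Sg.int hL (fun _ => 1)
    · exact Sg.of_su b hb hbi hL hZsu hZB
  have hdvd : f ∣ g := by
    by_contra hnd
    have hrel : IsRelPrime f g := hfirr.isRelPrime_iff_not_dvd.2 hnd
    have hg0 : g ≠ 0 := by
      intro h0
      apply hnd
      rw [h0]
      exact dvd_zero _
    have hneg := gcd_germ b hb hbi hL T hT hTB halg f g hfirr.ne_zero hg0 hrel D hD0
      (fun n v => Nat.Coprime.coprime_dvd_left (hDF n) (hcop n v)) 1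
      (Eventually.of_forall fun n => by
        rw [one_mul]
        exact (by exact_mod_cast hD1 n : (D n : ℝ) ≤ Q n).trans (hQL n))
      (by
        rw [hfT]
        exact sg_div hSgF D hD0 fun n => (Int.natCast_dvd_natCast.2 (hDF n)).trans (hQF n))
      (by
        rw [hgT, mul_left_comm]
        refine Sg.mul (Sg.prod hL _ _ fun l _ => ?_) (sg_div hSgG D hD0 hDG)
        exact (Sg.of_su b hb hbi hL (hT l) (hTB l)).pow hL _)
    have h1 := hneg (δ / 2) (by positivity)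
    obtain ⟨n, hn1, hn2⟩ := (h1.and (ev_of_atTop (hL.eventually_ge_atTop 1))).exists
    have h2 := hD n
    rw [Int.cast_natCast, abs_of_nonneg (Nat.cast_nonneg _)] at hn1
    have h3 := Real.exp_le_exp.1 (h2.trans hn1)
    nlinarith
  obtain ⟨q, hq⟩ := hdvd
  have hqR := coeff_mem_of_mul ((IR β).comap (algebraMap (KK L hL) GG)) j he (κ := k0)
    (mem_IR_su hb hκ0) q g hq.symm (by
      intro d
      rw [hg, coeff_sum]
      refine sum_mem fun i _ => ?_
      rw [coeff_monomial]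
      split_ifs with h1
      · change algebraMap (KK L hL) GG (co i) ∈ IR β
        exact mul_mem (mem_IR_int β (c i)) (mem_IR_su hb (hκ i))
      · exact zero_mem _)
  have hqT : aeval (fun l => gm (T l)) q ∈ IR β := by
    rw [aeval_def, eval₂_eq']
    refine sum_mem fun d _ => mul_mem (hqR d) (prod_mem fun l _ => pow_mem (mem_IR_su hb (hT l)) _)
  have hTTinv : TT⁻¹ ∈ IR β := by
    rw [hTT, ← Finset.prod_inv_distrib]
    refine prod_mem fun l _ => ?_
    rw [← inv_pow, gm_inv]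
    exact pow_mem (mem_IR_su hb fun n => isSU_inv (hT l n)) _
  have hFne : gm (fun n => 1 + Z n) ≠ 0 := by
    rw [gm_ne_zero]
    exact Eventually.of_forall fun n => hF0 n
  have hfin : gm (fun n => ∑ i, (c i n : ℚ) * u i n) * (gm (fun n => 1 + Z n))⁻¹ ∈ IR β := by
    have h1 : gm (fun n => ∑ i, (c i n : ℚ) * u i n) * (gm (fun n => 1 + Z n))⁻¹ =
        TT⁻¹ * aeval (fun l => gm (T l)) q := by
      rw [hq, map_mul, hfT] at hgT
      field_simp
      rw [hgT, mul_comm]
    rw [h1]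
    exact mul_mem hTTinv hqT
  obtain ⟨a, ha, ha'⟩ := hfin
  rw [gm_inv, gm_mul, gm_eq] at ha
  obtain ⟨n, hn⟩ := ha.exists
  obtain ⟨k', z, hz⟩ := ha' n
  apply hNF n
  set G : ℚ := ∑ i, (c i n : ℚ) * u i n with hG
  have hFq : 1 + Z n ≠ 0 := hF0 n
  have h1 : (β : ℚ) ^ k' * G = z * (1 + Z n) := by
    rw [← hz, ← hn]
    field_simp
  have h2 : ((β : ℤ) ^ k' * (1 + Z n).den) * G.num = (1 + Z n).num * (z * G.den) := by
    have h3 : G * G.den = G.num := Rat.mul_den_eq_num G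
    have h3' : (1 + Z n) * (1 + Z n).den = (1 + Z n).num := Rat.mul_den_eq_num _
    have h4 : (((β : ℤ) ^ k' * (1 + Z n).den) * G.num : ℤ) =
        (((1 + Z n).num * (z * G.den) : ℤ) : ℚ) := by
      push_cast
      rw [← h3, ← h3']
      linear_combination ((G.den : ℚ) * (1 + Z n).den) * h1
    exact_mod_cast h4
  have h5 : IsCoprime (Q n : ℤ) ((β : ℤ) ^ k' * (1 + Z n).den) := by
    apply IsCoprime.mul_right
    · apply IsCoprime.pow_right
      rw [Nat.isCoprime_iff_coprime, hβ]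
      exact Nat.Coprime.prod_right fun v _ => hcop n v
    · have h6 : IsCoprime (1 + Z n).num ((1 + Z n).den : ℤ) := by
        rw [Int.isCoprime_iff_gcd_eq_one, Int.gcd, Int.natAbs_natCast]
        exact (1 + Z n).reduced
      exact IsCoprime.of_isCoprime_of_dvd_left h6 (hQF n)
  exact h5.dvd_of_dvd_mul_left (h2 ▸ (hQF n).mul_right _)

end Pool.Agent.H556.FX
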