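import Mathlib

/-!
# The numbers `(x ^ p - y ^ p) / (x - y)`
-/

set_option autoImplicit false

namespace Pool.Agent.H556.FX

/-- lower bound -/
lemma M_lower {x y M : ℤ} (hx : 1 < x) (h1 : -x < y) (h2 : y < x) {p : ℕ} (hp : 3 ≤ p)
    (hM : M * (x - y) = x ^ p - y ^ p) : 0 < M ∧ x ^ (p - 3) ≤ M := by
  have h3 : |y| ≤ x - 1 := by rw [abs_le]; constructor <;> omega
  have h4 : y ^ p ≤ (x - 1) * x ^ (p - 1) := by
    calc y ^ p ≤ |y ^ p| := le_abs_self _
      _ = |y| ^ p := abs_pow _ _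
      _ = |y| * |y| ^ (p - 1) := by rw [← pow_succ', Nat.sub_add_cancel (by omega)]
      _ ≤ (x - 1) * x ^ (p - 1) :=
          mul_le_mul h3 (pow_le_pow_left₀ (abs_nonneg _) (by omega) _) (by positivity) (by omega)
  have h5 : x ^ (p - 1) ≤ M * (x - y) := by
    rw [hM]
    have : x ^ p = x * x ^ (p - 1) := by rw [← pow_succ', Nat.sub_add_cancel (by omega)]
    nlinarith
  have h6 : x ^ (p - 1) = x ^ (p - 3) * x ^ 2 := by rw [← pow_add]; congr 1; omega
  have hMpos : 0 < M := by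
    by_contra h
    push Not at h
    have : 0 < x ^ (p - 1) := by positivity
    nlinarith
  refine ⟨hMpos, ?_⟩
  have h7 : x - y ≤ x ^ 2 := by nlinarith
  have h8 : x ^ (p - 3) * x ^ 2 ≤ M * x ^ 2 := by
    rw [← h6]
    exact h5.trans (mul_le_mul_of_nonneg_left h7 hMpos.le)
  exact le_of_mul_le_mul_right h8 (by positivity)

/-- upper bound -/
lemma M_upper {x y M : ℤ} (h1 : -x < y) (h2 : y < x) {p : ℕ}
    (hM : M * (x - y) = x ^ p - y ^ p) (hM0 : 0 ≤ M) : M ≤ 2 * x ^ p := by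
  have h3 : M ≤ M * (x - y) := by nlinarith
  have h4 : |y| ^ p ≤ x ^ p :=
    pow_le_pow_left₀ (abs_nonneg _) (by rw [abs_le]; constructor <;> omega) _
  have h5 : -|y| ^ p ≤ y ^ p := by rw [← abs_pow]; exact neg_abs_le _
  linarith

/-- `(x ^ p - y ^ p) / (x - y)` has no prime factor below `p` -/
lemma coprime_M {x y : ℤ} (hxy : IsCoprime x y) (hne : x ≠ y) {p : ℕ} (hp : p.Prime) {M : ℤ}
    (hM : M * (x - y) = x ^ p - y ^ p) {l : ℕ} (hl : l.Prime) (hlp : l < p) :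
    ¬ (l : ℤ) ∣ M := by
  intro hd
  have hxy0 : x - y ≠ 0 := sub_ne_zero.2 hne
  have hMs : M = ∑ i ∈ Finset.range p, x ^ i * y ^ (p - 1 - i) := by
    apply mul_right_cancel₀ hxy0
    rw [hM, geom_sum₂_mul]
  have := Fact.mk hl
  have hM0 : (M : ZMod l) = 0 := (ZMod.intCast_zmod_eq_zero_iff_dvd M l).2 hd
  have hnot : ¬ ((x : ZMod l) = 0 ∧ (y : ZMod l) = 0) := by
    rintro ⟨h1, h2⟩
    rw [ZMod.intCast_zmod_eq_zero_iff_dvd] at h1 h2
    have h3 := hxy.isUnit_of_dvd' h1 h2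
    exact (Nat.prime_iff_prime_int.1 hl).not_isUnit h3
  have hpow : (x : ZMod l) ^ p = (y : ZMod l) ^ p := by
    have h1 := congrArg (fun t : ℤ => (t : ZMod l)) hM
    push_cast at h1
    rw [hM0, zero_mul] at h1
    exact (sub_eq_zero.1 h1.symm)
  have hy : (y : ZMod l) ≠ 0 := by
    intro h
    rw [h, zero_pow hp.ne_zero] at hpow
    exact hnot ⟨eq_zero_of_pow_eq_zero hpow, h⟩
  have hx : (x : ZMod l) ≠ 0 := by
    intro h
    rw [h, zero_pow hp.ne_zero] at hpow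
    exact hy (eq_zero_of_pow_eq_zero hpow.symm)
  have h1 : ((x : ZMod l) / y) ^ p = 1 := by
    rw [div_pow, hpow, div_self (pow_ne_zero _ hy)]
  have h2 : ((x : ZMod l) / y) ^ (l - 1) = 1 := ZMod.pow_card_sub_one_eq_one (div_ne_zero hx hy)
  have h3 : p.gcd (l - 1) = 1 := by
    rw [← Nat.coprime_iff_gcd_eq_one]
    apply (Nat.Prime.coprime_iff_not_dvd hp).2
    intro h
    have h4 := Nat.le_of_dvd (by have := hl.two_le; omega) h
    omega
  have h4 := pow_gcd_eq_one.2 ⟨h1, h2⟩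
  rw [h3, pow_one, div_eq_one_iff_eq hy] at h4
  have h5 : (M : ZMod l) = p * (y : ZMod l) ^ (p - 1) := by
    rw [hMs]
    push_cast
    rw [h4]
    have : ∀ i ∈ Finset.range p, (y : ZMod l) ^ i * (y : ZMod l) ^ (p - 1 - i) =
        (y : ZMod l) ^ (p - 1) := by
      intro i hi
      rw [← pow_add]
      congr 1
      have := Finset.mem_range.1 hi
      omega
    rw [Finset.sum_congr rfl this, Finset.sum_const, Finset.card_range, nsmul_eq_mul]
  rw [hM0] at h5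
  rcases mul_eq_zero.1 h5.symm with h6 | h6
  · rw [ZMod.natCast_eq_zero_iff] at h6
    have := (Nat.prime_dvd_prime_iff_eq hl hp).1 h6
    omega
  · exact pow_ne_zero _ hy h6

/-- coprime integers whose ratio is a power -/
lemma pow_of_ratio {x y : ℤ} (hx : 0 < x) (hy : y ≠ 0) (hxy : IsCoprime x y) {l : ℕ} {ρ : ℚ}
    (h : (x : ℚ) / y = ρ ^ l) : ∃ c d : ℤ, x = c ^ l ∧ y = d ^ l := by
  have hc : x.natAbs.Coprime y.natAbs := Int.isCoprime_iff_gcd_eq_one.1 hxy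
  rcases lt_or_gt_of_ne hy with hy | hy
  · have h1 : ((-x : ℤ) : ℚ) / ((-y : ℤ) : ℚ) = ρ ^ l := by
      rw [← h]
      push_cast
      rw [neg_div_neg_eq]
    have hc' : (-x).natAbs.Coprime (-y).natAbs := by rwa [Int.natAbs_neg, Int.natAbs_neg]
    have h2 := Rat.num_div_eq_of_coprime (a := -x) (b := -y) (by omega) hc'
    have h3 := Rat.den_div_eq_of_coprime (a := -x) (b := -y) (by omega) hc'
    rw [h1, Rat.num_pow] at h2
    rw [h1, Rat.den_pow] at h3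
    have hodd : Odd l := by
      by_contra h4
      rw [Nat.not_odd_iff_even] at h4
      have := h4.pow_nonneg ρ.num
      omega
    refine ⟨-ρ.num, -(ρ.den : ℤ), ?_, ?_⟩
    · rw [hodd.neg_pow, h2, neg_neg]
    · rw [hodd.neg_pow]
      push_cast at h3
      rw [h3, neg_neg]
  · have h2 := Rat.num_div_eq_of_coprime hy hc
    have h3 := Rat.den_div_eq_of_coprime hy hc
    rw [h, Rat.num_pow] at h2
    rw [h, Rat.den_pow] at h3
    refine ⟨ρ.num, (ρ.den : ℤ), h2.symm, ?_⟩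
    push_cast at h3
    exact h3.symm

/-- squares -/
lemma sq_split {x y : ℤ} (hx : 0 < x) (hy : y ≠ 0) (hxy : IsCoprime x y)
    (h : IsSquare (-4 * x * y)) : ∃ s t : ℤ, 0 < s ∧ 0 < t ∧ x = s ^ 2 ∧ y = -t ^ 2 := by
  obtain ⟨m, hm⟩ := h
  have h2 : Even m := by
    by_contra h3
    rw [Int.not_even_iff_odd] at h3
    have h4 : Odd (m * m) := h3.mul h3
    rw [← hm] at h4
    have h5 : Even (-4 * x * y) := ⟨-2 * x * y, by ring⟩
    exact (Int.not_even_iff_odd.2 h4) h5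
  obtain ⟨m', rfl⟩ := h2
  have h3 : x * (-y) = m' ^ 2 := by linarith
  have hxy' : IsCoprime x (-y) := hxy.neg_right
  obtain ⟨s, hs⟩ := Int.sq_of_isCoprime hxy' h3
  obtain ⟨t, ht⟩ := Int.sq_of_isCoprime hxy'.symm (by rw [mul_comm]; exact h3)
  have hs' : x = s ^ 2 := by
    rcases hs with hs | hs
    · exact hs
    · nlinarith [sq_nonneg s]
  have ht' : -y = t ^ 2 := by
    rcases ht with ht | ht
    · exact ht
    · exfalso
      have h4 : y = t ^ 2 := by linarith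
      have h5 : 0 < t ^ 2 := by
        apply lt_of_le_of_ne (sq_nonneg t)
        intro h6
        exact hy (by rw [h4, ← h6])
      have h7 : 0 < x * t ^ 2 := mul_pos hx h5
      rw [h4] at h3
      nlinarith [sq_nonneg m']
  refine ⟨|s|, |t|, abs_pos.2 ?_, abs_pos.2 ?_, by rw [sq_abs]; exact hs', by
    rw [sq_abs]; linarith⟩
  · rintro rfl
    rw [hs'] at hx
    simp at hx
  · rintro rfl
    apply hy
    simpa using ht'

/-- the condition on `-4 x y` -/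
lemma fourth {x y : ℤ} (hx : 0 < x) (hy : y ≠ 0) (hxy : IsCoprime x y) {p : ℕ} (hp : Odd p)
    {ω : ℚ} (h : -((x : ℚ) / y) ^ p * 4 = ω ^ 4) : ∃ c : ℤ, -4 * x * y = c ^ 4 := by
  obtain ⟨j, rfl⟩ := hp
  have hxq : (x : ℚ) ≠ 0 := by exact_mod_cast hx.ne'
  have hyq : (y : ℚ) ≠ 0 := by exact_mod_cast hy
  set ρ : ℚ := (x : ℚ) / y with hρ
  have hρ0 : ρ ≠ 0 := div_ne_zero hxq hyq
  have hρj : ρ ^ j ≠ 0 := pow_ne_zero _ hρ0
  have hxρ : (x : ℚ) = ρ * y := by rw [hρ]; field_simp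
  have h1 : IsSquare (((-4 * x * y : ℤ)) : ℚ) := by
    refine ⟨ω ^ 2 * (ρ ^ j)⁻¹ * y, ?_⟩
    push_cast
    rw [hxρ]
    field_simp
    rw [← h]
    ring
  rw [Rat.isSquare_intCast_iff] at h1
  obtain ⟨s, t, hs, ht, hxs, hyt⟩ := sq_split hx hy hxy h1
  have hsq : (0 : ℚ) < s := by exact_mod_cast hs
  have htq : (0 : ℚ) < t := by exact_mod_cast ht
  have hρ2 : ρ = -((s : ℚ) / t) ^ 2 := by
    rw [hρ, hxs, hyt]
    push_cast
    rw [div_pow]
    field_simp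
  set τ : ℚ := (s : ℚ) / t with hτ
  have hτ0 : 0 < τ := div_pos hsq htq
  have h2 : (2 * τ ^ (2 * j + 1)) ^ 2 = (ω ^ 2) ^ 2 := by
    rw [← pow_mul ω, ← h, hρ2, Odd.neg_pow ⟨j, rfl⟩]
    ring
  have h3 : 2 * τ ^ (2 * j + 1) = ω ^ 2 := by
    rw [sq_eq_sq₀ (by positivity) (by positivity)] at h2
    exact h2
  have h4 : IsSquare (((2 * s * t : ℤ)) : ℚ) := by
    refine ⟨ω * (τ ^ j)⁻¹ * t, ?_⟩
    have h5 : (s : ℚ) = τ * t := by rw [hτ]; field_simp
    have h6 : τ ^ j ≠ 0 := pow_ne_zero _ hτ0.ne'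
    push_cast
    rw [h5]
    field_simp
    rw [← h3]
    ring
  rw [Rat.isSquare_intCast_iff] at h4
  obtain ⟨g, hg⟩ := h4
  refine ⟨g, ?_⟩
  rw [hxs, hyt]
  have h7 : g ^ 4 = (g * g) ^ 2 := by ring
  rw [h7, ← hg]
  ring

end Pool.Agent.H556.FX
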