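import Mathlib
import Pool.Agent.H556.FG.Seq
import Pool.Agent.H556.FX.Core
import Pool.Agent.H556.FX.Elem

/-!
# Common divisors of `(x ^ p - y ^ p) / (x - y)` and short sums of `S`-units
-/

set_option autoImplicit false

namespace Pool.Agent.H556.FX

open Filter Topology Pool.Agent.TH932.Germs Pool.Agent.TH551.SU Pool.Agent.Y724.Vj
open Pool.Agent.H556.FG

lemma isSU_int {s : ℕ} (b : Fin s → ℕ) (hb : ∀ v, (b v).Prime) (hbi : Function.Injective b)
    {x : ℤ} (hx : x ≠ 0) (h : ∀ p : ℕ, p.Prime → p ∣ x.natAbs → ∃ v, b v = p) :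
    IsSU b (x : ℚ) := by
  apply isSU_of b hb _ (by exact_mod_cast hx) _ hbi
  intro p hp hd
  rw [Rat.num_intCast, Rat.den_intCast] at hd
  rcases hd with hd | hd
  · exact h p hp hd
  · exact absurd (Nat.dvd_one.1 hd) hp.one_lt.ne'

lemma isSU_pow {s : ℕ} {b : Fin s → ℕ} (hb : ∀ v, (b v).Prime) {x : ℚ} (hx : IsSU b x) (k : ℕ) :
    IsSU b (x ^ k) := by
  induction k with
  | zero => rw [pow_zero]; exact isSU_one b
  | succ k ih => rw [pow_succ]; exact isSU_mul hb ih hx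

lemma isSU_neg {s : ℕ} {b : Fin s → ℕ} (hb : ∀ v, (b v).Prime) {x : ℚ} (hx : IsSU b x) :
    IsSU b (-x) := by
  have h1 : IsSU b (-1) := ⟨-1, fun _ => 0, Or.inr rfl, by simp⟩
  have h2 := isSU_mul hb h1 hx
  rwa [neg_one_mul] at h2

/-- admissible pairs: the conditions used -/
structure Adm (x y : ℤ) : Prop where
  one_lt : 1 < x
  neg_lt : -x < y
  lt : y < x
  cop : IsCoprime x y
  pow : ∀ r : ℕ, 1 < r → ¬ ((∃ c : ℤ, x = c ^ r) ∧ ∃ d : ℤ, y = d ^ r)
  four : ¬ ∃ c : ℤ, -4 * x * y = c ^ 4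

lemma ne_zero_of {x y : ℤ} (hx : 1 < x) (hxy : IsCoprime x y) : y ≠ 0 := by
  rintro rfl
  rw [isCoprime_zero_right, Int.isUnit_iff] at hxy
  omega

/-- the theorem -/
theorem main {x y : ℤ} (hA : Adm x y) (S : Finset ℕ) (r : ℕ) (K δ : ℝ) (hδ : 0 < δ) :
    ∃ ε : ℝ, 0 < ε ∧ ∃ p₀ : ℕ, ∀ p ≥ p₀, p.Prime → ∀ M : ℕ, (M : ℤ) * (x - y) = x ^ p - y ^ p →
      ∀ (c : Fin r → ℤ) (u : Fin r → ℚ),
      (∀ i, |(c i : ℝ)| ≤ (M : ℝ) ^ ε) → (∀ i, u i ≠ 0) →
      (∀ i, ∀ l : ℕ, l.Prime → (l ∣ (u i).num.natAbs ∨ l ∣ (u i).den) → l ∈ S) →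
      (∀ i, |((u i).num : ℝ)| ≤ (M : ℝ) ^ K ∧ ((u i).den : ℝ) ≤ (M : ℝ) ^ K) →
      ¬ (M : ℤ) ∣ (∑ i, (c i : ℚ) * u i).num →
      ∀ d : ℕ, d ∣ M → (d : ℤ) ∣ (∑ i, (c i : ℚ) * u i).num →
      (d : ℝ) < (M : ℝ) ^ δ := by
  classical
  by_contra hcon
  push Not at hcon
  obtain ⟨hx1, hxy1, hxy2, hcop, hpow, hfour⟩ := hA
  have hx0 : x ≠ 0 := by omega
  have hy0 : y ≠ 0 := ne_zero_of hx1 hcop
  have hxq : (x : ℚ) ≠ 0 := by exact_mod_cast hx0
  have hyq : (y : ℚ) ≠ 0 := by exact_mod_cast hy0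
  -- the primes
  set S' : Finset ℕ := S.filter Nat.Prime ∪ (x.natAbs.primeFactors ∪ y.natAbs.primeFactors) with hS'
  set b : Fin S'.card → ℕ := fun v => (S'.equivFin.symm v : ℕ) with hb0
  have hb : ∀ v, (b v).Prime := by
    intro v
    have h1 := (S'.equivFin.symm v).2
    rcases Finset.mem_union.1 h1 with h2 | h2
    · exact (Finset.mem_filter.1 h2).2
    · rcases Finset.mem_union.1 h2 with h3 | h3
      · exact Nat.prime_of_mem_primeFactors h3
      · exact Nat.prime_of_mem_primeFactors h3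
  have hbi : Function.Injective b := fun x y h =>
    S'.equivFin.symm.injective (Subtype.ext h)
  have hbs : ∀ p ∈ S', ∃ v, b v = p := fun p hp =>
    ⟨S'.equivFin ⟨p, hp⟩, by rw [hb0]; simp⟩
  have hble : ∀ v, b v ≤ ∑ p ∈ S', p := fun v =>
    Finset.single_le_sum (f := fun p : ℕ => p) (fun _ _ => Nat.zero_le _) (S'.equivFin.symm v).2
  have hxs : IsSU b (x : ℚ) := isSU_int b hb hbi hx0 fun p hp hd => hbs p (by
    rw [hS', Finset.mem_union, Finset.mem_union]
    exact Or.inr (Or.inl (Nat.mem_primeFactors.2 ⟨hp, hd, Int.natAbs_ne_zero.2 hx0⟩)))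
  have hys : IsSU b (y : ℚ) := isSU_int b hb hbi hy0 fun p hp hd => hbs p (by
    rw [hS', Finset.mem_union, Finset.mem_union]
    exact Or.inr (Or.inr (Nat.mem_primeFactors.2 ⟨hp, hd, Int.natAbs_ne_zero.2 hy0⟩)))
  choose p hp hpp M hM c u hc hu0 hu huB hNF D hDF hDG hD using
    fun n : ℕ => hcon (1 / ((n : ℝ) + 1)) (by positivity) (n + 8 + y.natAbs + ∑ p ∈ S', p)
  have hp8 : ∀ n, n + 8 ≤ p n := fun n => by have := hp n; omega
  have hlow : ∀ n, 0 < (M n : ℤ) ∧ x ^ (p n - 3) ≤ (M n : ℤ) := fun n =>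
    M_lower hx1 hxy1 hxy2 (by have := hp8 n; omega) (hM n)
  have hup : ∀ n, (M n : ℤ) ≤ 2 * x ^ (p n) := fun n =>
    M_upper hxy1 hxy2 (hM n) (hlow n).1.le
  have hM0 : ∀ n, M n ≠ 0 := fun n h => by
    have := (hlow n).1
    rw [h] at this
    simp at this
  have hMpos : ∀ n, (0 : ℝ) < M n := fun n => by exact_mod_cast Nat.pos_of_ne_zero (hM0 n)
  set L : ℕ → ℝ := fun n => Real.log (M n) with hLdef
  have hexpL : ∀ n, Real.exp (L n) = M n := fun n => Real.exp_log (hMpos n)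
  have hMn : ∀ n, n ≤ M n := by
    intro n
    have h1 : (2 : ℤ) ^ (p n - 3) ≤ x ^ (p n - 3) := pow_le_pow_left₀ (by norm_num) (by omega) _
    have h2 : p n - 3 < 2 ^ (p n - 3) := Nat.lt_two_pow_self
    have h3 : ((p n - 3 : ℕ) : ℤ) < 2 ^ (p n - 3) := by exact_mod_cast h2
    have h4 := (hlow n).2
    have h5 := hp8 n
    have h6 : (n : ℤ) ≤ ((p n - 3 : ℕ) : ℤ) := by omega
    exact_mod_cast (by linarith : (n : ℤ) ≤ M n)
  have hL : Tendsto L atTop atTop := by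
    apply Real.tendsto_log_atTop.comp
    apply tendsto_natCast_atTop_atTop.comp
    exact tendsto_atTop_mono hMn tendsto_id
  have hlog : ∀ n, (M n : ℝ) = Real.exp (L n) := fun n => (hexpL n).symm
  -- `x ^ p ≤ M ^ 2`
  have hxp : ∀ n, x ^ (p n) ≤ (M n : ℤ) ^ 2 := by
    intro n
    calc x ^ (p n) ≤ x ^ ((p n - 3) * 2) :=
          pow_le_pow_right₀ (by omega) (by have := hp8 n; omega)
      _ = (x ^ (p n - 3)) ^ 2 := pow_mul _ _ _
      _ ≤ (M n : ℤ) ^ 2 := pow_le_pow_left₀ (by positivity) (hlow n).2 2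
  have hyx : |y| ≤ x := by rw [abs_le]; constructor <;> omega
  set Z : ℕ → ℚ := fun n => -((x : ℚ) / y) ^ (p n) with hZ
  have hZsu : ∀ n, IsSU b (Z n) := fun n =>
    isSU_neg hb (isSU_pow hb (by rw [div_eq_mul_inv]; exact isSU_mul hb hxs (isSU_inv hys)) _)
  have hpabs : ∀ n, |(x : ℝ) ^ (p n)| ≤ Real.exp (2 * L n) := by
    intro n
    have h1 : Real.exp (2 * L n) = (M n : ℝ) ^ 2 := by
      rw [← hexpL, ← Real.exp_nat_mul]
      norm_num
    rw [h1, abs_of_pos (pow_pos (by exact_mod_cast (by omega : 0 < x)) _)]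
    exact_mod_cast hxp n
  have hZB : Bd L (gm Z) := by
    refine ⟨fun n => -x ^ (p n), fun n => y ^ (p n), 2, ?_, ?_, ?_, ?_⟩
    · refine Eventually.of_forall fun n => ?_
      push_cast
      rw [abs_neg]
      exact hpabs n
    · refine Eventually.of_forall fun n => ?_
      push_cast
      refine le_trans ?_ (hpabs n)
      rw [abs_pow, abs_pow]
      apply pow_le_pow_left₀ (abs_nonneg _)
      have h1 : |(y : ℝ)| ≤ x := by exact_mod_cast hyx
      exact h1.trans (le_abs_self _)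
    · exact Eventually.of_forall fun n => pow_ne_zero _ hy0
    · congr 1
      funext n
      rw [hZ]
      push_cast
      rw [div_pow, neg_div]
  have hZnum : ∀ n, (x ^ (p n)) ∣ (Z n).num := by
    intro n
    have h1 : (Z n).num * y ^ (p n) = x ^ (p n) * (-(Z n).den) := by
      have h2 : Z n * (Z n).den = (Z n).num := Rat.mul_den_eq_num _
      have h3 : (((Z n).num * y ^ (p n) : ℤ) : ℚ) = ((x ^ (p n) * (-(Z n).den) : ℤ) : ℚ) := by
        push_cast
        rw [← h2, hZ]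
        simp only []
        rw [div_pow]
        field_simp
      exact_mod_cast h3
    exact (hcop.pow (m := p n) (n := p n)).dvd_of_dvd_mul_right ⟨_, h1⟩
  have hZ0 : ∀ n, Z n ≠ 0 := fun n => neg_ne_zero.2 (pow_ne_zero _ (div_ne_zero hxq hyq))
  have hZK : gm Z ∉ KK L hL := by
    intro h
    rw [mem_KK_iff] at h
    have h1 := h.1 (1 / 2) (by norm_num)
    have h2 : ∀ᶠ n in (UU : Filter ℕ), (8 : ℝ) ≤ L n :=
      ev_of_atTop (hL.eventually_ge_atTop 8)
    obtain ⟨n, hn1, hn2⟩ := (h1.and h2).exists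
    have h3 : x ^ (p n) ≤ |(Z n).num| := by
      apply Int.le_of_dvd (abs_pos.2 (Rat.num_ne_zero.2 (hZ0 n)))
      exact (dvd_abs _ _).2 (hZnum n)
    have h4 : (x : ℝ) ^ (p n) ≤ Real.exp (1 / 2 * L n) := by
      refine le_trans ?_ hn1
      exact_mod_cast h3
    have h5 : (M n : ℝ) ≤ 2 * (x : ℝ) ^ (p n) := by exact_mod_cast hup n
    have h6 : Real.exp (L n) = Real.exp (1 / 2 * L n) * Real.exp (1 / 2 * L n) := by
      rw [← Real.exp_add]; ring_nf
    have h7 := Real.add_one_le_exp (1 / 2 * L n)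
    rw [← hexpL] at h5
    nlinarith
  -- the two conditions
  have hroot : ∀ (l : ℕ), l.Prime → ∀ n, l < p n → ∀ ω : ℚ, ((x : ℚ) / y) ^ (p n) ≠ ω ^ l := by
    intro l hl n hln ω hω
    have hρ0 : (x : ℚ) / y ≠ 0 := div_ne_zero hxq hyq
    have hcp : IsCoprime (p n : ℤ) (l : ℤ) := by
      rw [Nat.isCoprime_iff_coprime]
      exact (Nat.coprime_primes (hpp n) hl).2 (by omega)
    obtain ⟨i, j, hij⟩ := hcp
    have hω0 : ω ≠ 0 := by
      rintro rfl
      rw [zero_pow hl.ne_zero] at hω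
      exact pow_ne_zero _ hρ0 hω
    have h1 : (x : ℚ) / y = (ω ^ i * ((x : ℚ) / y) ^ j) ^ l := by
      set ρ := (x : ℚ) / y with hρ
      calc ρ = ρ ^ (i * (p n : ℤ) + j * (l : ℤ)) := by rw [hij, zpow_one]
        _ = (ρ ^ (p n)) ^ i * (ρ ^ j) ^ l := by
            rw [zpow_add₀ hρ0, mul_comm i, zpow_mul, zpow_natCast, zpow_mul, zpow_natCast]
        _ = (ω ^ i * ρ ^ j) ^ l := by
            rw [hω, mul_pow, ← zpow_natCast, ← zpow_mul, mul_comm (l : ℤ) i, zpow_mul,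
              zpow_natCast]
    obtain ⟨c', d', h2, h3⟩ := pow_of_ratio (by omega) hy0 hcop h1
    exact hpow l hl.one_lt ⟨⟨c', h2⟩, ⟨d', h3⟩⟩
  have hZ1 : ∀ w : GG, ∀ l : ℕ, l.Prime → gm Z ≠ -w ^ l := by
    intro w l hl hw
    obtain ⟨ω, rfl⟩ := gm_surj w
    rw [gm_pow, gm_neg, gm_eq] at hw
    obtain ⟨n, hn, hn2⟩ := (hw.and (ev_of_atTop (eventually_ge_atTop l))).exists
    refine hroot l hl n (by have := hp8 n; omega) (ω n) ?_
    exact neg_injective hn
  have hZ2 : ∀ w : GG, gm Z * 4 ≠ w ^ 4 := by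
    intro w hw
    obtain ⟨ω, rfl⟩ := gm_surj w
    have h3 : gm (fun _ => (4 : ℚ)) = (4 : GG) := rfl
    rw [← h3, gm_mul, gm_pow, gm_eq] at hw
    obtain ⟨n, hn⟩ := hw.exists
    have hodd : Odd (p n) := (hpp n).odd_of_ne_two (by have := hp8 n; omega)
    exact hfour (fourth (by omega) hy0 hcop hodd hn)
  -- divisibility
  have hMc : ∀ n (l : ℕ), l.Prime → l < p n → ¬ (l : ℤ) ∣ (M n : ℤ) := fun n l hl hlp =>
    coprime_M hcop (by omega) (hpp n) (hM n) hl hlp
  have hMy : ∀ n, IsCoprime (M n : ℤ) (y ^ (p n)) := by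
    intro n
    apply IsCoprime.pow_right
    rw [Int.isCoprime_iff_gcd_eq_one, Int.gcd, Int.natAbs_natCast]
    rw [← Nat.coprime_iff_gcd_eq_one]
    by_contra hnc
    obtain ⟨l, hl, hl1, hl2⟩ := Nat.Prime.not_coprime_iff_dvd.1 hnc
    apply hMc n l hl _ (Int.natCast_dvd_natCast.2 hl1)
    have h1 := Nat.le_of_dvd (Int.natAbs_pos.2 hy0) hl2
    have h2 := hp n
    omega
  have hFZ : ∀ n, (1 + Z n) * (y : ℚ) ^ (p n) = -((M n : ℚ) * (x - y)) := by
    intro n
    have h1 : ((M n : ℚ)) * ((x : ℚ) - y) = (x : ℚ) ^ (p n) - (y : ℚ) ^ (p n) := by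
      exact_mod_cast hM n
    rw [h1, hZ]
    simp only []
    rw [div_pow]
    field_simp
    ring
  have hxyq : ((x : ℚ) - y) ≠ 0 := by
    intro h
    have : x = y := by exact_mod_cast sub_eq_zero.1 h
    omega
  have hF0 : ∀ n, 1 + Z n ≠ 0 := by
    intro n h
    have h1 := hFZ n
    rw [h, zero_mul] at h1
    have h2 : (M n : ℚ) ≠ 0 := by exact_mod_cast hM0 n
    exact neg_ne_zero.2 (mul_ne_zero h2 hxyq) h1.symm
  have hQF : ∀ n, (M n : ℤ) ∣ (1 + Z n).num := by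
    intro n
    have h1 : (1 + Z n).num * y ^ (p n) = (M n : ℤ) * (-((x - y) * (1 + Z n).den)) := by
      have h2 : (1 + Z n) * (1 + Z n).den = (1 + Z n).num := Rat.mul_den_eq_num _
      have h3 : (((1 + Z n).num * y ^ (p n) : ℤ) : ℚ) =
          (((M n : ℤ) * (-((x - y) * (1 + Z n).den)) : ℤ) : ℚ) := by
        push_cast
        rw [← h2]
        linear_combination ((1 + Z n).den : ℚ) * hFZ n
      exact_mod_cast h3
    exact (hMy n).dvd_of_dvd_mul_right ⟨_, h1⟩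
  refine core b hb hbi hL Z hZsu hZB hZK hZ1 hZ2 M hM0 hQF hF0 (fun n => (hlog n).le)
    (fun n v => ?_) (fun i n => c n i) (fun i n => u n i)
    (fun i n => ?_) (fun i => ?_) (fun i => ?_) D hDF hDG hNF hδ (fun n => ?_)
  · rw [Nat.coprime_comm, (hb v).coprime_iff_not_dvd]
    intro h
    refine hMc n (b v) (hb v) ?_ (Int.natCast_dvd_natCast.2 h)
    have := hp n
    have := hble v
    omega
  · apply isSU_of b hb _ (hu0 n i) _ hbi
    intro p hp hd
    apply hbs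
    exact Finset.mem_union_left _ (Finset.mem_filter.2 ⟨hu n i p hp hd, hp⟩)
  · refine ⟨fun n => (u n i).num, fun n => ((u n i).den : ℤ), K, ?_, ?_, ?_, ?_⟩
    · refine Eventually.of_forall fun n => ?_
      have h1 := (huB n i).1
      rw [hlog, ← Real.exp_mul, mul_comm] at h1
      exact h1
    · refine Eventually.of_forall fun n => ?_
      have h1 := (huB n i).2
      rw [hlog, ← Real.exp_mul, mul_comm] at h1
      rw [Int.cast_natCast, abs_of_nonneg (Nat.cast_nonneg _)]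
      exact h1
    · refine Eventually.of_forall fun n => ?_
      simp only []
      exact_mod_cast (u n i).den_ne_zero
    · congr 1
      funext n
      exact_mod_cast (Rat.num_div_den (u n i)).symm
  · intro ε hε
    obtain ⟨N, hN⟩ := exists_nat_gt (1 / ε)
    filter_upwards [ev_of_atTop (eventually_ge_atTop N), L_nonneg hL] with n hn hn2
    have h1 := hc n i
    rw [hlog, ← Real.exp_mul] at h1
    refine h1.trans (Real.exp_le_exp.2 ?_)
    rw [mul_comm]
    apply mul_le_mul_of_nonneg_right _ hn2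
    have hN' : (N : ℝ) ≤ n := by exact_mod_cast hn
    rw [div_le_iff₀ (by positivity)]
    rw [div_lt_iff₀ hε] at hN
    nlinarith
  · have h1 := hD n
    rw [hlog, ← Real.exp_mul, mul_comm] at h1
    exact h1

end Pool.Agent.H556.FX
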