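import Mathlib
import Pool.Agent.H556.CP.Lem
import Pool.Agent.H556.FX.Seq

/-!
# Auxiliary lemmas
-/

set_option autoImplicit false

namespace Pool.Agent.H556.FX

open Filter Topology Pool.Agent.TH932.Abs Pool.Agent.TH932.Germs Pool.Agent.TH932.Chi
open Pool.Agent.TH796.AL Pool.Agent.TH551.SU Pool.Agent.Y724.Vj Pool.Agent.H556.CP

/-- the real estimates for one index -/
lemma one_index {F L ε a u α : ℝ} (hε : 0 < ε) (hF : F = Real.exp L)
    (haF : a ≤ F) (ha1 : 1 ≤ a) (hFε : 2 ≤ F ^ ε)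
    (hclose : |a - α * u| ≤ a ^ (Real.log a / Real.log F) * F ^ (-ε)) :
    a / 2 ≤ |α| * |u| ∧ |α| * |u| ≤ 2 * a ∧
      |a - α * u| ≤ a * Real.exp (-((1 - Real.log a / Real.log F) *
        (Real.log a / Real.log F) + ε) * L) := by
  have hF1 : 1 < F := by
    have h1 : 1 ≤ F := ha1.trans haF
    rcases h1.lt_or_eq with h2 | h2
    · exact h2
    · rw [← h2, Real.one_rpow] at hFε
      norm_num at hFε
  have hlF : 0 < Real.log F := Real.log_pos hF1
  have hla : 0 ≤ Real.log a := Real.log_nonneg ha1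
  have ha0 : 0 < a := by linarith
  have hlL : Real.log F = L := by rw [hF, Real.log_exp]
  set y := Real.log a / Real.log F with hy
  have hy0 : 0 ≤ y := div_nonneg hla hlF.le
  have hy1 : y ≤ 1 := by
    rw [hy, div_le_one hlF]
    exact Real.log_le_log ha0 haF
  have hya : y * Real.log F = Real.log a := by
    rw [hy]
    field_simp
  -- the bound in exponential form
  have h1 : a ^ y * F ^ (-ε) = a * Real.exp (-((1 - y) * y + ε) * Real.log F) := by
    rw [Real.rpow_def_of_pos ha0, Real.rpow_def_of_pos (by linarith : 0 < F)]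
    conv_rhs => rw [← Real.exp_log ha0]
    rw [← Real.exp_add, ← Real.exp_add]
    congr 1
    rw [← hya]
    ring
  have h3 : a * Real.exp (-((1 - y) * y + ε) * Real.log F) ≤ a / 2 := by
    have h4 : Real.exp (-((1 - y) * y + ε) * Real.log F) ≤ F ^ (-ε) := by
      rw [Real.rpow_def_of_pos (by linarith : 0 < F)]
      apply Real.exp_le_exp.2
      have : 0 ≤ (1 - y) * y := mul_nonneg (by linarith) hy0
      nlinarith
    have h5 : F ^ (-ε) ≤ 1 / 2 := by
      rw [Real.rpow_neg (by linarith), ← one_div]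
      exact one_div_le_one_div_of_le (by norm_num) hFε
    nlinarith
  rw [h1] at hclose
  have h6 := abs_le.1 (hclose.trans h3)
  have h7 : |α| * |u| = |α * u| := (abs_mul _ _).symm
  have h8 : 0 < α * u := by linarith
  rw [h7, abs_of_pos h8]
  rw [hlL] at hclose
  exact ⟨by linarith, by linarith, hclose⟩

/-- the real weight of a germ of known size -/
lemma lv_none_eq {s : ℕ} {B0 : Base s} {L : ℕ → ℝ} {hL : Tendsto L atTop atTop} {X : ℕ → ℚ}
    {g : Fin s → ℝ} (hX : IsCh B0 hL (gm X) g) (hX0 : ∀ n, X n ≠ 0) {κ : ℝ}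
    (h : ∀ δ : ℝ, 0 < δ → ∀ᶠ n in (UU : Filter ℕ), Real.exp ((κ - δ) * L n) ≤ |(X n : ℝ)| ∧
      |(X n : ℝ)| ≤ Real.exp ((κ + δ) * L n)) : lv B0 none g = -κ := by
  have hpos : ∀ᶠ n in (UU : Filter ℕ), 0 < L n := ev_of_atTop (hL.eventually_gt_atTop 0)
  have h1 := hX.mem none
  have h2 := hX.inv.mem none
  rw [lv_neg, gm_inv] at h2
  apply le_antisymm
  · refine le_of_forall_pos_le_add fun δ hδ => ?_
    obtain ⟨n, g1, g2, g3⟩ := (((mem_SS.1 h1) (δ / 2) (by positivity)).and
      ((h (δ / 2) (by positivity)).and hpos)).exists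
    have g1' : |(X n : ℝ)| ≤ Real.exp (-(lv B0 none g - δ / 2) * L n) := g1
    have g4 := Real.exp_le_exp.1 (g2.1.trans g1')
    have g5 := le_of_mul_le_mul_right g4 g3
    linarith
  · refine le_of_forall_pos_le_add fun δ hδ => ?_
    obtain ⟨n, g1, g2, g3⟩ := (((mem_SS.1 h2) (δ / 2) (by positivity)).and
      ((h (δ / 2) (by positivity)).and hpos)).exists
    have g1' : |(((X n)⁻¹ : ℚ) : ℝ)| ≤ Real.exp (-(-lv B0 none g - δ / 2) * L n) := g1
    have hXr : 0 < |(X n : ℝ)| := abs_pos.2 (by exact_mod_cast hX0 n)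
    rw [Rat.cast_inv, abs_inv, inv_le_iff_one_le_mul₀ hXr] at g1'
    have g4 : 1 ≤ Real.exp ((κ + δ / 2) * L n) * Real.exp (-(-lv B0 none g - δ / 2) * L n) := by
      refine g1'.trans ?_
      rw [mul_comm]
      exact mul_le_mul_of_nonneg_right g2.2 (Real.exp_pos _).le
    rw [← Real.exp_add, ← Real.exp_zero] at g4
    have g5 := Real.exp_le_exp.1 g4
    have g6 : 0 ≤ (κ + δ / 2 + (lv B0 none g + δ / 2)) * L n := by linarith
    have g7 : 0 ≤ κ + δ / 2 + (lv B0 none g + δ / 2) := by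
      by_contra h3
      push Not at h3
      nlinarith
    linarith

end Pool.Agent.H556.FX
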