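import Mathlib
import Pool.Agent.H556.CP.Main
import Pool.Agent.H556.FX.NearLem
import Pool.Agent.H556.FX.Expand

/-!
# Sequences of numbers `(x ^ p - y ^ p) / (x - y)`
-/

set_option autoImplicit false

namespace Pool.Agent.H556.FX

open Filter Topology Pool.Agent.TH932.Abs Pool.Agent.TH932.Germs Pool.Agent.TH932.Chi
open Pool.Agent.TH796.AL Pool.Agent.TH551.SU Pool.Agent.Y724.Vj Pool.Agent.H556.CP

/-- a sequence of prime exponents and the corresponding numbers -/
structure Fam (x y : ℤ) (p M : ℕ → ℕ) : Prop where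
  adm : Adm x y
  ge : ∀ n, n + 8 ≤ p n
  pr : ∀ n, (p n).Prime
  eq : ∀ n, (M n : ℤ) * (x - y) = x ^ (p n) - y ^ (p n)

/-- the logarithm -/
noncomputable def LL (M : ℕ → ℕ) (n : ℕ) : ℝ := Real.log (M n)

/-- the ratio -/
def bet (x y : ℤ) : ℚ := (x : ℚ) / |(y : ℚ)|

variable {x y : ℤ} {p M : ℕ → ℕ}

namespace Fam

lemma low (h : Fam x y p M) (n : ℕ) : 0 < (M n : ℤ) ∧ x ^ (p n - 3) ≤ (M n : ℤ) :=
  M_lower h.adm.one_lt h.adm.neg_lt h.adm.lt (by have := h.ge n; omega) (h.eq n)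

lemma up (h : Fam x y p M) (n : ℕ) : (M n : ℤ) ≤ 2 * x ^ (p n) :=
  M_upper h.adm.neg_lt h.adm.lt (h.eq n) (h.low n).1.le

lemma M_ge (h : Fam x y p M) (n : ℕ) : n + 5 ≤ M n := by
  have hx := h.adm.one_lt
  have h1 : (2 : ℤ) ^ (p n - 3) ≤ x ^ (p n - 3) := pow_le_pow_left₀ (by norm_num) (by omega) _
  have h2 : p n - 3 < 2 ^ (p n - 3) := Nat.lt_two_pow_self
  have h3 : ((p n - 3 : ℕ) : ℤ) < 2 ^ (p n - 3) := by exact_mod_cast h2
  have h4 := (h.low n).2
  have h5 := h.ge n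
  omega

lemma M_one (h : Fam x y p M) (n : ℕ) : (1 : ℝ) < M n := by
  have := h.M_ge n
  exact_mod_cast (by omega : 1 < M n)

lemma exp_LL (h : Fam x y p M) (n : ℕ) : Real.exp (LL M n) = M n := by
  rw [LL, Real.exp_log]
  linarith [h.M_one n]

lemma LL_nonneg (h : Fam x y p M) (n : ℕ) : 0 ≤ LL M n := Real.log_nonneg (h.M_one n).le

lemma tendsto (h : Fam x y p M) : Tendsto (LL M) atTop atTop := by
  apply Real.tendsto_log_atTop.comp
  apply tendsto_natCast_atTop_atTop.comp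
  exact tendsto_atTop_mono (fun n => (Nat.le_add_right n 5).trans (h.M_ge n)) tendsto_id

lemma p_tendsto (h : Fam x y p M) : Tendsto p atTop atTop :=
  tendsto_atTop_mono (fun n => (Nat.le_add_right n 8).trans (h.ge n)) tendsto_id

lemma x_one (h : Fam x y p M) : (1 : ℝ) < x := by exact_mod_cast h.adm.one_lt

lemma x_ne (h : Fam x y p M) : x ≠ 0 := by have := h.adm.one_lt; omega

lemma y_ne (h : Fam x y p M) : y ≠ 0 := ne_zero_of h.adm.one_lt h.adm.cop

lemma pL1 (h : Fam x y p M) (n : ℕ) : LL M n ≤ p n * Real.log x + Real.log 2 := by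
  have hx := h.x_one
  have h1 : (M n : ℝ) ≤ 2 * (x : ℝ) ^ (p n) := by exact_mod_cast h.up n
  have h2 := Real.log_le_log (by linarith [h.M_one n]) h1
  rw [Real.log_mul (by norm_num) (by positivity), Real.log_pow] at h2
  unfold LL
  linarith

lemma pL2 (h : Fam x y p M) (n : ℕ) : ((p n : ℝ) - 3) * Real.log x ≤ LL M n := by
  have hx := h.x_one
  have h1 : (x : ℝ) ^ (p n - 3) ≤ (M n : ℝ) := by exact_mod_cast (h.low n).2
  have h2 := Real.log_le_log (by positivity) h1
  rw [Real.log_pow, Nat.cast_sub (by have := h.ge n; omega)] at h2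
  exact_mod_cast h2

lemma xp_le (h : Fam x y p M) (n : ℕ) : (x : ℝ) ^ (p n) ≤ Real.exp (2 * LL M n) := by
  have hx := h.adm.one_lt
  have h1 : x ^ (p n) ≤ (M n : ℤ) ^ 2 := by
    calc x ^ (p n) ≤ x ^ ((p n - 3) * 2) :=
          pow_le_pow_right₀ (by omega) (by have := h.ge n; omega)
      _ = (x ^ (p n - 3)) ^ 2 := pow_mul _ _ _
      _ ≤ (M n : ℤ) ^ 2 := pow_le_pow_left₀ (by positivity) (h.low n).2 2
  have h2 : Real.exp (2 * LL M n) = (M n : ℝ) ^ 2 := by
    rw [← h.exp_LL, ← Real.exp_nat_mul]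
    norm_num
  rw [h2]
  exact_mod_cast h1

lemma y_lt (h : Fam x y p M) : |y| < x := by
  have h1 := h.adm.neg_lt
  have h2 := h.adm.lt
  rw [abs_lt]
  constructor <;> omega

lemma bet_one (h : Fam x y p M) : 1 < bet x y := by
  have hy : (y : ℚ) ≠ 0 := by exact_mod_cast h.y_ne
  rw [bet, one_lt_div (abs_pos.2 hy)]
  exact_mod_cast h.y_lt

lemma sgn (h : Fam x y p M) : ∃ σ : ℤ, σ * σ = 1 ∧
    ∀ n, -((x : ℚ) / y) ^ (p n) = σ * bet x y ^ (p n) := by
  rcases lt_or_gt_of_ne h.y_ne with hy | hy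
  · refine ⟨1, by norm_num, fun n => ?_⟩
    have hodd : Odd (p n) := (h.pr n).odd_of_ne_two (by have := h.ge n; omega)
    have h1 : |(y : ℚ)| = -y := abs_of_neg (by exact_mod_cast hy)
    rw [bet, h1, div_neg, hodd.neg_pow]
    push_cast
    ring
  · refine ⟨-1, by norm_num, fun n => ?_⟩
    have h1 : |(y : ℚ)| = y := abs_of_pos (by exact_mod_cast hy)
    rw [bet, h1]
    push_cast
    ring

lemma bet_su (h : Fam x y p M) {s : ℕ} {b : Fin s → ℕ} (hb : ∀ v, (b v).Prime)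
    (hxs : IsSU b (x : ℚ)) (hys : IsSU b (y : ℚ)) : IsSU b (bet x y) := by
  have hyabs : IsSU b (|(y : ℚ)|) := by
    rcases abs_choice (y : ℚ) with h | h
    · rw [h]; exact hys
    · rw [h]; exact isSU_neg hb hys
  rw [bet, div_eq_mul_inv]
  exact FG.isSU_mul hb hxs (FG.isSU_inv hyabs)

lemma bd_bet (h : Fam x y p M) (j : ℕ → ℕ) (hj : ∀ n, j n ≤ p n) :
    Bd (LL M) (gm fun n => bet x y ^ (j n)) := by
  have hx := h.x_one
  have h1 : ∀ n, (x : ℝ) ^ (j n) ≤ Real.exp (2 * LL M n) := fun n =>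
    (pow_le_pow_right₀ hx.le (hj n)).trans (h.xp_le n)
  refine ⟨fun n => x ^ (j n), fun n => |y| ^ (j n), 2, ?_, ?_, ?_, ?_⟩
  · refine Eventually.of_forall fun n => ?_
    push_cast
    rw [abs_of_pos (by positivity)]
    exact h1 n
  · refine Eventually.of_forall fun n => ?_
    push_cast
    rw [abs_pow, abs_abs]
    refine le_trans (pow_le_pow_left₀ (abs_nonneg _) ?_ _) (h1 n)
    exact_mod_cast h.y_lt.le
  · exact Eventually.of_forall fun n => pow_ne_zero _ (abs_ne_zero.2 h.y_ne)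
  · congr 1
    funext n
    rw [bet, div_pow]
    push_cast
    rfl

lemma bd_x (h : Fam x y p M) : Bd (LL M) (gm fun n => (x : ℚ) ^ (p n)) := by
  have hx := h.x_one
  refine ⟨fun n => x ^ (p n), fun _ => 1, 2, ?_, ?_, ?_, ?_⟩
  · refine Eventually.of_forall fun n => ?_
    push_cast
    rw [abs_of_pos (by positivity)]
    exact h.xp_le n
  · refine Eventually.of_forall fun n => ?_
    push_cast
    rw [abs_one]
    apply Real.one_le_exp
    have := h.LL_nonneg n
    linarith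
  · exact Eventually.of_forall fun n => one_ne_zero
  · congr 1
    funext n
    push_cast
    rw [div_one]

lemma lv_x (h : Fam x y p M) {s : ℕ} {B0 : Base s} {g : Fin s → ℝ}
    (hX : IsCh B0 h.tendsto (gm fun n => (x : ℚ) ^ (p n)) g) : lv B0 none g = -1 := by
  have hx := h.x_one
  have hxq : (x : ℚ) ≠ 0 := by exact_mod_cast h.x_ne
  have hL := h.tendsto
  apply lv_none_eq (X := fun n => (x : ℚ) ^ (p n)) hX (fun n => pow_ne_zero _ hxq)
  intro δ hδ
  have h3 : ∀ᶠ n in atTop, 3 * Real.log x ≤ δ * LL M n :=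
    (hL.const_mul_atTop hδ).eventually_ge_atTop _
  have h4 : ∀ᶠ n in atTop, Real.log 2 ≤ δ * LL M n :=
    (hL.const_mul_atTop hδ).eventually_ge_atTop _
  filter_upwards [ev_of_atTop h3, ev_of_atTop h4] with n g3 g4
  have e1 : |(((x : ℚ) ^ (p n) : ℚ) : ℝ)| = Real.exp (p n * Real.log x) := by
    push_cast
    rw [abs_of_pos (by positivity), mul_comm, Real.exp_mul, Real.exp_log (by linarith),
      Real.rpow_natCast]
  rw [e1]
  have g5 := h.pL1 n
  have g6 := h.pL2 n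
  constructor
  · apply Real.exp_le_exp.2
    linarith
  · apply Real.exp_le_exp.2
    linarith

end Fam

end Pool.Agent.H556.FX
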