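import Mathlib
import Pool.Agent.H556.FX.Setup

/-!
# Divisors of `(x ^ p - y ^ p) / (x - y)`: the algebraic case
-/

set_option autoImplicit false

namespace Pool.Agent.H556.FX

open Filter Topology Pool.Agent.TH932.Abs Pool.Agent.TH932.Germs Pool.Agent.TH932.Chi
open Pool.Agent.TH796.AL Pool.Agent.TH551.SU Pool.Agent.Y724.Vj Pool.Agent.H556.CP

/-- **the algebraic case** -/
theorem alg_false {x y : ℤ} {p M : ℕ → ℕ} (hFm : Fam x y p M) {s : ℕ} (b : Fin s → ℕ)
    (hb : ∀ v, (b v).Prime) (hbi : Function.Injective b) (hxs : IsSU b (x : ℚ))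
    (hys : IsSU b (y : ℚ)) (c d : ℕ → ℤ)
    (hc0 : ∀ n, c n ≠ 0) (hd0 : ∀ n, d n ≠ 0) (hc : Negl (LL M) c) (hd : Negl (LL M) d)
    (w : ℕ → ℚ) (hw : ∀ n, IsSU b (w n)) {K : ℝ}
    (hwn : ∀ n, |((w n).num : ℝ)| ≤ Real.exp (K * LL M n))
    (hwd : ∀ n, ((w n).den : ℝ) ≤ Real.exp (K * LL M n))
    (a a' : ℕ → ℕ) (haa : ∀ n, a n * a' n = M n) {ε : ℝ} (hε : 0 < ε)
    (ha : ∀ n, Real.exp (ε * LL M n) ≤ a n) (ha' : ∀ n, Real.exp (ε * LL M n) ≤ a' n)
    {σ : ℤ} (hσ : σ * σ = 1)
    (R : Polynomial (Polynomial ℤ)) (hR : R ≠ 0)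
    (hRz : evG (gm fun n => (σ : ℚ) * bet x y ^ (p n))
      (gm fun n => (a n : ℚ) / ((c n : ℚ) / d n * w n)) R = 0) : False := by
  classical
  have hL := hFm.tendsto
  have het := hFm.p_tendsto
  have hxR := hFm.x_one
  have hlx : 0 < Real.log x := Real.log_pos hxR
  have hβ1 := hFm.bet_one
  have hβs := hFm.bet_su hb hxs hys
  set L := LL M with hLdef
  set β : ℚ := bet x y with hβdef
  have hβ0 : 0 < β := by linarith
  have hβR : (1 : ℝ) < (β : ℝ) := by exact_mod_cast hβ1
  have hlβ : 0 < Real.log β := Real.log_pos hβR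
  have hyq : (y : ℚ) ≠ 0 := by exact_mod_cast hFm.y_ne
  set B0 := bs b hb hbi with hB0
  have hev1 : ∀ᶠ n in (UU : Filter ℕ), 1 ≤ L n := ev_of_atTop (hL.eventually_ge_atTop 1)
  have hwn0 : ∀ n, w n ≠ 0 := by
    intro n h0
    have := hw n
    rw [h0] at this
    obtain ⟨s', e', hs', he'⟩ := this
    have h1 : ((s' : ℤ) : ℚ) * ∏ v, (b v : ℚ) ^ (e' v) ≠ 0 := by
      refine mul_ne_zero ?_ (Finset.prod_ne_zero_iff.2 fun v _ =>
        zpow_ne_zero _ (by exact_mod_cast (hb v).ne_zero))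
      rcases hs' with rfl | rfl <;> norm_num
    exact h1 he'.symm
  have hwB : Bd L (gm w) := by
    refine ⟨fun n => (w n).num, fun n => ((w n).den : ℤ), K, ?_, ?_, ?_, ?_⟩
    · exact Eventually.of_forall hwn
    · refine Eventually.of_forall fun n => ?_
      simp only [Int.cast_natCast]
      rw [abs_of_nonneg (Nat.cast_nonneg _)]
      exact hwd n
    · exact Eventually.of_forall fun n => Int.natCast_ne_zero.2 (w n).den_ne_zero
    · congr 1
      funext n
      exact_mod_cast (Rat.num_div_den (w n)).symm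
  obtain ⟨gw, hgw⟩ := isCh_su b hb hbi hL hw hwB
  set u : ℕ → ℚ := fun n => (c n : ℚ) / d n * w n with hu
  have hu0 : ∀ n, u n ≠ 0 := fun n =>
    mul_ne_zero (div_ne_zero (by exact_mod_cast hc0 n) (by exact_mod_cast hd0 n)) (hwn0 n)
  have hcd : gm (fun n => (c n : ℚ) / d n) ∈ KK L hL :=
    ⟨c, d, hc, hd, Eventually.of_forall hd0, rfl⟩
  have hcd0 : gm (fun n => (c n : ℚ) / d n) ≠ 0 := by
    rw [gm_ne_zero]
    exact Eventually.of_forall fun n =>
      div_ne_zero (by exact_mod_cast hc0 n) (by exact_mod_cast hd0 n)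
  have hU : IsCh B0 hL (gm u) gw := by
    have h1 := (IsCh.const (B0 := B0) (hL := hL) hcd hcd0).mul hgw
    rw [zero_add, gm_mul] at h1
    exact h1
  set A : GG := gm fun n => ((a n : ℤ) : ℚ) with hA
  have hAint : ∀ v, A ∈ Sv B0 L (some v) 0 := fun v => int_fin B0 hL (fun n => (a n : ℤ)) v
  have hAs : Sint B0 L A := int_sint B0 hL (fun n => (a n : ℤ))
  -- the size of `u`
  have husz : ∀ᶠ n in (UU : Filter ℕ), |(u n : ℝ)| ≤ Real.exp ((K + 1) * L n) := by
    filter_upwards [hc 1 (by norm_num)] with n h1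
    rw [hu]
    push_cast
    have h2 : |((w n : ℚ) : ℝ)| ≤ Real.exp (K * L n) := by
      have h3 : |((w n : ℚ) : ℝ)| ≤ |((w n).num : ℝ)| := by
        conv_lhs => rw [← Rat.num_div_den (w n)]
        push_cast
        rw [abs_div]
        have h4 : (1 : ℝ) ≤ |((w n).den : ℝ)| := by
          rw [abs_of_nonneg (Nat.cast_nonneg _)]
          exact_mod_cast (w n).den_pos
        exact div_le_self (abs_nonneg _) h4
      exact h3.trans (hwn n)
    have h3 : |(c n : ℝ) / d n| ≤ Real.exp (1 * L n) := by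
      rw [abs_div]
      have h4 : (1 : ℝ) ≤ |(d n : ℝ)| := by
        exact_mod_cast Int.one_le_abs (hd0 n)
      exact (div_le_self (abs_nonneg _) h4).trans h1
    rw [abs_mul]
    calc _ ≤ Real.exp (1 * L n) * Real.exp (K * L n) :=
          mul_le_mul h3 h2 (abs_nonneg _) (Real.exp_pos _).le
      _ = _ := by rw [← Real.exp_add]; ring_nf
  -- the expansion
  obtain ⟨J, hJ⟩ := exists_nat_gt (2 * (|K| + 2) * Real.log x / Real.log β)
  rw [div_lt_iff₀ hlβ] at hJ
  rw [evG_gm, ← gm_zero, gm_eq] at hRz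
  obtain ⟨q, N0, k, γ, hq, hk, hγ, happ⟩ := expand' het hβ1 hσ (fun n => (a n : ℚ) / u n)
    R hR hRz J
  have hq0 : (0 : ℝ) < q := by exact_mod_cast (by omega : 0 < q)
  -- the units
  obtain ⟨gE, hEr⟩ := isCh_su b hb hbi hL (a := fun n => β ^ (p n / q))
    (fun n => isSU_pow hb hβs _) (hFm.bd_bet (fun n => p n / q) fun n => Nat.div_le_self _ _)
  set Er : GG := gm fun n => β ^ (p n / q) with hErdef
  set ui : Fin N0 → GG := fun i => gm u * Er ^ k i with hui
  have huiC : ∀ i, IsCh B0 hL (ui i) (gw + (k i : ℝ) • gE) :=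
    fun i => hU.mul (hEr.zpow (k i))
  have hEk : ∀ i, Er ^ k i = gm (fun n => β ^ (k i * ((p n / q : ℕ) : ℤ))) := by
    intro i
    have h1 : ∀ j : ℕ, Er ^ j = gm (fun n => β ^ (((j : ℕ) : ℤ) * ((p n / q : ℕ) : ℤ))) := by
      intro j
      rw [hErdef, gm_pow]
      congr 1
      funext n
      rw [← pow_mul, ← Nat.cast_mul, zpow_natCast, mul_comm]
    cases hki : k i with
    | ofNat j =>
      rw [Int.ofNat_eq_natCast, zpow_natCast, h1]
    | negSucc j =>
      rw [zpow_negSucc, h1, gm_inv]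
      congr 1
      funext n
      rw [← zpow_neg]
      congr 1
  have huie : ∀ (S : Finset (Fin N0)) (γ' : Fin N0 → ℝ), ∑ i ∈ S, algebraMap ℝ HR (γ' i) * rho (ui i) =
      gr (fun n => ∑ i ∈ S, γ' i * ((u n : ℝ) * (β : ℝ) ^ (k i * ((p n / q : ℕ) : ℤ)))) := by
    intro S γ'
    induction S using Finset.induction_on with
    | empty => simp only [Finset.sum_empty]; exact gr_zero.symm
    | insert i S hi ih =>
      rw [Finset.sum_insert hi, ih, hui]
      simp only []
      rw [hEk, gm_mul, rho_gm, cst_eq, gr_mul, gr_add]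
      congr 1
      funext n
      rw [Finset.sum_insert hi]
      push_cast
      rfl
  have hrho : rho A - ∑ i, algebraMap ℝ HR (γ i) * rho (ui i) ∈ SR L 1 := by
    rw [huie, hA, rho_gm, gr_sub, mem_SR]
    intro δ hδ
    have hev2 : ∀ᶠ n in atTop, 2 * Real.log 2 ≤ L n := hL.eventually_ge_atTop _
    filter_upwards [happ, husz, hev1, ev_of_atTop hev2] with n g1 g2 g3 g4
    have hune : ((u n : ℚ) : ℝ) ≠ 0 := by exact_mod_cast hu0 n
    have e1 : (((a n : ℤ) : ℚ) : ℝ) - ∑ i, γ i * ((u n : ℝ) * (β : ℝ) ^ (k i * ((p n / q : ℕ) : ℤ))) =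
        (u n : ℝ) * ((((a n : ℚ) / u n : ℚ) : ℝ) - ∑ i, γ i * (β : ℝ) ^ (k i * ((p n / q : ℕ) : ℤ))) := by
      rw [mul_sub, Finset.mul_sum]
      congr 1
      · push_cast
        field_simp
      · refine Finset.sum_congr rfl fun i _ => ?_
        ring
    rw [e1, abs_mul]
    have g5 : Real.exp (-J * (p n * Real.log β)) ≤ Real.exp (-(|K| + 2) * L n) := by
      apply Real.exp_le_exp.2
      have h6 := hFm.pL1 n
      have h7 : (0 : ℝ) ≤ p n := Nat.cast_nonneg _
      have h8 : (p n : ℝ) * (2 * (|K| + 2) * Real.log x) ≤ p n * (J * Real.log β) :=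
        mul_le_mul_of_nonneg_left hJ.le h7
      have h9 : L n ≤ 2 * (p n * Real.log x) := by
        have h10 : L n = LL M n := rfl
        linarith
      have h11 : 0 ≤ |K| + 2 := by positivity
      nlinarith
    have g6 := le_abs_self K
    calc |(u n : ℝ)| * |(((a n : ℚ) / u n : ℚ) : ℝ) - ∑ i, γ i * (β : ℝ) ^ (k i * ((p n / q : ℕ) : ℤ))|
        ≤ Real.exp ((K + 1) * L n) * Real.exp (-(|K| + 2) * L n) :=
          mul_le_mul g2 (g1.trans g5) (abs_nonneg _) (Real.exp_pos _).le
      _ = Real.exp (((K + 1) - (|K| + 2)) * L n) := by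
          rw [← Real.exp_add]
          congr 1
          ring
      _ ≤ _ := by
          apply Real.exp_le_exp.2
          nlinarith
  obtain ⟨N, c', hNc, hsum⟩ := comb B0 hL A hAint hAs N0 ui _ huiC γ hγ (η := 1)
    (by norm_num) hrho
  have hsume : ∀ S : Finset (Fin N0), ∑ i ∈ S, (c' i : GG) * ui i =
      gm (fun n => ∑ i ∈ S, (c' i : ℚ) * (u n * β ^ (k i * ((p n / q : ℕ) : ℤ)))) := by
    intro S
    induction S using Finset.induction_on with
    | empty => simp only [Finset.sum_empty]; exact gm_zero.symm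
    | insert i S hi ih =>
      rw [Finset.sum_insert hi, ih, hui]
      simp only []
      have h4 : (c' i : GG) = gm (fun _ => (c' i : ℚ)) := rfl
      rw [hEk, gm_mul, h4, gm_mul, gm_add]
      congr 1
      funext n
      rw [Finset.sum_insert hi]
  have hN : N ≠ 0 := by
    rintro rfl
    have hc' : c' ≠ 0 := by simpa using hNc
    apply hc'
    rw [Int.cast_zero, zero_mul, hsume, ← gm_zero, gm_eq] at hsum
    have hxt : Tendsto (fun n => (β : ℝ) ^ (p n / q)) atTop atTop :=
      (tendsto_pow_atTop_atTop_of_one_lt hβR).comp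
        ((Nat.tendsto_div_const_atTop (by omega)).comp het)
    apply pow_indep hxt k hk c'
    filter_upwards [hsum] with n g1
    have g3 : (u n : ℚ) * ∑ i, (c' i : ℚ) * β ^ (k i * ((p n / q : ℕ) : ℤ)) = 0 := by
      rw [Finset.mul_sum, g1]
      refine Finset.sum_congr rfl fun i _ => ?_
      ring
    have g4 := (mul_eq_zero.1 g3).resolve_left (hu0 n)
    have g5 := congrArg (fun r : ℚ => (r : ℝ)) g4
    simp only [Rat.cast_sum, Rat.cast_mul, Rat.cast_zpow, Rat.cast_intCast, Rat.cast_ofNat,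
      Rat.cast_zero] at g5
    rw [← g5]
    refine Finset.sum_congr rfl fun i _ => ?_
    rw [← zpow_natCast, ← zpow_mul, mul_comm (k i)]
  -- the contradiction
  rw [hsume, hA] at hsum
  have h4 : (N : GG) = gm (fun _ => (N : ℚ)) := rfl
  rw [h4, gm_mul, gm_eq] at hsum
  set S0 : Finset ℕ := Finset.univ.image b with hS0
  set Kk : ℕ := ∑ i, (k i).natAbs with hKk
  obtain ⟨ε1, hε1, e₁, hmain⟩ := main hFm.adm S0 N0 (K + 2 * Kk) ε hε
  obtain ⟨n, g1, g2, g3, g4, g5, g6⟩ := (hsum.and ((hc (ε1 / 2) (by positivity)).and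
    ((hd (ε / 2) (by positivity)).and
    ((ev_of_atTop ((hL.const_mul_atTop (by positivity : 0 < ε1 / 2)).eventually_ge_atTop
      (∑ i, |(c' i : ℝ)|))).and
    ((ev_of_atTop ((hL.const_mul_atTop (by positivity : 0 < ε / 2)).eventually_ge_atTop
      |(N : ℝ)|)).and (ev_of_atTop (het.eventually_ge_atTop e₁))))))).exists
  have hdn : (d n : ℚ) ≠ 0 := by exact_mod_cast hd0 n
  have hL0 : 0 ≤ L n := hFm.LL_nonneg n
  have hML : ∀ t : ℝ, (M n : ℝ) ^ t = Real.exp (t * L n) := by
    intro t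
    rw [← hFm.exp_LL, ← Real.exp_mul, mul_comm]
  -- the sum
  have hs1 : ∑ i, ((c' i * c n : ℤ) : ℚ) * (w n * β ^ (k i * ((p n / q : ℕ) : ℤ))) =
      ((d n * N * (a n : ℤ) : ℤ) : ℚ) := by
    have h5 : ((d n * N * (a n : ℤ) : ℤ) : ℚ) = d n * ((N : ℚ) * ((a n : ℤ) : ℚ)) := by
      push_cast
      ring
    rw [h5, g1, Finset.mul_sum]
    refine Finset.sum_congr rfl fun i _ => ?_
    rw [hu]
    simp only [Int.cast_mul]
    field_simp
  have hFK : ∀ j : ℕ, j ≤ Kk * (p n / q) → (x : ℝ) ^ j ≤ Real.exp (2 * Kk * L n) := by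
    intro j hj
    calc (x : ℝ) ^ j ≤ (x : ℝ) ^ (Kk * p n) := by
          apply pow_le_pow_right₀ hxR.le
          exact hj.trans (Nat.mul_le_mul_left _ (Nat.div_le_self _ _))
      _ = ((x : ℝ) ^ p n) ^ Kk := by rw [mul_comm, pow_mul]
      _ ≤ Real.exp (2 * LL M n) ^ Kk := pow_le_pow_left₀ (by positivity) (hFm.xp_le n) Kk
      _ = Real.exp (2 * Kk * L n) := by
          rw [← Real.exp_nat_mul]
          congr 1
          ring
  have key := hmain (p n) g6 (hFm.pr n) (M n) (hFm.eq n) (fun i => c' i * c n)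
    (fun i => w n * β ^ (k i * ((p n / q : ℕ) : ℤ)))
    (by
      intro i
      push_cast
      rw [abs_mul]
      have h5 : |(c' i : ℝ)| ≤ Real.exp (ε1 / 2 * L n) :=
        (Finset.single_le_sum (f := fun i => |(c' i : ℝ)|) (fun _ _ => abs_nonneg _)
          (Finset.mem_univ i)).trans (g4.trans
            ((Real.add_one_le_exp _).trans' (by linarith)))
      have h7 : Real.exp (ε1 / 2 * L n) * Real.exp (ε1 / 2 * L n) = Real.exp (ε1 * L n) := by
        rw [← Real.exp_add]
        congr 1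
        ring
      rw [hML, ← h7]
      exact mul_le_mul h5 g2 (abs_nonneg _) (Real.exp_pos _).le)
    (fun i => mul_ne_zero (hwn0 n) (zpow_ne_zero _ hβ0.ne'))
    (by
      intro i l hl hpd
      have h5 : IsSU b (w n * β ^ (k i * ((p n / q : ℕ) : ℤ))) := by
        refine FG.isSU_mul hb (hw n) ?_
        cases (k i * ((p n / q : ℕ) : ℤ)) with
        | ofNat j =>
          rw [Int.ofNat_eq_natCast, zpow_natCast]
          exact isSU_pow hb hβs _
        | negSucc j =>
          rw [zpow_negSucc]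
          exact FG.isSU_inv (isSU_pow hb hβs _)
      exact su_primes b hb h5 hl hpd)
    (by
      intro i
      have hki : (k i).natAbs ≤ Kk :=
        Finset.single_le_sum (f := fun i => (k i).natAbs) (fun _ _ => Nat.zero_le _)
          (Finset.mem_univ i)
      set j : ℤ := k i * ((p n / q : ℕ) : ℤ) with hj
      have hjab : j.natAbs ≤ Kk * (p n / q) := by
        rw [hj, Int.natAbs_mul, Int.natAbs_natCast]
        exact Nat.mul_le_mul_right _ hki
      have hx0 := hFm.x_ne
      have hyne : |y| ≠ 0 := abs_ne_zero.2 hFm.y_ne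
      have h2 : β ^ j = (((x ^ j.toNat * |y| ^ (-j).toNat : ℤ)) : ℚ) /
          ((|y| ^ j.toNat * x ^ (-j).toNat : ℤ) : ℚ) := by
        have h7 : β ^ j = β ^ j.toNat / β ^ (-j).toNat := by
          rw [← zpow_natCast, ← zpow_natCast, ← zpow_sub₀ hβ0.ne']
          congr 1
          omega
        have h8 : |(y : ℚ)| ≠ 0 := abs_ne_zero.2 hyq
        have hxq : (x : ℚ) ≠ 0 := by exact_mod_cast hx0
        rw [h7, hβdef, bet, div_pow, div_pow]
        push_cast
        field_simp
      have h3 := height_le ((w n).num * (x ^ j.toNat * |y| ^ (-j).toNat))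
        ((w n).den * (|y| ^ j.toNat * x ^ (-j).toNat))
        (mul_ne_zero (by exact_mod_cast (w n).den_ne_zero)
          (mul_ne_zero (pow_ne_zero _ hyne) (pow_ne_zero _ hx0)))
        (mul_ne_zero (Rat.num_ne_zero.2 (hwn0 n))
          (mul_ne_zero (pow_ne_zero _ hx0) (pow_ne_zero _ hyne))) (w n * β ^ j) (by
          rw [h2]
          conv_lhs => rw [← Rat.num_div_den (w n)]
          push_cast
          rw [div_mul_div_comm])
      have hFs : (M n : ℝ) ^ (K + 2 * (Kk : ℝ)) = Real.exp (K * L n) * Real.exp (2 * Kk * L n) := by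
        rw [hML, ← Real.exp_add]
        congr 1
        ring
      have hyR : |(y : ℝ)| ≤ x := by exact_mod_cast hFm.y_lt.le
      have hprod : ∀ i1 i2 : ℕ, i1 + i2 ≤ Kk * (p n / q) →
          (x : ℝ) ^ i1 * |(y : ℝ)| ^ i2 ≤ Real.exp (2 * Kk * L n) := by
        intro i1 i2 h12
        calc (x : ℝ) ^ i1 * |(y : ℝ)| ^ i2 ≤ (x : ℝ) ^ i1 * (x : ℝ) ^ i2 :=
              mul_le_mul_of_nonneg_left (pow_le_pow_left₀ (abs_nonneg _) hyR _) (by positivity)
          _ = (x : ℝ) ^ (i1 + i2) := (pow_add _ _ _).symm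
          _ ≤ _ := hFK _ h12
      rw [hFs]
      refine ⟨h3.1.trans ?_, h3.2.1.trans ?_⟩
      · push_cast
        rw [abs_mul, abs_of_nonneg (show (0 : ℝ) ≤ x ^ j.toNat * |(y : ℝ)| ^ (-j).toNat by
          positivity)]
        exact mul_le_mul (hwn n) (hprod _ _ (by omega)) (by positivity) (Real.exp_pos _).le
      · push_cast
        rw [abs_mul, abs_of_nonneg (show (0 : ℝ) ≤ |(y : ℝ)| ^ j.toNat * x ^ (-j).toNat by
          positivity), abs_of_nonneg (Nat.cast_nonneg _), mul_comm (|(y : ℝ)| ^ j.toNat)]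
        exact mul_le_mul (hwd n) (hprod _ _ (by omega)) (by positivity) (Real.exp_pos _).le)
    (by
      rw [hs1, Rat.num_intCast]
      intro hdv
      have h5 : (M n : ℤ) = (a n : ℤ) * (a' n : ℤ) := by
        exact_mod_cast (haa n).symm
      rw [h5, mul_comm (d n * N)] at hdv
      have han : (a n : ℤ) ≠ 0 := by
        intro h6
        have h7 : (a n : ℝ) = 0 := by exact_mod_cast h6
        have := ha n
        have := Real.exp_pos (ε * LL M n)
        linarith
      have h6 := Int.dvd_of_mul_dvd_mul_left han hdv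
      have h7 : d n * N ≠ 0 := mul_ne_zero (hd0 n) hN
      have h8 := Int.le_of_dvd (abs_pos.2 h7) ((dvd_abs _ _).2 h6)
      have h9 : (a' n : ℝ) ≤ |(d n : ℝ)| * |(N : ℝ)| := by
        rw [← abs_mul]
        have : (((a' n : ℕ) : ℤ) : ℝ) ≤ ((|d n * N| : ℤ) : ℝ) := by exact_mod_cast h8
        push_cast at this
        exact this
      have h11 : Real.exp (ε / 2 * L n) * Real.exp (ε / 2 * L n) = Real.exp (ε * L n) := by
        rw [← Real.exp_add]
        congr 1
        ring
      have h12 : |(N : ℝ)| < Real.exp (ε / 2 * L n) := by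
        have := Real.add_one_le_exp (ε / 2 * L n)
        linarith
      have h13 : |(d n : ℝ)| * |(N : ℝ)| < Real.exp (ε * L n) := by
        rw [← h11]
        calc |(d n : ℝ)| * |(N : ℝ)| ≤ Real.exp (ε / 2 * L n) * |(N : ℝ)| :=
              mul_le_mul_of_nonneg_right g3 (abs_nonneg _)
          _ < _ := mul_lt_mul_of_pos_left h12 (Real.exp_pos _)
      have h14 := ha' n
      change Real.exp (ε * L n) ≤ _ at h14
      linarith)
    (a n) (Dvd.intro _ (haa n)) (by
      rw [hs1, Rat.num_intCast]; exact Dvd.intro_left _ rfl)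
  have h5 := ha n
  rw [hML] at key
  change Real.exp (ε * L n) ≤ _ at h5
  linarith

end Pool.Agent.H556.FX
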