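import Mathlib
import Pool.Agent.H556.FX.Seq

/-!
# Pairs which are not admissible: short sums of `S`-units with a large common divisor
-/

set_option autoImplicit false

namespace Pool.Agent.H556.FX

/-- a large common divisor -/
lemma gcd_large {x y G : ℤ} {M : ℕ} {N : ℕ} (hN : N ≠ 0) (hxy : 0 < x - y) (hxy2 : x - y ≤ 2 * x)
    (hG : G ∣ (M : ℤ) * (x - y)) (h : (2 * x) ^ N * (M : ℤ) ≤ |G| ^ N) :
    (M : ℝ) ^ (1 / (N : ℝ)) ≤ (Int.gcd M G : ℝ) := by
  set d : ℕ := Int.gcd M G with hd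
  have h1 : G ∣ (d : ℤ) * (x - y) := by
    have h2 : ((d : ℕ) : ℤ) = gcd (M : ℤ) G := by rw [hd]; rfl
    rw [h2, gcd_comm]
    have h3 : gcd (G * (x - y)) ((M : ℤ) * (x - y)) = gcd G (M : ℤ) * normalize (x - y) :=
      gcd_mul_right _ _ _
    have h4 : G ∣ gcd (G * (x - y)) ((M : ℤ) * (x - y)) := dvd_gcd (Dvd.intro _ rfl) hG
    rw [h3] at h4
    have h5 : normalize (x - y) = x - y := Int.normalize_of_nonneg hxy.le
    rwa [h5] at h4
  have hx : 0 < x := by omega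
  by_cases hd0 : d = 0
  · have hM0 : M = 0 := by
      have := Int.gcd_eq_zero_iff.1 (hd ▸ hd0)
      exact_mod_cast this.1
    rw [hM0, hd0]
    push_cast
    rw [Real.zero_rpow (one_div_ne_zero (by exact_mod_cast hN))]
  have hdpos : 0 < (d : ℤ) := by exact_mod_cast Nat.pos_of_ne_zero hd0
  have h2 : |G| ≤ (d : ℤ) * (x - y) := by
    have := Int.le_of_dvd (mul_pos hdpos hxy) h1
    have h3 := Int.le_of_dvd (mul_pos hdpos hxy) ((neg_dvd.2 h1))
    exact abs_le.2 ⟨by linarith, this⟩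
  have h3 : |G| ≤ (2 * x) * d := by nlinarith
  have h4 : (2 * x) ^ N * (M : ℤ) ≤ (2 * x) ^ N * (d : ℤ) ^ N := by
    rw [← mul_pow]
    exact h.trans (pow_le_pow_left₀ (abs_nonneg _) h3 N)
  have h5 : (M : ℤ) ≤ (d : ℤ) ^ N := le_of_mul_le_mul_left h4 (by positivity)
  have h6 : (M : ℝ) ≤ (d : ℝ) ^ N := by exact_mod_cast h5
  calc (M : ℝ) ^ (1 / (N : ℝ)) ≤ ((d : ℝ) ^ N) ^ (1 / (N : ℝ)) :=
        Real.rpow_le_rpow (Nat.cast_nonneg _) h6 (by positivity)
    _ = d := by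
        rw [one_div]
        exact Real.pow_rpow_inv_natCast (Nat.cast_nonneg _) hN

lemma le_of_dvd_pow {l : ℕ} (hl : l.Prime) {c : ℤ} (hc : c ≠ 0) {k : ℕ}
    (h : l ∣ (c ^ k).natAbs) : l ≤ c.natAbs := by
  rw [Int.natAbs_pow] at h
  exact Nat.le_of_dvd (Int.natAbs_pos.2 hc) (hl.dvd_of_dvd_pow h)

/-- **failure for the other pairs** -/
theorem conv {x y : ℤ} (hx : 1 < x) (h1 : -x < y) (h2 : y < x) (hxy : IsCoprime x y)
    (hna : ¬ Adm x y) :
    ∃ (S : Finset ℕ) (r : ℕ) (δ : ℝ), 0 < δ ∧ ∃ p₀ : ℕ, ∀ p ≥ p₀, p.Prime → ∀ M : ℕ,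
      (M : ℤ) * (x - y) = x ^ p - y ^ p → ∃ (c : Fin r → ℤ) (u : Fin r → ℚ),
      (∀ i, |(c i : ℝ)| ≤ 1) ∧ (∀ i, u i ≠ 0) ∧
      (∀ i, ∀ l : ℕ, l.Prime → (l ∣ (u i).num.natAbs ∨ l ∣ (u i).den) → l ∈ S) ∧
      (∀ i, |((u i).num : ℝ)| ≤ (M : ℝ) ^ (2 : ℝ) ∧ ((u i).den : ℝ) ≤ (M : ℝ) ^ (2 : ℝ)) ∧
      ¬ (M : ℤ) ∣ (∑ i, (c i : ℚ) * u i).num ∧
      (M : ℝ) ^ δ ≤ (Int.gcd M (∑ i, (c i : ℚ) * u i).num : ℝ) := by
  have hxy0 : 0 < x - y := by omega
  have hxy2 : x - y ≤ 2 * x := by omega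
  have hy0 : y ≠ 0 := ne_zero_of hx hxy
  -- the final step
  have key : ∀ (p : ℕ), 6 ≤ p → ∀ M : ℕ, (M : ℤ) * (x - y) = x ^ p - y ^ p → ∀ (T N : ℕ), N ≠ 0 →
      ∀ (r : ℕ) (c : Fin r → ℤ) (u : Fin r → ℤ), (∀ i, |c i| ≤ 1) → (∀ i, u i ≠ 0) →
      (∀ i, ∀ l : ℕ, l.Prime → l ∣ (u i).natAbs → l < T) → (∀ i, |u i| ≤ x ^ p) →
      (∑ i, c i * u i) ∣ (M : ℤ) * (x - y) → |∑ i, c i * u i| < x ^ (p - 3) →
      (2 * x) ^ N * (M : ℤ) ≤ |∑ i, c i * u i| ^ N → ∃ (c : Fin r → ℤ) (u : Fin r → ℚ),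
      (∀ i, |(c i : ℝ)| ≤ 1) ∧ (∀ i, u i ≠ 0) ∧
      (∀ i, ∀ l : ℕ, l.Prime → (l ∣ (u i).num.natAbs ∨ l ∣ (u i).den) → l ∈ Finset.range T) ∧
      (∀ i, |((u i).num : ℝ)| ≤ (M : ℝ) ^ (2 : ℝ) ∧ ((u i).den : ℝ) ≤ (M : ℝ) ^ (2 : ℝ)) ∧
      ¬ (M : ℤ) ∣ (∑ i, (c i : ℚ) * u i).num ∧
      (M : ℝ) ^ (1 / (N : ℝ)) ≤ (Int.gcd M (∑ i, (c i : ℚ) * u i).num : ℝ) := by
    intro p hp M hM T N hN r c u hc hu0 huT hux hdvd hlt hbig
    obtain ⟨hMpos, hMlow⟩ := M_lower hx h1 h2 (by omega) hM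
    have hsum : ∑ i, (c i : ℚ) * ((u i : ℤ) : ℚ) = ((∑ i, c i * u i : ℤ) : ℚ) := by
      push_cast
      rfl
    have hM2 : x ^ p ≤ (M : ℤ) ^ 2 := by
      calc x ^ p ≤ x ^ ((p - 3) * 2) := pow_le_pow_right₀ (by omega) (by omega)
        _ = (x ^ (p - 3)) ^ 2 := pow_mul _ _ _
        _ ≤ (M : ℤ) ^ 2 := pow_le_pow_left₀ (by positivity) hMlow 2
    refine ⟨c, fun i => ((u i : ℤ) : ℚ), fun i => by exact_mod_cast hc i, fun i =>
      Int.cast_ne_zero.2 (hu0 i), fun i l hl hd => ?_, fun i => ?_, ?_, ?_⟩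
    · rw [Rat.num_intCast, Rat.den_intCast] at hd
      rw [Finset.mem_range]
      rcases hd with hd | hd
      · exact huT i l hl hd
      · exact absurd (Nat.dvd_one.1 hd) hl.one_lt.ne'
    · rw [Rat.num_intCast, Rat.den_intCast]
      have h3 : (M : ℝ) ^ (2 : ℝ) = (M : ℝ) ^ 2 := by
        rw [← Real.rpow_natCast]
        norm_num
      rw [h3]
      constructor
      · exact_mod_cast (hux i).trans hM2
      · push_cast
        have : (1 : ℝ) ≤ M := by exact_mod_cast hMpos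
        nlinarith
    · rw [hsum, Rat.num_intCast]
      intro h4
      by_cases h5 : ∑ i, c i * u i = 0
      · rw [h5, abs_zero, zero_pow hN] at hbig
        have : 0 < (2 * x) ^ N * (M : ℤ) := by positivity
        omega
      · have h6 := Int.le_of_dvd (abs_pos.2 h5) ((dvd_abs _ _).2 h4)
        omega
    · rw [hsum, Rat.num_intCast]
      exact gcd_large hN hxy0 hxy2 hdvd hbig
  by_cases hpw : ∀ r : ℕ, 1 < r → ¬ ((∃ c : ℤ, x = c ^ r) ∧ ∃ d : ℤ, y = d ^ r)
  · -- the Aurifeuillian case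
    have h4 : ∃ c : ℤ, -4 * x * y = c ^ 4 := by
      by_contra h5
      exact hna ⟨hx, h1, h2, hxy, hpw, h5⟩
    obtain ⟨c, hc⟩ := h4
    obtain ⟨s, t, hs, ht, hxs, hyt⟩ := sq_split (by omega) hy0 hxy ⟨c ^ 2, by rw [hc]; ring⟩
    have hst : 2 * s * t = c ^ 2 := by
      have h5 : (2 * s * t) ^ 2 = (c ^ 2) ^ 2 := by
        rw [← pow_mul, ← hc, hxs, hyt]
        ring
      exact (sq_eq_sq₀ (by positivity) (by positivity)).1 h5
    have hce : Even c := by
      by_contra h5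
      rw [Int.not_even_iff_odd] at h5
      have h6 : Odd (c ^ 2) := h5.pow
      rw [← hst] at h6
      exact (Int.not_even_iff_odd.2 h6) ⟨s * t, by ring⟩
    obtain ⟨g', hg'⟩ := hce
    obtain ⟨g, hg0, hg⟩ : ∃ g : ℤ, 0 < g ∧ s * t = 2 * g ^ 2 := by
      refine ⟨|g'|, abs_pos.2 ?_, ?_⟩
      · rintro rfl
        rw [hg'] at hst
        have : 0 < s * t := mul_pos hs ht
        nlinarith
      · rw [sq_abs]
        rw [hg'] at hst
        nlinarith
    have hts : t < s := by nlinarith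
    have hs1 : 1 < s := by nlinarith
    refine ⟨Finset.range (s.natAbs + t.natAbs + g.natAbs + 3), 3, 1 / ((4 : ℕ) : ℝ), by norm_num, 20,
      fun p hp hpp M hM => ?_⟩
    have hodd : Odd p := hpp.odd_of_ne_two (by omega)
    obtain ⟨j, hj⟩ := hodd
    have hxp : x ^ p = (s ^ p) ^ 2 := by rw [hxs, ← pow_mul, ← pow_mul, mul_comm]
    have hsp : 0 < s ^ p := by positivity
    have htp : 0 < t ^ p := by positivity
    have htsp : t ^ p ≤ s ^ p := pow_le_pow_left₀ ht.le hts.le p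
    have hgg : (2 ^ (j + 1) * g ^ p) ^ 2 = 2 * (s ^ p * t ^ p) := by
      rw [← mul_pow s t, hg, mul_pow 2 (g ^ 2) p, ← pow_mul g 2 p, mul_pow, ← pow_mul, ← pow_mul,
        mul_comm p 2]
      have : (2 : ℤ) ^ ((j + 1) * 2) = 2 * 2 ^ p := by
        rw [← pow_succ', hj]
        congr 1
        ring
      rw [this]
      ring
    have hgp : 0 < 2 ^ (j + 1) * g ^ p := by positivity
    have hgle : 2 ^ (j + 1) * g ^ p ≤ 2 * s ^ p := by
      apply le_of_sq_le_sq _ (by positivity)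
      rw [hgg]
      nlinarith
    set A : ℤ := s ^ p with hAdef
    set B : ℤ := t ^ p with hBdef
    set C : ℤ := 2 ^ (j + 1) * g ^ p with hCdef
    have hsum : ∑ i, (![1, 1, 1] : Fin 3 → ℤ) i * (![A, B, C] : Fin 3 → ℤ) i = A + B + C := by
      simp [Fin.sum_univ_three]
    have hA2 : 4 ≤ A := by
      calc (4 : ℤ) = 2 ^ 2 := by norm_num
        _ ≤ s ^ 2 := pow_le_pow_left₀ (by norm_num) (by omega) 2
        _ ≤ s ^ p := pow_le_pow_right₀ (by omega) (by omega)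
    refine key p (by omega) M hM _ 4 (by norm_num) 3 ![1, 1, 1] ![A, B, C] ?_ ?_ ?_ ?_ ?_ ?_ ?_
    · intro i
      fin_cases i <;> simp
    · intro i
      fin_cases i
      · exact hsp.ne'
      · exact htp.ne'
      · exact hgp.ne'
    · intro i l hl hd
      fin_cases i
      · have := le_of_dvd_pow hl hs.ne' hd
        omega
      · have := le_of_dvd_pow hl ht.ne' hd
        omega
      · have h5 : l ∣ ((2 : ℤ) ^ (j + 1) * g ^ p).natAbs := hd
        rw [Int.natAbs_mul] at h5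
        rcases hl.dvd_mul.1 h5 with h6 | h6
        · have h7 := le_of_dvd_pow hl (by norm_num : (2 : ℤ) ≠ 0) h6
          have : (2 : ℤ).natAbs = 2 := rfl
          omega
        · have := le_of_dvd_pow hl hg0.ne' h6
          omega
    · intro i
      rw [hxp]
      fin_cases i
      · simp only [Fin.zero_eta, Matrix.cons_val_zero]
        rw [abs_of_pos hsp]
        nlinarith
      · simp only [Fin.mk_one, Matrix.cons_val_one, Matrix.cons_val_zero]
        rw [abs_of_pos htp]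
        nlinarith
      · change |C| ≤ A ^ 2
        rw [abs_of_pos hgp]
        nlinarith
    · rw [hsum, hM, hxp, hyt]
      refine ⟨A + B - C, ?_⟩
      have h5 : (-t ^ 2) ^ p = -(B ^ 2) := by
        rw [Odd.neg_pow ⟨j, hj⟩, hBdef, ← pow_mul, ← pow_mul, mul_comm]
      rw [h5]
      linear_combination hgg
    · rw [hsum, abs_of_pos (by positivity)]
      have h5 : x ^ (p - 3) = A * s ^ (p - 6) := by
        rw [hxs, ← pow_mul, hAdef, ← pow_add]
        congr 1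
        omega
      have h6 : (8 : ℤ) ≤ s ^ (p - 6) := by
        calc (8 : ℤ) = 2 ^ 3 := by norm_num
          _ ≤ s ^ 3 := pow_le_pow_left₀ (by norm_num) (by omega) 3
          _ ≤ _ := pow_le_pow_right₀ (by omega) (by omega)
      rw [h5]
      nlinarith
    · rw [hsum, abs_of_pos (by positivity)]
      have h5 := M_upper h1 h2 hM (Nat.cast_nonneg _)
      have h6 : (2 * x) ^ 4 * (2 * x ^ p) ≤ x ^ (p + 9) := by
        calc (2 * x) ^ 4 * (2 * x ^ p) = 2 ^ 5 * x ^ (4 + p) := by ring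
          _ ≤ x ^ 5 * x ^ (4 + p) :=
              mul_le_mul_of_nonneg_right (pow_le_pow_left₀ (by norm_num) (by omega) 5)
                (by positivity)
          _ = x ^ (p + 9) := by rw [← pow_add]; congr 1; omega
      have h7 : x ^ (p + 9) ≤ x ^ (p + p) := pow_le_pow_right₀ (by omega) (by omega)
      have h8 : x ^ (p + p) = A ^ 4 := by
        rw [pow_add, hxp]
        ring
      calc (2 * x) ^ 4 * (M : ℤ) ≤ (2 * x) ^ 4 * (2 * x ^ p) :=
            mul_le_mul_of_nonneg_left h5 (by positivity)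
        _ ≤ A ^ 4 := by rw [← h8]; exact h6.trans h7
        _ ≤ (A + B + C) ^ 4 := pow_le_pow_left₀ hsp.le (by linarith) 4
  · -- powers
    push Not at hpw
    obtain ⟨r, hr, ⟨c, hc⟩, d, hd⟩ := hpw
    have hr0 : r ≠ 0 := by omega
    have hc0 : c ≠ 0 := by
      rintro rfl
      rw [zero_pow hr0] at hc
      omega
    have hd0 : d ≠ 0 := by
      rintro rfl
      rw [zero_pow hr0] at hd
      exact hy0 hd
    have hcx : |c| ^ r = x := by
      rw [← abs_pow, ← hc, abs_of_pos (by omega)]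
    have hdy : |d| ^ r = |y| := by rw [← abs_pow, ← hd]
    have hdc : |d| < |c| := by
      apply lt_of_pow_lt_pow_left₀ r (abs_nonneg _)
      rw [hcx, hdy, abs_lt]
      exact ⟨by omega, h2⟩
    have hd1 : 1 ≤ |d| := Int.one_le_abs hd0
    have hc2 : 2 ≤ |c| := by omega
    refine ⟨Finset.range (c.natAbs + d.natAbs + 3), 2, 1 / ((2 * r : ℕ) : ℝ), by positivity,
      4 * r + 20, fun p hp hpp M hM => ?_⟩
    set A : ℤ := c ^ p with hAdef
    set B : ℤ := d ^ p with hBdef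
    have hsum : ∑ i, (![1, -1] : Fin 2 → ℤ) i * (![A, B] : Fin 2 → ℤ) i = A - B := by
      simp [Fin.sum_univ_two, sub_eq_add_neg]
    have hAabs : |A| = |c| * |c| ^ (p - 1) := by
      rw [hAdef, abs_pow, ← pow_succ', Nat.sub_add_cancel (by omega)]
    have hBabs : |B| ≤ (|c| - 1) * |c| ^ (p - 1) := by
      rw [hBdef, abs_pow]
      calc |d| ^ p = |d| * |d| ^ (p - 1) := by rw [← pow_succ', Nat.sub_add_cancel (by omega)]
        _ ≤ (|c| - 1) * |c| ^ (p - 1) :=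
            mul_le_mul (by omega) (pow_le_pow_left₀ (abs_nonneg _) hdc.le _) (by positivity)
              (by omega)
    have hlow : |c| ^ (p - 1) ≤ |A - B| := by
      have := abs_sub_abs_le_abs_sub A B
      nlinarith
    have hBA : |B| ≤ |A| := by
      rw [hBdef, hAdef, abs_pow, abs_pow]
      exact pow_le_pow_left₀ (abs_nonneg _) hdc.le _
    have hupp : |A - B| ≤ 2 * |c| ^ p := by
      have h5 := abs_sub A B
      have h6 : |A| = |c| ^ p := by rw [hAdef, abs_pow]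
      linarith
    have hcxp : |c| ^ p ≤ x ^ p := by
      apply pow_le_pow_left₀ (abs_nonneg _)
      rw [← hcx]
      exact le_self_pow₀ (by omega) hr0
    refine key p (by omega) M hM _ (2 * r) (by omega) 2 ![1, -1] ![A, B] ?_ ?_ ?_ ?_ ?_ ?_ ?_
    · intro i
      fin_cases i <;> simp
    · intro i
      fin_cases i
      · exact pow_ne_zero _ hc0
      · exact pow_ne_zero _ hd0
    · intro i l hl hdv
      fin_cases i
      · have := le_of_dvd_pow hl hc0 hdv
        omega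
      · have := le_of_dvd_pow hl hd0 hdv
        omega
    · intro i
      fin_cases i
      · change |A| ≤ _
        rw [hAdef, abs_pow]
        exact hcxp
      · change |B| ≤ _
        refine hBA.trans ?_
        rw [hAdef, abs_pow]
        exact hcxp
    · rw [hsum, hM]
      have h5 : x ^ p - y ^ p = A ^ r - B ^ r := by
        rw [hc, hd, hAdef, hBdef, ← pow_mul, ← pow_mul, ← pow_mul, ← pow_mul, mul_comm r p]
      rw [h5]
      exact sub_dvd_pow_sub_pow A B r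
    · rw [hsum]
      have h5 : x ^ (p - 3) ≥ |c| ^ (p + 2) := by
        rw [← hcx, ← pow_mul]
        apply pow_le_pow_right₀ (by omega)
        calc p + 2 ≤ 2 * (p - 3) := by omega
          _ ≤ r * (p - 3) := Nat.mul_le_mul_right _ (by omega)
      have h6 : |c| ^ (p + 2) = |c| ^ p * |c| ^ 2 := pow_add _ _ _
      have h7 : 0 < |c| ^ p := by positivity
      have h8 : 4 ≤ |c| ^ 2 := by nlinarith
      nlinarith
    · rw [hsum]
      have h5 := M_upper h1 h2 hM (Nat.cast_nonneg _)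
      have h6 : (2 * x) ^ (2 * r) * (2 * x ^ p) ≤ x ^ (4 * r + 1 + p) := by
        have h7 : (2 : ℤ) ^ (2 * r + 1) ≤ x ^ (2 * r + 1) := pow_le_pow_left₀ (by norm_num) (by omega) _
        calc (2 * x) ^ (2 * r) * (2 * x ^ p) = 2 ^ (2 * r + 1) * x ^ (2 * r + p) := by
              rw [mul_pow, pow_succ, pow_add x (2 * r) p]
              ring
          _ ≤ x ^ (2 * r + 1) * x ^ (2 * r + p) := mul_le_mul_of_nonneg_right h7 (by positivity)
          _ = x ^ (4 * r + 1 + p) := by rw [← pow_add]; congr 1; omega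
      have h7 : x ^ (4 * r + 1 + p) ≤ x ^ (2 * (p - 1)) := pow_le_pow_right₀ (by omega) (by omega)
      have h8 : x ^ (2 * (p - 1)) = (|c| ^ (p - 1)) ^ (2 * r) := by
        rw [← hcx, ← pow_mul, ← pow_mul]
        congr 1
        ring
      calc (2 * x) ^ (2 * r) * (M : ℤ) ≤ (2 * x) ^ (2 * r) * (2 * x ^ p) :=
            mul_le_mul_of_nonneg_left h5 (by positivity)
        _ ≤ (|c| ^ (p - 1)) ^ (2 * r) := by rw [← h8]; exact h6.trans h7
        _ ≤ |A - B| ^ (2 * r) := pow_le_pow_left₀ (by positivity) hlow _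

end Pool.Agent.H556.FX
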