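import Mathlib
import Pool.Agent.H556.CP.Trans

/-!
# Approximation at one place on the surface `T z z' = T + 1`, transcendental case, general `T`
-/

set_option autoImplicit false

namespace Pool.Agent.H556.FX

open Filter Topology Pool.Agent.TH932.Abs Pool.Agent.TH932.Germs Pool.Agent.TH932.Chi
open Pool.Agent.TH796.AL Pool.Agent.H556.CP

/-- **the transcendental case** -/
theorem trans {s : ℕ} (B0 : Base s) {L : ℕ → ℝ} (hL : Tendsto L atTop atTop) {T z z' : GG}
    (h : T * z * z' = T + 1) (τ μ ν : Fin s → ℝ) {t : ℝ}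
    (hτ : ∑ v, τ v = t) (hμ : ∑ v, μ v = 1)
    (hT : ∀ v, T ∈ Sv B0 L (some v) (τ v)) (hz : ∀ v, z ∈ Sv B0 L (some v) (-ν v))
    (hz' : ∀ v, z' ∈ Sv B0 L (some v) (ν v - μ v)) (hTi : rho T ∈ SR L (-t))
    (hzi : rho z ∈ SR L 0) (hzi' : rho z' ∈ SR L 0) (hTs : Sint B0 L T) (hzs : Sint B0 L z)
    (hzs' : Sint B0 L z') {y : ℝ} (hy : ∑ v, ν v = y) (hy0 : 0 ≤ y) (hy1 : y ≤ 1) {α : ℝ}
    (hα : IsAlgebraic ℚ α) (hα0 : α ≠ 0) {κ : ℝ} (hκ : y * (1 - y) < κ)
    (hclose : rho z - algebraMap ℝ HR α ∈ SR L κ)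
    (hno : ∀ R : Polynomial (Polynomial ℤ), R ≠ 0 → evG T z R ≠ 0) : False := by
  classical
  -- the number field
  set F : IntermediateField ℚ ℝ := IntermediateField.adjoin ℚ {α} with hF
  have hfin : FiniteDimensional ℚ F := IntermediateField.adjoin.finiteDimensional hα.isIntegral
  have hαF : α ∈ F := IntermediateField.mem_adjoin_simple_self ℚ α
  set α' : F := ⟨α, hαF⟩ with hα'
  have hα'0 : α' ≠ 0 := fun h0 => hα0 (congrArg Subtype.val h0)
  have hone : (1 : HR) ∈ SR L 0 := by
    have := SR_cst hL (1 : ℝ)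
    rwa [map_one] at this
  have hpow : ∀ {x : HR} {w : ℝ}, x ∈ SR L w → ∀ k : ℕ, x ^ k ∈ SR L (w * k) := by
    intro x w hx k
    induction k with
    | zero => rw [pow_zero, Nat.cast_zero, mul_zero]; exact hone
    | succ k ih =>
      rw [pow_succ]
      push_cast
      rw [mul_add, mul_one]
      exact SR_mul hL ih hx
  have hpowS : ∀ {x : GG}, Sint B0 L x → ∀ k : ℕ, Sint B0 L (x ^ k) := by
    intro x hx k
    induction k with
    | zero => rw [pow_zero]; exact Sint.alg hL 1
    | succ k ih => rw [pow_succ]; exact Sint.mul hL ih hx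
  have hhr : rho T * rho z * rho z' = rho T + 1 := by
    rw [← map_mul, ← map_mul, h, map_add, map_one]
  -- the parameters
  obtain ⟨a, B, hab⟩ := exists_ab hy0 hy1 hκ
  obtain ⟨M, haM, hM⟩ := exists_M hab a
  set ι := Fin (M + 1) × Fin (a + B + 1) with hι
  set E : ι ≃ Fin (Fintype.card ι) := Fintype.equivFin ι with hE
  set xx : ι → GG := fun x => T ^ (x.1 : ℕ) * yy a z z' x.2 with hxx
  set gx : ι → HR := fun x => gg a B (rho T) (rho z) (rho z') α' x.1 x.2 with hgx
  have hindZ := indep h hno a B M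
  have hindF : LinearIndependent F (fun x : ι => rho (xx x)) := RT.indep_rho F xx hindZ
  have hmap : ∀ x : ι, rho (xx x) = rho T ^ (x.1 : ℕ) * yy a (rho z) (rho z') x.2 := by
    intro x
    rw [hxx]
    simp only []
    rw [map_mul, map_pow]
    unfold yy
    split_ifs
    · rw [map_pow]
    · rw [map_pow]
  have hspan1 : ∀ x : ι, gx x ∈ Submodule.span F (Set.range fun x : ι => rho (xx x)) := by
    intro x
    have h1 := gg_mem hhr α' (a := a) (B := B) (ω := x.1) (k := x.2) x.2.2
    refine Submodule.span_mono ?_ h1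
    rintro _ ⟨w, j, hj, h2, rfl⟩
    have hw : w < M + 1 := by have := x.1.2; omega
    exact ⟨(⟨w, hw⟩, ⟨j, hj⟩), hmap _⟩
  have hspan2 : ∀ x : ι, rho (xx x) ∈ Submodule.span F (Set.range gx) := by
    intro x
    rw [hmap]
    have h1 := span_le hhr hα'0 M x.1 (by have := x.1.2; omega) x.2 x.2.2
    refine Submodule.span_mono ?_ h1
    rintro _ ⟨w, k, hw, hk, rfl⟩
    exact ⟨(⟨w, by omega⟩, ⟨k, hk⟩), rfl⟩
  have hspan : Submodule.span F (Set.range gx) =
      Submodule.span F (Set.range fun x : ι => rho (xx x)) := by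
    apply le_antisymm
    · rw [Submodule.span_le]
      rintro _ ⟨x, rfl⟩
      exact hspan1 x
    · rw [Submodule.span_le]
      rintro _ ⟨x, rfl⟩
      exact hspan2 x
  have hindg : LinearIndependent F gx := by
    rw [linearIndependent_iff_card_eq_finrank_span] at hindF ⊢
    rw [hindF]
    unfold Set.finrank
    rw [hspan]
  have key := fixa_thm s B0 L hL F hfin (Fintype.card ι)
    (fun i => xx (E.symm i)) (fun i => gx (E.symm i))
    (fun v i => ((E.symm i).1 : ℕ) * τ v + if a ≤ ((E.symm i).2 : ℕ) then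
      -((((E.symm i).2 : ℕ) - a : ℕ) : ℝ) * ν v else
      ((a - ((E.symm i).2 : ℕ) : ℕ) : ℝ) * (ν v - μ v))
    (fun i => -(((E.symm i).1 : ℕ) : ℝ) * t + if ((E.symm i).1 : ℕ) < a then 0 else
      κ * ((E.symm i).2 : ℕ))
    (by
      intro f hf i
      have h1 := hindZ (fun x => f (E x)) (by
        rw [← E.symm.sum_comp]
        simpa using hf) (E.symm i)
      simpa using h1)
    (hindg.comp E.symm E.symm.injective)
    (by
      intro i
      refine Submodule.span_mono ?_ (hspan1 (E.symm i))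
      rintro _ ⟨x, rfl⟩
      refine ⟨E x, ?_⟩
      simp only [Equiv.symm_apply_apply])
    (by
      intro v i
      have hF2 := filt_v (B := B0) hL (some v)
      obtain ⟨ω, j⟩ := E.symm i
      rw [hxx]
      simp only []
      have h1 : T ^ (ω : ℕ) ∈ Sv B0 L (some v) ((ω : ℕ) * τ v) := by
        rw [mul_comm]
        exact hF2.pow_mem (hT v) _
      refine hF2.mul_mem h1 ?_
      unfold yy
      split_ifs with hj
      · have h2 := hF2.pow_mem (hz v) ((j : ℕ) - a)
        have h3 : -ν v * (((j : ℕ) - a : ℕ) : ℝ) = -(((j : ℕ) - a : ℕ) : ℝ) * ν v := by ring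
        rw [h3] at h2
        exact h2
      · rw [mul_comm]
        exact hF2.pow_mem (hz' v) _)
    (by
      intro i
      obtain ⟨ω, k⟩ := E.symm i
      rw [hgx]
      simp only []
      unfold gg
      have h1 : rho T ^ (ω : ℕ) ∈ SR L (-((ω : ℕ) : ℝ) * t) := by
        have h0 := hpow hTi (ω : ℕ)
        have h01 : -t * ((ω : ℕ) : ℝ) = -((ω : ℕ) : ℝ) * t := by ring
        rwa [h01] at h0
      split_ifs with hω
      · refine SR_mul hL h1 ?_
        unfold yy
        split_ifs
        · have := hpow hzi ((k : ℕ) - a)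
          rwa [zero_mul] at this
        · have := hpow hzi' (a - (k : ℕ))
          rwa [zero_mul] at this
      · have h2 : rho z' ^ ((k : ℕ) - B) ∈ SR L 0 := by
          have := hpow hzi' ((k : ℕ) - B)
          rwa [zero_mul] at this
        have h3 := SR_mul hL (SR_mul hL h1 h2) (hpow hclose (k : ℕ))
        rw [add_zero] at h3
        exact h3)
    (by
      intro i
      rw [hxx]
      refine Sint.mul hL (hpowS hTs _) ?_
      unfold yy
      split_ifs
      · exact hpowS hzs _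
      · exact hpowS hzs' _)
  -- the sums
  rw [Finset.sum_comm, ← Finset.sum_add_distrib] at key
  have h1 : ∀ i : Fin (Fintype.card ι),
      (∑ v, (((E.symm i).1 : ℕ) * τ v + if a ≤ ((E.symm i).2 : ℕ) then
        -((((E.symm i).2 : ℕ) - a : ℕ) : ℝ) * ν v else
        ((a - ((E.symm i).2 : ℕ) : ℕ) : ℝ) * (ν v - μ v))) +
        (-(((E.symm i).1 : ℕ) : ℝ) * t + if ((E.symm i).1 : ℕ) < a then 0 else
          κ * ((E.symm i).2 : ℕ)) =
      (fun x : ι => dd a y x.2 + if (x.1 : ℕ) < a then 0 else κ * (x.2 : ℕ)) (E.symm i) := by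
    intro i
    obtain ⟨ω, j⟩ := E.symm i
    simp only []
    rw [Finset.sum_add_distrib, ← Finset.mul_sum, hτ]
    unfold dd
    split_ifs with hj hω hω
    · rw [← Finset.mul_sum, hy]; ring
    · rw [← Finset.mul_sum, hy]; ring
    · rw [← Finset.mul_sum, Finset.sum_sub_distrib, hy, hμ]; ring
    · rw [← Finset.mul_sum, Finset.sum_sub_distrib, hy, hμ]; ring
  rw [Finset.sum_congr rfl fun i _ => h1 i, E.symm.sum_comp (fun x : ι => dd a y x.2 +
    if (x.1 : ℕ) < a then 0 else κ * (x.2 : ℕ)), Finset.sum_add_distrib,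
    Fintype.sum_prod_type, Fintype.sum_prod_type] at key
  have h2 : ∑ ω : Fin (M + 1), ∑ j : Fin (a + B + 1), dd a y ((ω, j) : ι).2 =
      ((M : ℝ) + 1) * -((1 - y) * (a * (a + 1) / 2) + y * (B * (B + 1) / 2)) := by
    simp only []
    rw [Finset.sum_const, Finset.card_univ, Fintype.card_fin, nsmul_eq_mul,
      Fin.sum_univ_eq_sum_range (fun j => dd a y j), sum_dd]
    push_cast
    ring
  have h3 : ∑ ω : Fin (M + 1), ∑ j : Fin (a + B + 1),
      (if ((((ω, j) : ι).1 : Fin (M + 1)) : ℕ) < a then (0 : ℝ) else κ * ((((ω, j) : ι).2 : Fin (a + B + 1)) : ℕ)) =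
      ((M : ℝ) + 1 - a) * (κ * (((a + B : ℕ) : ℝ) * (((a + B : ℕ) : ℝ) + 1) / 2)) := by
    simp only []
    have h4 : ∀ ω : Fin (M + 1), ∑ j : Fin (a + B + 1),
        (if (ω : ℕ) < a then (0 : ℝ) else κ * (j : ℕ)) =
        if (ω : ℕ) < a then 0 else κ * (((a + B : ℕ) : ℝ) * (((a + B : ℕ) : ℝ) + 1) / 2) := by
      intro ω
      split_ifs
      · simp
      · rw [← Finset.mul_sum, Fin.sum_univ_eq_sum_range (fun j : ℕ => (j : ℝ)), sum_id]
    rw [Finset.sum_congr rfl fun ω _ => h4 ω, Fin.sum_univ_eq_sum_range (fun ω : ℕ =>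
      if ω < a then (0 : ℝ) else κ * (((a + B : ℕ) : ℝ) * (((a + B : ℕ) : ℝ) + 1) / 2))]
    obtain ⟨d, rfl⟩ := Nat.exists_eq_add_of_le haM
    rw [show a + d + 1 = a + (d + 1) by ring, Finset.sum_range_add,
      Finset.sum_eq_zero (fun ω hω => by rw [if_pos (Finset.mem_range.1 hω)]), zero_add,
      Finset.sum_congr rfl (fun ω _ => by rw [if_neg (by omega)]), Finset.sum_const,
      Finset.card_range, nsmul_eq_mul]
    push_cast
    ring
  rw [h2, h3] at key
  linarith

end Pool.Agent.H556.FX
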