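import Mathlib
import Pool.Agent.H556.CP.Main
import Pool.Agent.H556.FX.NearLem
import Pool.Agent.H556.FX.Expand
import Pool.Agent.H556.FX.Trans

/-!
# Divisors of `(x ^ p - y ^ p) / (x - y)` near algebraic multiples of `S`-units
-/

set_option autoImplicit false

namespace Pool.Agent.H556.FX

open Filter Topology Pool.Agent.TH932.Abs Pool.Agent.TH932.Germs Pool.Agent.TH932.Chi
open Pool.Agent.TH796.AL Pool.Agent.TH551.SU Pool.Agent.Y724.Vj Pool.Agent.H556.CP

/-- **the theorem for sequences** -/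
theorem nearCore {s : ℕ} (b : Fin s → ℕ) (hb : ∀ v, (b v).Prime) (hbi : Function.Injective b)
    {x y : ℤ} (hA : Adm x y) (hxs : IsSU b (x : ℚ)) (hys : IsSU b (y : ℚ))
    (p : ℕ → ℕ) (hp8 : ∀ n, n + 8 ≤ p n) (hpp : ∀ n, (p n).Prime) (M : ℕ → ℕ)
    (hM : ∀ n, (M n : ℤ) * (x - y) = x ^ (p n) - y ^ (p n)) (c d : ℕ → ℤ)
    (hd0 : ∀ n, d n ≠ 0) (w : ℕ → ℚ) (hw : ∀ n, IsSU b (w n)) {K : ℝ}
    (hwn : ∀ n, |((w n).num : ℝ)| ≤ (M n : ℝ) ^ K)
    (hwd : ∀ n, ((w n).den : ℝ) ≤ (M n : ℝ) ^ K)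
    (hc : ∀ n, |(c n : ℝ)| ≤ (M n : ℝ) ^ (1 / ((n : ℝ) + 1)))
    (hd : ∀ n, |(d n : ℝ)| ≤ (M n : ℝ) ^ (1 / ((n : ℝ) + 1)))
    (a a' : ℕ → ℕ) (haa : ∀ n, a n * a' n = M n) {ε : ℝ} (hε : 0 < ε)
    (ha : ∀ n, (M n : ℝ) ^ ε ≤ a n) (ha' : ∀ n, (M n : ℝ) ^ ε ≤ a' n)
    {α : ℝ} (hα : IsAlgebraic ℚ α)
    (hclose : ∀ n, |(a n : ℝ) - α * ((c n : ℝ) / d n * (w n : ℝ))| ≤
      (a n : ℝ) ^ (Real.log (a n) / Real.log (M n)) * (M n : ℝ) ^ (-ε)) : False := by
  classical
  obtain ⟨hx1, hxy1, hxy2, hcop, -, -⟩ := id hA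
  have hx0 : x ≠ 0 := by omega
  have hy0 : y ≠ 0 := ne_zero_of hx1 hcop
  have hxq : (x : ℚ) ≠ 0 := by exact_mod_cast hx0
  have hyq : (y : ℚ) ≠ 0 := by exact_mod_cast hy0
  have hyx : |y| < x := by rw [abs_lt]; constructor <;> omega
  have hlow : ∀ n, 0 < (M n : ℤ) ∧ x ^ (p n - 3) ≤ (M n : ℤ) := fun n =>
    M_lower hx1 hxy1 hxy2 (by have := hp8 n; omega) (hM n)
  have hup : ∀ n, (M n : ℤ) ≤ 2 * x ^ (p n) := fun n => M_upper hxy1 hxy2 (hM n) (hlow n).1.le
  have hM0 : ∀ n, M n ≠ 0 := fun n h => by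
    have := (hlow n).1
    rw [h] at this
    simp at this
  set F : ℕ → ℝ := fun n => (M n : ℝ) with hFdef
  have hF0 : ∀ n, 0 < F n := fun n => by
    change (0 : ℝ) < M n
    exact_mod_cast Nat.pos_of_ne_zero (hM0 n)
  set L : ℕ → ℝ := fun n => Real.log (M n) with hLdef
  have hF : ∀ n, F n = Real.exp (L n) := fun n => (Real.exp_log (hF0 n)).symm
  have hLF : ∀ n, Real.log (F n) = L n := fun n => rfl
  have hMn : ∀ n, n + 5 ≤ M n := by
    intro n
    have h1 : (2 : ℤ) ^ (p n - 3) ≤ x ^ (p n - 3) := pow_le_pow_left₀ (by norm_num) (by omega) _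
    have h2 : p n - 3 < 2 ^ (p n - 3) := Nat.lt_two_pow_self
    have h3 : ((p n - 3 : ℕ) : ℤ) < 2 ^ (p n - 3) := by exact_mod_cast h2
    have h4 := (hlow n).2
    have h5 := hp8 n
    omega
  have hF1 : ∀ n, 1 < F n := fun n => by
    have := hMn n
    change (1 : ℝ) < M n
    exact_mod_cast (by omega : 1 < M n)
  have hL : Tendsto L atTop atTop := by
    apply Real.tendsto_log_atTop.comp
    apply tendsto_natCast_atTop_atTop.comp
    exact tendsto_atTop_mono (fun n => (Nat.le_add_right n 5).trans (hMn n)) tendsto_id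
  have hFt : Tendsto F atTop atTop := by
    apply tendsto_natCast_atTop_atTop.comp
    exact tendsto_atTop_mono (fun n => (Nat.le_add_right n 5).trans (hMn n)) tendsto_id
  have hpt : Tendsto p atTop atTop :=
    tendsto_atTop_mono (fun n => (Nat.le_add_right n 8).trans (hp8 n)) tendsto_id
  have hev1 : ∀ᶠ n in (UU : Filter ℕ), 1 ≤ L n := ev_of_atTop (hL.eventually_ge_atTop 1)
  have hFε : Tendsto (fun n => F n ^ ε) atTop atTop := (tendsto_rpow_atTop hε).comp hFt
  have hev2 : ∀ᶠ n in (UU : Filter ℕ), 2 ≤ F n ^ ε := ev_of_atTop (hFε.eventually_ge_atTop 2)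
  -- the size of `x ^ p`
  have hxR : (1 : ℝ) < x := by exact_mod_cast hx1
  have hlx : 0 < Real.log x := Real.log_pos hxR
  have hpL1 : ∀ n, L n ≤ p n * Real.log x + Real.log 2 := by
    intro n
    have h1 : F n ≤ 2 * (x : ℝ) ^ (p n) := by
      change ((M n : ℕ) : ℝ) ≤ _
      exact_mod_cast hup n
    have h2 := Real.log_le_log (hF0 n) h1
    rw [Real.log_mul (by norm_num) (by positivity), Real.log_pow] at h2
    linarith
  have hpL2 : ∀ n, ((p n : ℝ) - 3) * Real.log x ≤ L n := by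
    intro n
    have h1 : (x : ℝ) ^ (p n - 3) ≤ F n := by
      change _ ≤ ((M n : ℕ) : ℝ)
      exact_mod_cast (hlow n).2
    have h2 := Real.log_le_log (by positivity) h1
    rw [Real.log_pow, Nat.cast_sub (by have := hp8 n; omega)] at h2
    exact_mod_cast h2
  have hxpM : ∀ n, x ^ (p n) ≤ (M n : ℤ) ^ 2 := by
    intro n
    calc x ^ (p n) ≤ x ^ ((p n - 3) * 2) :=
          pow_le_pow_right₀ (by omega) (by have := hp8 n; omega)
      _ = (x ^ (p n - 3)) ^ 2 := pow_mul _ _ _
      _ ≤ (M n : ℤ) ^ 2 := pow_le_pow_left₀ (by positivity) (hlow n).2 2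
  have hxpF : ∀ n, (x : ℝ) ^ (p n) ≤ F n ^ 2 := fun n => by
    change _ ≤ ((M n : ℕ) : ℝ) ^ 2
    exact_mod_cast hxpM n
  have hexp2 : ∀ n, F n ^ 2 = Real.exp (2 * L n) := by
    intro n
    rw [hF, ← Real.exp_nat_mul]
    norm_num
  -- the ratio
  set β : ℚ := (x : ℚ) / |(y : ℚ)| with hβ
  have hβ1 : 1 < β := by
    rw [hβ, one_lt_div (abs_pos.2 hyq)]
    exact_mod_cast hyx
  have hβ0 : 0 < β := by linarith
  have hβR : (1 : ℝ) < (β : ℝ) := by exact_mod_cast hβ1
  have hlβ : 0 < Real.log β := Real.log_pos hβR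
  obtain ⟨σ, hσσ, hσ⟩ : ∃ σ : ℤ, σ * σ = 1 ∧ ∀ n, -((x : ℚ) / y) ^ (p n) = σ * β ^ (p n) := by
    rcases lt_or_gt_of_ne hy0 with h | h
    · refine ⟨1, by norm_num, fun n => ?_⟩
      have hodd : Odd (p n) := (hpp n).odd_of_ne_two (by have := hp8 n; omega)
      have h1 : |(y : ℚ)| = -y := abs_of_neg (by exact_mod_cast h)
      rw [hβ, h1, div_neg, hodd.neg_pow]
      push_cast
      ring
    · refine ⟨-1, by norm_num, fun n => ?_⟩
      have h1 : |(y : ℚ)| = y := abs_of_pos (by exact_mod_cast h)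
      rw [hβ, h1]
      push_cast
      ring
  have hyabs : IsSU b (|(y : ℚ)|) := by
    rcases abs_choice (y : ℚ) with h | h
    · rw [h]; exact hys
    · rw [h]; exact isSU_neg hb hys
  have hβs : IsSU b β := by
    rw [hβ, div_eq_mul_inv]
    exact FG.isSU_mul hb hxs (FG.isSU_inv hyabs)
  -- boundedness
  have hBpow : ∀ (j : ℕ → ℕ), (∀ n, j n ≤ p n) → Bd L (gm fun n => β ^ (j n)) := by
    intro j hj
    have h1 : ∀ n, (x : ℝ) ^ (j n) ≤ Real.exp (2 * L n) := fun n => by
      rw [← hexp2]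
      exact (pow_le_pow_right₀ hxR.le (hj n)).trans (hxpF n)
    refine ⟨fun n => x ^ (j n), fun n => |y| ^ (j n), 2, ?_, ?_, ?_, ?_⟩
    · refine Eventually.of_forall fun n => ?_
      push_cast
      rw [abs_of_pos (by positivity)]
      exact h1 n
    · refine Eventually.of_forall fun n => ?_
      push_cast
      rw [abs_pow, abs_abs]
      refine le_trans (pow_le_pow_left₀ (abs_nonneg _) ?_ _) (h1 n)
      exact_mod_cast hyx.le
    · exact Eventually.of_forall fun n => pow_ne_zero _ (abs_ne_zero.2 hy0)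
    · congr 1
      funext n
      rw [hβ, div_pow]
      push_cast
      rfl
  have hXB : Bd L (gm fun n => (x : ℚ) ^ (p n)) := by
    refine ⟨fun n => x ^ (p n), fun _ => 1, 2, ?_, ?_, ?_, ?_⟩
    · refine Eventually.of_forall fun n => ?_
      push_cast
      rw [abs_of_pos (by positivity), ← hexp2]
      exact hxpF n
    · refine Eventually.of_forall fun n => ?_
      push_cast
      rw [abs_one]
      apply Real.one_le_exp
      have := Real.log_nonneg (hF1 n).le
      change 0 ≤ L n at this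
      linarith
    · exact Eventually.of_forall fun n => one_ne_zero
    · congr 1
      funext n
      push_cast
      rw [div_one]
  -- negligible sequences
  have hnegl : ∀ x : ℕ → ℤ, (∀ n, |(x n : ℝ)| ≤ F n ^ (1 / ((n : ℝ) + 1))) → Negl L x := by
    intro x hx δ hδ
    obtain ⟨N, hN⟩ := exists_nat_gt (1 / δ)
    filter_upwards [ev_of_atTop (eventually_ge_atTop N), hev1] with n hn hn2
    refine (hx n).trans ?_
    rw [Real.rpow_def_of_pos (hF0 n), hLF]
    apply Real.exp_le_exp.2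
    have h2 : 1 / ((n : ℝ) + 1) ≤ δ := by
      rw [div_le_iff₀ (by positivity)]
      rw [div_lt_iff₀ hδ] at hN
      have hN' : (N : ℝ) ≤ n := by exact_mod_cast hn
      nlinarith
    nlinarith
  -- the germs
  set u : ℕ → ℚ := fun n => (c n : ℚ) / d n * w n with hu
  have huR : ∀ n, ((u n : ℚ) : ℝ) = (c n : ℝ) / d n * (w n : ℝ) := fun n => by
    rw [hu]; push_cast; rfl
  have haF : ∀ n, (a n : ℝ) ≤ F n := by
    intro n
    have h3 : a n ∣ M n := Dvd.intro _ (haa n)
    have := Nat.le_of_dvd (Nat.pos_of_ne_zero (hM0 n)) h3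
    change (a n : ℝ) ≤ ((M n : ℕ) : ℝ)
    exact_mod_cast this
  have hone : ∀ᶠ n in (UU : Filter ℕ), (a n : ℝ) / 2 ≤ |α| * |(u n : ℝ)| ∧
      |α| * |(u n : ℝ)| ≤ 2 * a n ∧ |(a n : ℝ) - α * (u n : ℝ)| ≤ a n *
        Real.exp (-((1 - Real.log (a n) / Real.log (F n)) *
        (Real.log (a n) / Real.log (F n)) + ε) * L n) := by
    filter_upwards [hev1, hev2] with n h1 h2
    refine one_index hε (hF n) (haF n) ?_ h2 ?_
    · have := ha n
      change F n ^ ε ≤ _ at this
      linarith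
    · rw [huR]
      exact hclose n
  have ha1 : ∀ᶠ n in (UU : Filter ℕ), (2 : ℝ) ≤ a n := by
    filter_upwards [hev2] with n h2
    exact h2.trans (ha n)
  have hα0 : α ≠ 0 := by
    rintro rfl
    obtain ⟨n, h1, h2⟩ := (hone.and ha1).exists
    rw [abs_zero, zero_mul] at h1
    linarith
  have hαp : 0 < |α| := abs_pos.2 hα0
  have hu0 : ∀ᶠ n in (UU : Filter ℕ), u n ≠ 0 := by
    filter_upwards [hone, ha1] with n h1 h2 h3
    rw [h3] at h1
    simp only [Rat.cast_zero, abs_zero, mul_zero] at h1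
    linarith
  have hc0 : ∀ᶠ n in (UU : Filter ℕ), c n ≠ 0 := by
    filter_upwards [hu0] with n h1 h2
    apply h1
    rw [hu]
    simp [h2]
  have hwB : Bd L (gm w) := by
    refine ⟨fun n => (w n).num, fun n => ((w n).den : ℤ), K, ?_, ?_, ?_, ?_⟩
    · refine Eventually.of_forall fun n => ?_
      refine (hwn n).trans ?_
      change F n ^ K ≤ _
      rw [Real.rpow_def_of_pos (hF0 n), hLF, mul_comm]
    · refine Eventually.of_forall fun n => ?_
      simp only [Int.cast_natCast]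
      rw [abs_of_nonneg (Nat.cast_nonneg _)]
      refine (hwd n).trans ?_
      change F n ^ K ≤ _
      rw [Real.rpow_def_of_pos (hF0 n), hLF, mul_comm]
    · exact Eventually.of_forall fun n => Int.natCast_ne_zero.2 (w n).den_ne_zero
    · congr 1
      funext n
      exact_mod_cast (Rat.num_div_den (w n)).symm
  obtain ⟨gw, hgw⟩ := isCh_su b hb hbi hL hw hwB
  set B0 := bs b hb hbi with hB0
  have hcd : gm (fun n => (c n : ℚ) / d n) ∈ KK L hL :=
    ⟨c, d, hnegl c hc, hnegl d hd, Eventually.of_forall hd0, rfl⟩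
  have hcd0 : gm (fun n => (c n : ℚ) / d n) ≠ 0 := by
    rw [gm_ne_zero]
    filter_upwards [hc0] with n hn
    exact div_ne_zero (by exact_mod_cast hn) (by exact_mod_cast hd0 n)
  have hU : IsCh B0 hL (gm u) gw := by
    have h1 := (IsCh.const (B0 := B0) (hL := hL) hcd hcd0).mul hgw
    rw [zero_add, gm_mul] at h1
    exact h1
  -- the germs of the powers
  obtain ⟨gX, hX⟩ := isCh_su b hb hbi hL (a := fun n => (x : ℚ) ^ (p n))
    (fun n => isSU_pow hb hxs _) hXB
  obtain ⟨gT', hT'⟩ := isCh_su b hb hbi hL (a := fun n => β ^ (p n))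
    (fun n => isSU_pow hb hβs _) (hBpow p fun n => le_rfl)
  have hσ0 : (σ : ℚ) ≠ 0 := by
    have h1 : σ ≠ 0 := by
      rintro rfl
      norm_num at hσσ
    exact_mod_cast h1
  have hσK : gm (fun _ => (σ : ℚ)) ∈ KK L hL := by
    refine ⟨fun _ => σ, fun _ => 1, ?_, Negl.one hL, by simp, ?_⟩
    · intro δ hδ
      have h3 : ∀ᶠ n in atTop, Real.log |(σ : ℝ)| ≤ δ * L n :=
        (hL.const_mul_atTop hδ).eventually_ge_atTop _
      filter_upwards [ev_of_atTop h3] with n hn
      have h4 : (0 : ℝ) < |(σ : ℝ)| := abs_pos.2 (by exact_mod_cast hσ0)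
      rw [← Real.exp_log h4]
      exact Real.exp_le_exp.2 hn
    · congr 1
      funext n
      push_cast
      rw [div_one]
  have hσne : gm (fun _ => (σ : ℚ)) ≠ 0 := gm_ne_zero.2 (Eventually.of_forall fun _ => hσ0)
  set T : GG := gm fun n => (σ : ℚ) * β ^ (p n) with hTdef
  have hT : IsCh B0 hL T gT' := by
    have h1 := (IsCh.const (B0 := B0) (hL := hL) hσK hσne).mul hT'
    rw [zero_add, gm_mul] at h1
    exact h1
  set A : GG := gm fun n => ((a n : ℤ) : ℚ) with hAdef
  set A' : GG := gm fun n => (((x - y) * (a' n : ℤ) : ℤ) : ℚ) with hA'def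
  set X : GG := gm fun n => (x : ℚ) ^ (p n) with hXdef
  have hTeq : ∀ n, (σ : ℚ) * β ^ (p n) = -((x : ℚ) / y) ^ (p n) := fun n => (hσ n).symm
  have hAA : T * A * A' = (T + 1) * X := by
    rw [hAdef, hA'def, hTdef, hXdef, gm_mul, gm_mul, ← gm_one, gm_add, gm_mul]
    congr 1
    funext n
    have h1 : ((a n : ℚ)) * ((a' n : ℚ)) = (M n : ℚ) := by exact_mod_cast haa n
    have h2 : ((M n : ℚ)) * ((x : ℚ) - y) = (x : ℚ) ^ (p n) - (y : ℚ) ^ (p n) := by
      exact_mod_cast hM n
    rw [hTeq]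
    push_cast
    have h3 : -((x : ℚ) / y) ^ (p n) * (a n : ℚ) * (((x : ℚ) - y) * (a' n : ℚ)) =
        -((x : ℚ) / y) ^ (p n) * ((M n : ℚ) * ((x : ℚ) - y)) := by
      rw [← h1]; ring
    rw [h3, h2, div_pow]
    field_simp
    ring
  have hU0 : gm u ≠ 0 := gm_ne_zero.2 hu0
  have hX0 : X ≠ 0 := gm_ne_zero.2 (Eventually.of_forall fun n => pow_ne_zero _ hxq)
  set z : GG := A * (gm u)⁻¹ with hz
  set z' : GG := gm u * A' * X⁻¹ with hz'
  have hrel : T * z * z' = T + 1 := by
    have h1 : T * z * z' = (T * A * A') * X⁻¹ := by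
      rw [hz, hz']
      field_simp
    rw [h1, hAA, mul_assoc, mul_inv_cancel₀ hX0, mul_one]
  have hzg : z = gm (fun n => (a n : ℚ) / u n) := by
    rw [hz, hAdef, gm_inv, gm_mul]
    congr 1
  -- the weights
  set ν : Fin s → ℝ := fun v => lv B0 (some v) gw with hν
  set yy : ℝ := ∑ v, ν v with hyy
  have hny : lv B0 none gw = -yy := by
    have := lv_sum (B := B0) gw
    rw [Fintype.sum_option] at this
    linarith
  have hsz : ∀ δ : ℝ, 0 < δ → ∀ᶠ n in (UU : Filter ℕ),
      |Real.log (a n) / Real.log (F n) - yy| ≤ δ := by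
    intro δ hδ
    have h1 := hU.mem none
    have h2 := hU.inv.mem none
    rw [hny] at h1
    rw [lv_neg, hny, neg_neg, gm_inv] at h2
    have h1' := (mem_SS.1 h1) (δ / 4) (by positivity)
    have h2' := (mem_SS.1 h2) (δ / 4) (by positivity)
    have h3 : ∀ᶠ n in atTop, Real.log (2 * |α|) ≤ δ / 4 * L n :=
      (hL.const_mul_atTop (by positivity : 0 < δ / 4)).eventually_ge_atTop _
    have h3' : ∀ᶠ n in atTop, Real.log (2 / |α|) ≤ δ / 4 * L n :=
      (hL.const_mul_atTop (by positivity : 0 < δ / 4)).eventually_ge_atTop _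
    filter_upwards [h1', h2', ev_of_atTop h3, ev_of_atTop h3', hone, hev1, hu0, ha1]
      with n g1 g2 g3 g3' g5 g6 g7 g8
    obtain ⟨g5a, g5b, -⟩ := g5
    have g1' : |(u n : ℝ)| ≤ Real.exp (-(-yy - δ / 4) * L n) := g1
    have g2' : |(((u n)⁻¹ : ℚ) : ℝ)| ≤ Real.exp (-(yy - δ / 4) * L n) := g2
    have hur : (0 : ℝ) < |(u n : ℝ)| := abs_pos.2 (by exact_mod_cast g7)
    have hapos : (0 : ℝ) < a n := by linarith
    -- upper bound
    have u1 : Real.log (a n) ≤ Real.log (2 * |α|) + (yy + δ / 4) * L n := by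
      rw [Real.log_le_iff_le_exp hapos, Real.exp_add, Real.exp_log (by positivity)]
      have e1 : Real.exp (-(-yy - δ / 4) * L n) = Real.exp ((yy + δ / 4) * L n) := by ring_nf
      rw [e1] at g1'
      calc (a n : ℝ) ≤ 2 * |α| * |(u n : ℝ)| := by linarith
        _ ≤ _ := mul_le_mul_of_nonneg_left g1' (by positivity)
    have u2 : (yy - δ / 4) * L n - Real.log (2 / |α|) ≤ Real.log (a n) := by
      rw [Real.le_log_iff_exp_le hapos, Real.exp_sub, Real.exp_log (by positivity)]
      rw [Rat.cast_inv, abs_inv, inv_le_iff_one_le_mul₀ hur] at g2'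
      have e2 : Real.exp ((yy - δ / 4) * L n) * Real.exp (-(yy - δ / 4) * L n) = 1 := by
        rw [← Real.exp_add]
        ring_nf
        exact Real.exp_zero
      have e3 : Real.exp ((yy - δ / 4) * L n) ≤ |(u n : ℝ)| := by
        have := mul_le_mul_of_nonneg_left g2' (Real.exp_pos ((yy - δ / 4) * L n)).le
        rw [mul_one, ← mul_assoc, e2, one_mul] at this
        exact this
      rw [div_le_iff₀ (by positivity)]
      calc _ ≤ |(u n : ℝ)| := e3
        _ = (|α| * |(u n : ℝ)|) / |α| := by field_simp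
        _ ≤ (2 * a n) / |α| := div_le_div_of_nonneg_right g5b hαp.le
        _ = _ := by ring
    rw [hLF]
    have hLpos : 0 < L n := by linarith
    have h5 : Real.log (a n) / L n - yy = (Real.log (a n) - yy * L n) / L n := by field_simp
    rw [h5, abs_div, abs_of_pos hLpos, div_le_iff₀ hLpos]
    rw [abs_le]
    constructor <;> nlinarith
  have hyn : ∀ᶠ n in (UU : Filter ℕ), 0 ≤ Real.log (a n) / Real.log (F n) ∧
      Real.log (a n) / Real.log (F n) ≤ 1 := by
    filter_upwards [ha1] with n h1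
    have h2 : 0 < Real.log (F n) := Real.log_pos (hF1 n)
    have h4 := haF n
    refine ⟨div_nonneg (Real.log_nonneg (by linarith)) h2.le, ?_⟩
    rw [div_le_one h2]
    exact Real.log_le_log (by linarith) h4
  have hy0' : 0 ≤ yy := by
    refine le_of_forall_pos_le_add fun δ hδ => ?_
    obtain ⟨n, h1, h2⟩ := ((hsz δ hδ).and hyn).exists
    have := abs_le.1 h1
    linarith
  have hy1' : yy ≤ 1 := by
    refine le_of_forall_pos_le_add fun δ hδ => ?_
    obtain ⟨n, h1, h2⟩ := ((hsz δ hδ).and hyn).exists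
    have := abs_le.1 h1
    linarith
  set κ : ℝ := yy * (1 - yy) + ε / 2 with hκ
  have hzc : rho z - algebraMap ℝ HR α ∈ SR L κ := by
    rw [hzg, rho_gm, cst_eq, gr_sub, mem_SR]
    intro δ hδ
    have h3 : ∀ᶠ n in atTop, Real.log (2 * |α|) ≤ ε / 4 * L n :=
      (hL.const_mul_atTop (by positivity : 0 < ε / 4)).eventually_ge_atTop _
    filter_upwards [hsz (ε / 4) (by positivity), hyn, hone, hu0, ev_of_atTop h3, hev1] with n
      g1 g2 g3 g4 g5 g6
    set yn := Real.log (a n) / Real.log (F n) with hyn'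
    obtain ⟨g3a, -, g3b⟩ := g3
    have hur : (0 : ℝ) < |(u n : ℝ)| := abs_pos.2 (by exact_mod_cast g4)
    have hune : ((u n : ℚ) : ℝ) ≠ 0 := by exact_mod_cast g4
    have e1 : (((a n : ℚ) / u n : ℚ) : ℝ) - α = ((a n : ℝ) - α * (u n : ℝ)) / (u n : ℝ) := by
      push_cast
      field_simp
    rw [e1, abs_div, div_le_iff₀ hur]
    refine g3b.trans ?_
    have e2 : yy * (1 - yy) - ε / 4 ≤ (1 - yn) * yn := by
      have := abs_le.1 g1
      nlinarith [g2.1, g2.2]
    have e3 : Real.exp (-((1 - yn) * yn + ε) * L n) * (2 * |α|) ≤ Real.exp (-(κ - δ) * L n) := by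
      rw [← Real.exp_log (show 0 < 2 * |α| by positivity), ← Real.exp_add]
      apply Real.exp_le_exp.2
      rw [hκ]
      nlinarith
    have e4 : (a n : ℝ) ≤ 2 * |α| * |(u n : ℝ)| := by linarith
    calc (a n : ℝ) * Real.exp (-((1 - yn) * yn + ε) * L n) ≤
          (2 * |α| * |(u n : ℝ)|) * Real.exp (-((1 - yn) * yn + ε) * L n) :=
          mul_le_mul_of_nonneg_right e4 (Real.exp_pos _).le
      _ = (Real.exp (-((1 - yn) * yn + ε) * L n) * (2 * |α|)) * |(u n : ℝ)| := by ring
      _ ≤ _ := mul_le_mul_of_nonneg_right e3 hur.le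
  have hone' : (1 : HR) ∈ SR L 0 := by
    have := SR_cst hL (1 : ℝ)
    rwa [map_one] at this
  have hκ0 : 0 ≤ κ := by
    have : 0 ≤ yy * (1 - yy) := mul_nonneg hy0' (by linarith)
    linarith
  have hzi : rho z ∈ SR L 0 := by
    have h1 := SR_add hL (SR_anti hL hκ0 hzc) (SR_cst hL α)
    rwa [sub_add_cancel] at h1
  have hxyR : (0 : ℝ) < (x : ℝ) - y := by
    have : (y : ℝ) < x := by exact_mod_cast hxy2
    linarith
  have hzi' : rho z' ∈ SR L 0 := by
    have h0 : z' = gm (fun n => u n * (((x - y) * (a' n : ℤ) : ℤ) : ℚ) * ((x : ℚ) ^ (p n))⁻¹) := by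
      rw [hz', hA'def, hXdef, gm_inv, gm_mul, gm_mul]
    rw [h0, rho_gm, mem_SR]
    intro δ hδ
    set C : ℝ := 4 * ((x : ℝ) - y) / |α| with hC
    have hCpos : 0 < C := by rw [hC]; positivity
    have h3 : ∀ᶠ n in atTop, Real.log C ≤ δ * L n :=
      (hL.const_mul_atTop hδ).eventually_ge_atTop _
    filter_upwards [hone, hev1, ev_of_atTop h3] with n g1 g2 g3
    obtain ⟨-, g1b, -⟩ := g1
    have e1 : (F n : ℝ) = (a n : ℝ) * a' n := by
      have h1 := haa n
      have h2 : ((a n * a' n : ℕ) : ℝ) = ((M n : ℕ) : ℝ) := by rw [h1]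
      push_cast at h2
      exact h2.symm
    have hxpos : (0 : ℝ) < (x : ℝ) ^ (p n) := by positivity
    have e3 : F n ≤ 2 * (x : ℝ) ^ (p n) := by
      change ((M n : ℕ) : ℝ) ≤ _
      exact_mod_cast hup n
    push_cast
    rw [abs_mul, abs_mul, abs_inv, abs_of_pos hxpos, abs_mul, abs_of_pos hxyR,
      abs_of_nonneg (show (0 : ℝ) ≤ (a' n : ℝ) from Nat.cast_nonneg _)]
    have e4 : |α| * (|(u n : ℝ)| * (((x : ℝ) - y) * (a' n : ℝ)) * ((x : ℝ) ^ (p n))⁻¹) ≤
        4 * ((x : ℝ) - y) := by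
      have h5 : |α| * |(u n : ℝ)| * a' n ≤ 4 * (x : ℝ) ^ (p n) := by
        calc |α| * |(u n : ℝ)| * a' n ≤ 2 * a n * a' n :=
              mul_le_mul_of_nonneg_right g1b (Nat.cast_nonneg _)
          _ = 2 * F n := by rw [e1]; ring
          _ ≤ _ := by linarith
      have h6 : |α| * (|(u n : ℝ)| * (((x : ℝ) - y) * (a' n : ℝ)) * ((x : ℝ) ^ (p n))⁻¹) =
          (|α| * |(u n : ℝ)| * a' n) * ((x : ℝ) - y) / (x : ℝ) ^ (p n) := by field_simp
      rw [h6, div_le_iff₀ hxpos]
      nlinarith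
    calc |(u n : ℝ)| * (((x : ℝ) - y) * (a' n : ℝ)) * ((x : ℝ) ^ (p n))⁻¹ ≤ C := by
          rw [hC, le_div_iff₀ hαp]
          linarith
      _ = Real.exp (Real.log C) := (Real.exp_log hCpos).symm
      _ ≤ _ := by
          apply Real.exp_le_exp.2
          linarith
  -- the places of `X`
  have hXn : lv B0 none gX = -1 := by
    apply lv_none_eq (X := fun n => (x : ℚ) ^ (p n)) hX (fun n => pow_ne_zero _ hxq)
    intro δ hδ
    have h3 : ∀ᶠ n in atTop, 3 * Real.log x ≤ δ * L n :=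
      (hL.const_mul_atTop hδ).eventually_ge_atTop _
    have h4 : ∀ᶠ n in atTop, Real.log 2 ≤ δ * L n :=
      (hL.const_mul_atTop hδ).eventually_ge_atTop _
    filter_upwards [ev_of_atTop h3, ev_of_atTop h4] with n g3 g4
    have e1 : |(((x : ℚ) ^ (p n) : ℚ) : ℝ)| = Real.exp (p n * Real.log x) := by
      push_cast
      rw [abs_of_pos (by positivity), mul_comm, Real.exp_mul, Real.exp_log (by linarith),
        Real.rpow_natCast]
    rw [e1]
    have g5 := hpL1 n
    have g6 := hpL2 n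
    constructor
    · apply Real.exp_le_exp.2
      linarith
    · apply Real.exp_le_exp.2
      linarith
  have hXsum : ∑ v, lv B0 (some v) gX = 1 := by
    have := lv_sum (B := B0) gX
    rw [Fintype.sum_option, hXn] at this
    linarith
  set t : ℝ := ∑ v, lv B0 (some v) gT' with ht
  have hTn : lv B0 none gT' = -t := by
    have := lv_sum (B := B0) gT'
    rw [Fintype.sum_option] at this
    linarith
  have hTi : rho T ∈ SR L (-t) := by
    have := SR_rho (hT.mem none)
    rwa [hTn] at this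
  have hAint : ∀ v, A ∈ Sv B0 L (some v) 0 := fun v => int_fin B0 hL (fun n => (a n : ℤ)) v
  have hAint' : ∀ v, A' ∈ Sv B0 L (some v) 0 := fun v =>
    int_fin B0 hL (fun n => (x - y) * (a' n : ℤ)) v
  have hAs : Sint B0 L A := int_sint B0 hL (fun n => (a n : ℤ))
  have hAs' : Sint B0 L A' := int_sint B0 hL (fun n => (x - y) * (a' n : ℤ))
  by_cases hno : ∀ R : Polynomial (Polynomial ℤ), R ≠ 0 → evG T z R ≠ 0
  · refine FX.trans B0 hL hrel (fun v => lv B0 (some v) gT') (fun v => lv B0 (some v) gX) ν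
      ht.symm hXsum (fun v => hT.mem (some v)) (fun v => ?_) (fun v => ?_) hTi hzi hzi' hT.sint
      (Sint.mul hL hAs hU.inv.sint) (Sint.mul hL (Sint.mul hL hU.sint hAs') hX.inv.sint) hyy.symm
      hy0' hy1' hα hα0 (κ := κ) (by rw [hκ]; linarith) hzc hno
    · have h1 := (filt_v (B := B0) hL (some v)).mul_mem (hAint v) (hU.inv.mem (some v))
      rw [lv_neg, zero_add] at h1
      exact h1
    · have h1 := (filt_v (B := B0) hL (some v)).mul_mem ((filt_v (B := B0) hL (some v)).mul_mem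
        (hU.mem (some v)) (hAint' v)) (hX.inv.mem (some v))
      rw [lv_neg, add_zero, ← sub_eq_add_neg] at h1
      exact h1
  · push Not at hno
    obtain ⟨R, hR, hRz⟩ := hno
    rw [hzg, hTdef, evG_gm, ← gm_zero, gm_eq] at hRz
    obtain ⟨J, hJ⟩ := exists_nat_gt (4 * Real.log x / Real.log β)
    rw [div_lt_iff₀ hlβ] at hJ
    obtain ⟨q, N0, k, γ, hq, hk, hγ, happ⟩ := expand' hpt hβ1 hσσ (fun n => (a n : ℚ) / u n) R hR
      hRz J
    have hq0 : (0 : ℝ) < q := by exact_mod_cast (by omega : 0 < q)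
    -- the units
    obtain ⟨gE, hE⟩ := isCh_su b hb hbi hL (a := fun n => β ^ (p n / q))
      (fun n => isSU_pow hb hβs _) (hBpow (fun n => p n / q) fun n => Nat.div_le_self _ _)
    set E : GG := gm fun n => β ^ (p n / q) with hEdef
    set ui : Fin N0 → GG := fun i => gm u * E ^ k i with hui
    have huiC : ∀ i, IsCh B0 hL (ui i) (gw + (k i : ℝ) • gE) := fun i => hU.mul (hE.zpow (k i))
    have hEk : ∀ i, E ^ k i = gm (fun n => β ^ (k i * ((p n / q : ℕ) : ℤ))) := by
      intro i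
      have h1 : ∀ j : ℕ, E ^ j = gm (fun n => β ^ (((j : ℕ) : ℤ) * ((p n / q : ℕ) : ℤ))) := by
        intro j
        rw [hEdef, gm_pow]
        congr 1
        funext n
        rw [← pow_mul, ← Nat.cast_mul, zpow_natCast, mul_comm]
      cases hki : k i with
      | ofNat j =>
        rw [Int.ofNat_eq_natCast, zpow_natCast, h1]
      | negSucc j =>
        rw [zpow_negSucc, h1, gm_inv]
        congr 1
        funext n
        rw [← zpow_neg]
        congr 1
    have huie : ∀ (S : Finset (Fin N0)) (γ' : Fin N0 → ℝ),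
        ∑ i ∈ S, algebraMap ℝ HR (γ' i) * rho (ui i) =
        gr (fun n => ∑ i ∈ S, γ' i * ((u n : ℝ) * (β : ℝ) ^ (k i * ((p n / q : ℕ) : ℤ)))) := by
      intro S γ'
      induction S using Finset.induction_on with
      | empty => simp only [Finset.sum_empty]; exact gr_zero.symm
      | insert i S hi ih =>
        rw [Finset.sum_insert hi, ih, hui]
        simp only []
        rw [hEk, gm_mul, rho_gm, cst_eq, gr_mul, gr_add]
        congr 1
        funext n
        rw [Finset.sum_insert hi]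
        push_cast
        rfl
    have hrho : rho A - ∑ i, algebraMap ℝ HR (γ i) * rho (ui i) ∈ SR L (1 / 2) := by
      rw [huie, hAdef, rho_gm, gr_sub, mem_SR]
      intro δ hδ
      have h3 : ∀ᶠ n in atTop, Real.log (4 / |α|) ≤ 1 / 2 * L n :=
        (hL.const_mul_atTop (by norm_num : (0 : ℝ) < 1 / 2)).eventually_ge_atTop _
      have h3' : ∀ᶠ n in atTop, 2 * Real.log 2 ≤ L n := hL.eventually_ge_atTop _
      filter_upwards [happ, hone, hev1, hu0, ev_of_atTop h3, ev_of_atTop h3'] with n g1 g2 g3 g4 g5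
        g5'
      obtain ⟨-, g2b, -⟩ := g2
      have hune : ((u n : ℚ) : ℝ) ≠ 0 := by exact_mod_cast g4
      have hur : (0 : ℝ) < |(u n : ℝ)| := abs_pos.2 hune
      have e1 : (((a n : ℤ) : ℚ) : ℝ) -
          ∑ i, γ i * ((u n : ℝ) * (β : ℝ) ^ (k i * ((p n / q : ℕ) : ℤ))) =
          (u n : ℝ) * ((((a n : ℚ) / u n : ℚ) : ℝ) -
            ∑ i, γ i * (β : ℝ) ^ (k i * ((p n / q : ℕ) : ℤ))) := by
        rw [mul_sub, Finset.mul_sum]
        congr 1
        · push_cast
          field_simp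
        · refine Finset.sum_congr rfl fun i _ => ?_
          ring
      rw [e1, abs_mul]
      have e2 := haF n
      have e3 : F n = Real.exp (L n) := hF n
      have e4 : |(u n : ℝ)| ≤ 4 / |α| * Real.exp (L n) := by
        rw [div_mul_eq_mul_div, le_div_iff₀ hαp]
        have := Real.exp_pos (L n)
        linarith
      have e5 : Real.exp (-J * (p n * Real.log β)) ≤ Real.exp (-2 * L n) := by
        apply Real.exp_le_exp.2
        have h6 := hpL1 n
        have h7 : (0 : ℝ) ≤ p n := Nat.cast_nonneg _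
        have h8 : (p n : ℝ) * (4 * Real.log x) ≤ p n * (J * Real.log β) :=
          mul_le_mul_of_nonneg_left hJ.le h7
        linarith
      calc |(u n : ℝ)| * |(((a n : ℚ) / u n : ℚ) : ℝ) -
            ∑ i, γ i * (β : ℝ) ^ (k i * ((p n / q : ℕ) : ℤ))|
          ≤ (4 / |α| * Real.exp (L n)) * Real.exp (-2 * L n) :=
            mul_le_mul e4 (g1.trans e5) (abs_nonneg _) (by positivity)
        _ = Real.exp (Real.log (4 / |α|)) * Real.exp (-L n) := by
            rw [Real.exp_log (show 0 < 4 / |α| by positivity), mul_assoc, ← Real.exp_add]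
            congr 2
            ring
        _ = Real.exp (Real.log (4 / |α|) + -L n) := (Real.exp_add _ _).symm
        _ ≤ _ := by
            apply Real.exp_le_exp.2
            nlinarith
    obtain ⟨N, c', hNc, hsum⟩ := comb B0 hL A hAint hAs N0 ui _ huiC γ hγ (η := 1 / 2)
      (by norm_num) hrho
    have hsume : ∀ S : Finset (Fin N0), ∑ i ∈ S, (c' i : GG) * ui i =
        gm (fun n => ∑ i ∈ S, (c' i : ℚ) * (u n * β ^ (k i * ((p n / q : ℕ) : ℤ)))) := by
      intro S
      induction S using Finset.induction_on with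
      | empty => simp only [Finset.sum_empty]; exact gm_zero.symm
      | insert i S hi ih =>
        rw [Finset.sum_insert hi, ih, hui]
        simp only []
        have h4 : (c' i : GG) = gm (fun _ => (c' i : ℚ)) := rfl
        rw [hEk, gm_mul, h4, gm_mul, gm_add]
        congr 1
        funext n
        rw [Finset.sum_insert hi]
    have hN : N ≠ 0 := by
      rintro rfl
      have hc' : c' ≠ 0 := by simpa using hNc
      apply hc'
      rw [Int.cast_zero, zero_mul, hsume, ← gm_zero, gm_eq] at hsum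
      have hxt : Tendsto (fun n => (β : ℝ) ^ (p n / q)) atTop atTop :=
        (tendsto_pow_atTop_atTop_of_one_lt hβR).comp
          ((Nat.tendsto_div_const_atTop (by omega)).comp hpt)
      apply pow_indep hxt k hk c'
      filter_upwards [hsum, hu0] with n g1 g2
      have g3 : (u n : ℚ) * ∑ i, (c' i : ℚ) * β ^ (k i * ((p n / q : ℕ) : ℤ)) = 0 := by
        rw [Finset.mul_sum, g1]
        refine Finset.sum_congr rfl fun i _ => ?_
        ring
      have g4 := (mul_eq_zero.1 g3).resolve_left g2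
      have g5 := congrArg (fun r : ℚ => (r : ℝ)) g4
      simp only [Rat.cast_sum, Rat.cast_mul, Rat.cast_zpow, Rat.cast_intCast, Rat.cast_ofNat,
        Rat.cast_zero] at g5
      rw [← g5]
      refine Finset.sum_congr rfl fun i _ => ?_
      rw [← zpow_natCast, ← zpow_mul, mul_comm (k i)]
    -- the contradiction
    rw [hsume, hAdef] at hsum
    have h4 : (N : GG) = gm (fun _ => (N : ℚ)) := rfl
    rw [h4, gm_mul, gm_eq] at hsum
    set S0 : Finset ℕ := Finset.univ.image b with hS0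
    set Kk : ℕ := ∑ i, (k i).natAbs with hKk
    obtain ⟨ε1, hε1, m₁, hmain⟩ := Pool.Agent.H556.FX.main hA S0 N0 (K + 2 * Kk) ε hε
    have hFε1 : Tendsto (fun n => F n ^ (ε1 / 2)) atTop atTop :=
      (tendsto_rpow_atTop (by positivity)).comp hFt
    have hFε2 : Tendsto (fun n => F n ^ (ε / 2)) atTop atTop :=
      (tendsto_rpow_atTop (by positivity)).comp hFt
    obtain ⟨N1, hN1⟩ := exists_nat_gt (2 / ε1)
    obtain ⟨N2, hN2⟩ := exists_nat_gt (2 / ε)
    obtain ⟨n, ⟨g1, g2, g3, g4, g5, g6⟩, g7, g8, g9⟩ := ((hsum.and (ev_of_atTop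
      ((hFε1.eventually_ge_atTop (∑ i, |(c' i : ℝ)|)).and
      ((hFε2.eventually_gt_atTop |(N : ℝ)|).and ((eventually_ge_atTop N1).and
      ((eventually_ge_atTop N2).and (hpt.eventually_ge_atTop m₁))))))).and
      (ha1.and (hc0.and hu0))).exists
    have hdn : (d n : ℚ) ≠ 0 := by exact_mod_cast hd0 n
    -- the sum
    have hs1 : ∑ i, ((c' i * c n : ℤ) : ℚ) * (w n * β ^ (k i * ((p n / q : ℕ) : ℤ))) =
        ((d n * N * (a n : ℤ) : ℤ) : ℚ) := by
      have h5 : ((d n * N * (a n : ℤ) : ℤ) : ℚ) = d n * ((N : ℚ) * ((a n : ℤ) : ℚ)) := by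
        push_cast
        ring
      rw [h5, g1, Finset.mul_sum]
      refine Finset.sum_congr rfl fun i _ => ?_
      rw [hu]
      simp only [Int.cast_mul]
      field_simp
    have hcb : ∀ x : ℕ → ℤ, |(x n : ℝ)| ≤ F n ^ (1 / ((n : ℝ) + 1)) → ∀ δ : ℝ, 0 < δ → 2 / δ < n →
        |(x n : ℝ)| ≤ F n ^ (δ / 2) := by
      intro x hx δ hδ hn
      refine hx.trans (Real.rpow_le_rpow_of_exponent_le (hF1 n).le ?_)
      rw [div_le_div_iff₀ (by positivity) (by norm_num)]
      rw [div_lt_iff₀ hδ] at hn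
      nlinarith
    have hN1' : 2 / ε1 < n := hN1.trans_le (by exact_mod_cast g4)
    have hN2' : 2 / ε < n := hN2.trans_le (by exact_mod_cast g5)
    have hFK : ∀ j : ℕ, j ≤ Kk * (p n / q) → (x : ℝ) ^ j ≤ F n ^ (2 * (Kk : ℝ)) := by
      intro j hj
      rw [Real.rpow_mul (hF0 n).le, Real.rpow_natCast]
      have h6 : F n ^ (2 : ℝ) = F n ^ 2 := by rw [← Real.rpow_natCast]; norm_num
      rw [h6]
      calc (x : ℝ) ^ j ≤ (x : ℝ) ^ (Kk * p n) := by
            apply pow_le_pow_right₀ hxR.le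
            exact hj.trans (Nat.mul_le_mul_left _ (Nat.div_le_self _ _))
        _ = ((x : ℝ) ^ p n) ^ Kk := by rw [mul_comm, pow_mul]
        _ ≤ (F n ^ 2) ^ Kk := pow_le_pow_left₀ (by positivity) (hxpF n) Kk
    have hwn0 : w n ≠ 0 := by
      intro h5
      apply g9
      rw [hu]
      simp [h5]
    have key := hmain (p n) g6 (hpp n) (M n) (hM n) (fun i => c' i * c n)
      (fun i => w n * β ^ (k i * ((p n / q : ℕ) : ℤ)))
      (by
        intro i
        push_cast
        rw [abs_mul]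
        have h5 : |(c' i : ℝ)| ≤ F n ^ (ε1 / 2) :=
          (Finset.single_le_sum (f := fun i => |(c' i : ℝ)|) (fun _ _ => abs_nonneg _)
            (Finset.mem_univ i)).trans g2
        have h6 := hcb c (hc n) ε1 hε1 hN1'
        have h7 : F n ^ (ε1 / 2) * F n ^ (ε1 / 2) = F n ^ ε1 := by
          rw [← Real.rpow_add (hF0 n)]
          congr 1
          ring
        change _ ≤ F n ^ ε1
        rw [← h7]
        exact mul_le_mul h5 h6 (abs_nonneg _) (Real.rpow_nonneg (hF0 n).le _))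
      (fun i => mul_ne_zero hwn0 (zpow_ne_zero _ hβ0.ne'))
      (by
        intro i l hl hpd
        have h5 : IsSU b (w n * β ^ (k i * ((p n / q : ℕ) : ℤ))) := by
          refine FG.isSU_mul hb (hw n) ?_
          cases (k i * ((p n / q : ℕ) : ℤ)) with
          | ofNat j =>
            rw [Int.ofNat_eq_natCast, zpow_natCast]
            exact isSU_pow hb hβs _
          | negSucc j =>
            rw [zpow_negSucc]
            exact FG.isSU_inv (isSU_pow hb hβs _)
        exact su_primes b hb h5 hl hpd)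
      (by
        intro i
        have hki : (k i).natAbs ≤ Kk :=
          Finset.single_le_sum (f := fun i => (k i).natAbs) (fun _ _ => Nat.zero_le _)
            (Finset.mem_univ i)
        set j : ℤ := k i * ((p n / q : ℕ) : ℤ) with hj
        have hjab : j.natAbs ≤ Kk * (p n / q) := by
          rw [hj, Int.natAbs_mul, Int.natAbs_natCast]
          exact Nat.mul_le_mul_right _ hki
        have h2 : β ^ j = (((x ^ j.toNat * |y| ^ (-j).toNat : ℤ)) : ℚ) /
            ((|y| ^ j.toNat * x ^ (-j).toNat : ℤ) : ℚ) := by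
          have h7 : β ^ j = β ^ j.toNat / β ^ (-j).toNat := by
            rw [← zpow_natCast, ← zpow_natCast, ← zpow_sub₀ hβ0.ne']
            congr 1
            omega
          have h8 : |(y : ℚ)| ≠ 0 := abs_ne_zero.2 hyq
          rw [h7, hβ, div_pow, div_pow]
          push_cast
          field_simp
        have hyne : |y| ≠ 0 := abs_ne_zero.2 hy0
        have h3 := height_le ((w n).num * (x ^ j.toNat * |y| ^ (-j).toNat))
          ((w n).den * (|y| ^ j.toNat * x ^ (-j).toNat))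
          (mul_ne_zero (by exact_mod_cast (w n).den_ne_zero)
            (mul_ne_zero (pow_ne_zero _ hyne) (pow_ne_zero _ hx0)))
          (mul_ne_zero (Rat.num_ne_zero.2 hwn0)
            (mul_ne_zero (pow_ne_zero _ hx0) (pow_ne_zero _ hyne))) (w n * β ^ j) (by
            rw [h2]
            conv_lhs => rw [← Rat.num_div_den (w n)]
            push_cast
            rw [div_mul_div_comm])
        have hFs : F n ^ (K + 2 * (Kk : ℝ)) = F n ^ K * F n ^ (2 * (Kk : ℝ)) :=
          Real.rpow_add (hF0 n) _ _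
        have hyR : |(y : ℝ)| ≤ x := by exact_mod_cast hyx.le
        have hprod : ∀ i1 i2 : ℕ, i1 + i2 ≤ Kk * (p n / q) →
            (x : ℝ) ^ i1 * |(y : ℝ)| ^ i2 ≤ F n ^ (2 * (Kk : ℝ)) := by
          intro i1 i2 h12
          calc (x : ℝ) ^ i1 * |(y : ℝ)| ^ i2 ≤ (x : ℝ) ^ i1 * (x : ℝ) ^ i2 :=
                mul_le_mul_of_nonneg_left (pow_le_pow_left₀ (abs_nonneg _) hyR _) (by positivity)
            _ = (x : ℝ) ^ (i1 + i2) := (pow_add _ _ _).symm
            _ ≤ _ := hFK _ h12
        change _ ≤ F n ^ (K + 2 * (Kk : ℝ)) ∧ _ ≤ F n ^ (K + 2 * (Kk : ℝ))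
        rw [hFs]
        refine ⟨h3.1.trans ?_, h3.2.1.trans ?_⟩
        · push_cast
          rw [abs_mul, abs_of_nonneg (show (0 : ℝ) ≤ x ^ j.toNat * |(y : ℝ)| ^ (-j).toNat by
            positivity)]
          exact mul_le_mul (hwn n) (hprod _ _ (by omega)) (by positivity)
            (Real.rpow_nonneg (hF0 n).le _)
        · push_cast
          rw [abs_mul, abs_of_nonneg (show (0 : ℝ) ≤ |(y : ℝ)| ^ j.toNat * x ^ (-j).toNat by
            positivity), abs_of_nonneg (Nat.cast_nonneg _), mul_comm (|(y : ℝ)| ^ j.toNat)]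
          exact mul_le_mul (hwd n) (hprod _ _ (by omega)) (by positivity)
            (Real.rpow_nonneg (hF0 n).le _))
      (by
        rw [hs1, Rat.num_intCast]
        intro hdv
        have h5 : (M n : ℤ) = (a n : ℤ) * (a' n : ℤ) := by
          exact_mod_cast (haa n).symm
        rw [h5, mul_comm (d n * N)] at hdv
        have han : (a n : ℤ) ≠ 0 := by
          intro h6
          have h7 : (a n : ℝ) = 0 := by exact_mod_cast h6
          linarith
        have h6 := Int.dvd_of_mul_dvd_mul_left han hdv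
        have h7 : d n * N ≠ 0 := mul_ne_zero (hd0 n) hN
        have h8 := Int.le_of_dvd (abs_pos.2 h7) ((dvd_abs _ _).2 h6)
        have h9 : (a' n : ℝ) ≤ |(d n : ℝ)| * |(N : ℝ)| := by
          rw [← abs_mul]
          have : (((a' n : ℕ) : ℤ) : ℝ) ≤ ((|d n * N| : ℤ) : ℝ) := by exact_mod_cast h8
          push_cast at this
          exact this
        have h10 := hcb d (hd n) ε hε hN2'
        have h11 : F n ^ (ε / 2) * F n ^ (ε / 2) = F n ^ ε := by
          rw [← Real.rpow_add (hF0 n)]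
          congr 1
          ring
        have h12 : |(d n : ℝ)| * |(N : ℝ)| < F n ^ ε := by
          rw [← h11]
          have h13 : 0 < F n ^ (ε / 2) := Real.rpow_pos_of_pos (hF0 n) _
          calc |(d n : ℝ)| * |(N : ℝ)| ≤ F n ^ (ε / 2) * |(N : ℝ)| :=
                mul_le_mul_of_nonneg_right h10 (abs_nonneg _)
            _ < _ := mul_lt_mul_of_pos_left g3 h13
        have h14 : F n ^ ε ≤ a' n := ha' n
        linarith)
      (a n) (Dvd.intro _ (haa n)) (by rw [hs1, Rat.num_intCast]; exact Dvd.intro_left _ rfl)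
    have h5 : F n ^ ε ≤ a n := ha n
    change (a n : ℝ) < F n ^ ε at key
    linarith

end Pool.Agent.H556.FX
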