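import Mathlib
import Pool.Agent.H556.FX.Near

/-!
# Divisors of `(x ^ p - y ^ p) / (x - y)` near algebraic multiples of `S`-units
-/

set_option autoImplicit false

namespace Pool.Agent.H556.FX

open Filter Topology Pool.Agent.TH551.SU

/-- the primes of `S`, `x` and `y` -/
lemma exists_base (S : Finset ℕ) {x y : ℤ} (hx0 : x ≠ 0) (hy0 : y ≠ 0) :
    ∃ (s : ℕ) (b : Fin s → ℕ), (∀ v, (b v).Prime) ∧ Function.Injective b ∧
      (∀ p ∈ S, p.Prime → ∃ v, b v = p) ∧ IsSU b (x : ℚ) ∧ IsSU b (y : ℚ) := by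
  classical
  set S' : Finset ℕ := S.filter Nat.Prime ∪ (x.natAbs.primeFactors ∪ y.natAbs.primeFactors) with hS'
  set b : Fin S'.card → ℕ := fun v => (S'.equivFin.symm v : ℕ) with hb0
  have hb : ∀ v, (b v).Prime := by
    intro v
    have h1 := (S'.equivFin.symm v).2
    rcases Finset.mem_union.1 h1 with h2 | h2
    · exact (Finset.mem_filter.1 h2).2
    · rcases Finset.mem_union.1 h2 with h3 | h3
      · exact Nat.prime_of_mem_primeFactors h3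
      · exact Nat.prime_of_mem_primeFactors h3
  have hbi : Function.Injective b := fun x y h =>
    S'.equivFin.symm.injective (Subtype.ext h)
  have hbs : ∀ p ∈ S', ∃ v, b v = p := fun p hp =>
    ⟨S'.equivFin ⟨p, hp⟩, by rw [hb0]; simp⟩
  refine ⟨S'.card, b, hb, hbi, fun p hp hpp => hbs p (Finset.mem_union_left _
    (Finset.mem_filter.2 ⟨hp, hpp⟩)), ?_, ?_⟩
  · exact isSU_int b hb hbi hx0 fun p hp hd => hbs p (by
      rw [hS', Finset.mem_union, Finset.mem_union]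
      exact Or.inr (Or.inl (Nat.mem_primeFactors.2 ⟨hp, hd, Int.natAbs_ne_zero.2 hx0⟩)))
  · exact isSU_int b hb hbi hy0 fun p hp hd => hbs p (by
      rw [hS', Finset.mem_union, Finset.mem_union]
      exact Or.inr (Or.inr (Nat.mem_primeFactors.2 ⟨hp, hd, Int.natAbs_ne_zero.2 hy0⟩)))

/-- **Divisors of `(x ^ p - y ^ p) / (x - y)` near algebraic multiples of `S`-units.** -/
theorem near {x y : ℤ} (hA : Adm x y) (S : Finset ℕ) (α : ℝ) (hα : IsAlgebraic ℚ α) (K ε : ℝ)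
    (hε : 0 < ε) :
    ∃ η : ℝ, 0 < η ∧ ∃ p₀ : ℕ, ∀ p ≥ p₀, p.Prime → ∀ M : ℕ, (M : ℤ) * (x - y) = x ^ p - y ^ p →
      ∀ (c d : ℤ) (w : ℚ), d ≠ 0 →
      |(c : ℝ)| ≤ (M : ℝ) ^ η → |(d : ℝ)| ≤ (M : ℝ) ^ η → w ≠ 0 →
      (∀ l : ℕ, l.Prime → (l ∣ w.num.natAbs ∨ l ∣ w.den) → l ∈ S) →
      |(w.num : ℝ)| ≤ (M : ℝ) ^ K → (w.den : ℝ) ≤ (M : ℝ) ^ K →
      ∀ a a' : ℕ, a * a' = M → (M : ℝ) ^ ε ≤ a → (M : ℝ) ^ ε ≤ a' →
      (a : ℝ) ^ (Real.log a / Real.log M) * (M : ℝ) ^ (-ε) <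
        |(a : ℝ) - α * ((c : ℝ) / d * (w : ℝ))| := by
  classical
  by_contra hcon
  push Not at hcon
  have hx0 : x ≠ 0 := by have := hA.one_lt; omega
  have hy0 : y ≠ 0 := ne_zero_of hA.one_lt hA.cop
  obtain ⟨s, b, hb, hbi, hbs, hxs, hys⟩ := exists_base S hx0 hy0
  choose p hp hpp M hM c d w hd0 hc hd hw0 hwS hwn hwd a a' haa ha ha' hclose using
    fun n : ℕ => hcon (1 / ((n : ℝ) + 1)) (by positivity) (n + 8)
  refine nearCore b hb hbi hA hxs hys p hp hpp M hM c d hd0 w (fun n => ?_) hwn hwd hc hd a a' haa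
    hε ha ha' hα hclose
  apply FG.isSU_of b hb _ (hw0 n) _ hbi
  intro l hl hpd
  exact hbs l (hwS n l hl hpd) hl

/-- the same in terms of the exponent of the divisor -/
theorem near' {x y : ℤ} (hA : Adm x y) (S : Finset ℕ) (α : ℝ) (hα : IsAlgebraic ℚ α) (K ε : ℝ)
    (hε : 0 < ε) :
    ∃ η : ℝ, 0 < η ∧ ∃ p₀ : ℕ, ∀ p ≥ p₀, p.Prime → ∀ M : ℕ, (M : ℤ) * (x - y) = x ^ p - y ^ p →
      ∀ (c d : ℤ) (w : ℚ), d ≠ 0 →
      |(c : ℝ)| ≤ (M : ℝ) ^ η → |(d : ℝ)| ≤ (M : ℝ) ^ η → w ≠ 0 →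
      (∀ l : ℕ, l.Prime → (l ∣ w.num.natAbs ∨ l ∣ w.den) → l ∈ S) →
      |(w.num : ℝ)| ≤ (M : ℝ) ^ K → (w.den : ℝ) ≤ (M : ℝ) ^ K →
      ∀ a : ℕ, a ∣ M → ∀ t : ℝ, ε ≤ t → t ≤ 1 - ε → (a : ℝ) = (M : ℝ) ^ t →
      (M : ℝ) ^ (t ^ 2 - ε) < |(a : ℝ) - α * ((c : ℝ) / d * (w : ℝ))| := by
  obtain ⟨η, hη, p₀, h⟩ := near hA S α hα K ε hε
  refine ⟨η, hη, p₀ + 5, fun p hp hpp M hM c d w hd0 hc hd hw0 hwS hwn hwd a ha t ht1 ht2 hat => ?_⟩
  obtain ⟨b, hb⟩ := ha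
  have hM1 : (1 : ℝ) < M := by
    have h1 := (M_lower hA.one_lt hA.neg_lt hA.lt (by omega) hM).2
    have h2 : x ^ 2 ≤ x ^ (p - 3) := pow_le_pow_right₀ hA.one_lt.le (by omega)
    have h3 := hA.one_lt
    have h4 : (1 : ℤ) < M := by nlinarith
    exact_mod_cast h4
  have hM0 : (0 : ℝ) < M := by linarith
  have hlM : 0 < Real.log M := Real.log_pos hM1
  have ha1 : (M : ℝ) ^ ε ≤ a := by
    rw [hat]
    exact Real.rpow_le_rpow_of_exponent_le hM1.le ht1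
  have hb1 : (M : ℝ) ^ ε ≤ b := by
    have h1 : (a : ℝ) * b = M := by exact_mod_cast hb.symm
    have h2 : (M : ℝ) ^ t * (M : ℝ) ^ (1 - t) = M := by
      rw [← Real.rpow_add hM0, add_sub_cancel, Real.rpow_one]
    have h3 : 0 < (M : ℝ) ^ t := Real.rpow_pos_of_pos hM0 _
    have h4 : (b : ℝ) = (M : ℝ) ^ (1 - t) := by
      rw [hat] at h1
      have : (M : ℝ) ^ t * b = (M : ℝ) ^ t * (M : ℝ) ^ (1 - t) := by rw [h1, h2]
      exact mul_left_cancel₀ h3.ne' this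
    rw [h4]
    exact Real.rpow_le_rpow_of_exponent_le hM1.le (by linarith)
  have key := h p (by omega) hpp M hM c d w hd0 hc hd hw0 hwS hwn hwd a b hb.symm ha1 hb1
  have hx : Real.log a / Real.log M = t := by
    rw [hat, Real.log_rpow hM0]
    field_simp
  rw [hx] at key
  have h5 : (a : ℝ) ^ t * (M : ℝ) ^ (-ε) = (M : ℝ) ^ (t ^ 2 - ε) := by
    rw [hat, ← Real.rpow_mul hM0.le, ← Real.rpow_add hM0]
    congr 1
    ring
  rw [h5] at key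
  exact key

end Pool.Agent.H556.FX
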