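import Mathlib
import Pool.Agent.H556.FX.NearS
import Pool.Agent.H556.FX.NearFin

/-!
# `S`-free parts of linear forms in a divisor of `(x ^ p - y ^ p) / (x - y)` and `1`
-/

set_option autoImplicit false

namespace Pool.Agent.H556.FX

open Filter Topology Pool.Agent.TH932.Germs Pool.Agent.TH551.SU Pool.Agent.Y724.Vj
open Pool.Agent.H556.CP

/-- **`S`-free parts of linear forms in a divisor of `(x ^ p - y ^ p) / (x - y)` and `1`** -/
theorem sfree {x y : ℤ} (hA : Adm x y) (S : Finset ℕ) (K ε : ℝ) (hε : 0 < ε) :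
    ∃ η : ℝ, 0 < η ∧ ∃ p₀ : ℕ, ∀ p ≥ p₀, p.Prime → ∀ M : ℕ, (M : ℤ) * (x - y) = x ^ p - y ^ p →
      ∀ a a' : ℕ, a * a' = M → (M : ℝ) ^ ε ≤ a → (M : ℝ) ^ ε ≤ a' →
      ∀ c d u v k s : ℤ, c ≠ 0 → d ≠ 0 → |(c : ℝ)| ≤ (M : ℝ) ^ η →
      |(d : ℝ)| ≤ (M : ℝ) ^ η → u ≠ 0 → v ≠ 0 → s ≠ 0 →
      (∀ l : ℕ, l.Prime → (l : ℤ) ∣ u * v * s → l ∈ S) → IsCoprime u v →
      |(u : ℝ)| ≤ (M : ℝ) ^ K → |(v : ℝ)| ≤ (M : ℝ) ^ K →
      c * u * a + d * v = k * s →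
      max (|(u : ℝ)| * a) |(v : ℝ)| * (M : ℝ) ^
        (-(Real.log a / Real.log M * (1 - Real.log a / Real.log M)) - ε) < |(k : ℝ)| := by
  classical
  by_contra hcon
  push Not at hcon
  have hx0 : x ≠ 0 := by have := hA.one_lt; omega
  have hy0 : y ≠ 0 := ne_zero_of hA.one_lt hA.cop
  obtain ⟨s0, b, hb, hbi, hbs, hxs, hys⟩ := exists_base S hx0 hy0
  choose p hp hpp M hM a a' haa ha ha' c d u v k s hc0 hd0 hc hd hu0 hv0 hs0 hpd huv huK hvK hrel hk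
    using fun n : ℕ => hcon (1 / ((n : ℝ) + 1)) (by positivity) (n + 8 + ∑ v, b v)
  have hFm : Fam x y p M := ⟨hA, fun n => by have := hp n; omega, hpp, hM⟩
  have hML : ∀ n (t : ℝ), (M n : ℝ) ^ t = Real.exp (t * LL M n) := by
    intro n t
    rw [← hFm.exp_LL, ← Real.exp_mul, mul_comm]
  have hnegl : ∀ z : ℕ → ℤ, (∀ n, |(z n : ℝ)| ≤ (M n : ℝ) ^ (1 / ((n : ℝ) + 1))) →
      Negl (LL M) z := by
    intro z hz δ hδ
    obtain ⟨N, hN⟩ := exists_nat_gt (1 / δ)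
    filter_upwards [ev_of_atTop (eventually_ge_atTop N)] with n hn
    refine (hz n).trans ?_
    rw [hML]
    apply Real.exp_le_exp.2
    apply mul_le_mul_of_nonneg_right _ (hFm.LL_nonneg n)
    have hN' : (N : ℝ) ≤ n := by exact_mod_cast hn
    rw [div_le_iff₀ (by positivity)]
    rw [div_lt_iff₀ hδ] at hN
    nlinarith
  have hsu : ∀ n (z : ℤ), z ≠ 0 → z ∣ u n * v n * s n → IsSU b (z : ℚ) := by
    intro n z hz hd
    refine isSU_int b hb hbi hz fun l hl hld => ?_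
    exact hbs l (hpd n l hl ((Int.natCast_dvd.2 hld).trans hd)) hl
  have hcop : ∀ n w, ¬ (b w : ℤ) ∣ (M n : ℤ) := by
    intro n w
    apply coprime_M hA.cop (by have := hA.lt; omega) (hpp n) (hM n) (hb w)
    have h1 : b w ≤ ∑ v, b v :=
      Finset.single_le_sum (f := b) (fun _ _ => Nat.zero_le _) (Finset.mem_univ w)
    have := hp n
    omega
  refine coreN hFm b hb hbi hxs hys hcop c d u v s k hc0 hd0
    (hnegl c hc) (hnegl d hd)
    (fun n => hsu n _ (hu0 n) (Dvd.dvd.mul_right (Dvd.intro _ rfl) _))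
    (fun n => hsu n _ (hv0 n) (Dvd.dvd.mul_right (Dvd.intro_left _ rfl) _))
    (fun n => hsu n _ (hs0 n) (Dvd.intro_left _ rfl)) huv (K := K) (fun n => ?_) (fun n => ?_) a a'
    haa hε (fun n => ?_) (fun n => ?_) hrel (fun n => ?_)
  · rw [← hML]; exact huK n
  · rw [← hML]; exact hvK n
  · rw [← hML]; exact ha n
  · rw [← hML]; exact ha' n
  · refine (hk n).trans (le_of_eq ?_)
    congr 1
    rw [hML]
    congr 1
    have hM1 := hFm.M_one n
    have h1ε : (1 : ℝ) ≤ (M n : ℝ) ^ ε := Real.one_le_rpow hM1.le hε.le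
    have ha0 : (0 : ℝ) < a n := by linarith [ha n]
    have ha0' : (0 : ℝ) < a' n := by linarith [ha' n]
    have haaR : (a n : ℝ) * a' n = M n := by exact_mod_cast haa n
    have hlogs : Real.log (a n) + Real.log (a' n) = Real.log (M n) := by
      rw [← Real.log_mul ha0.ne' ha0'.ne', haaR]
    have hlM : Real.log (M n) ≠ 0 := (Real.log_pos hM1).ne'
    have h2 : Real.log (a' n) = Real.log (M n) - Real.log (a n) := by linarith
    rw [h2]
    change (-(Real.log (a n) / Real.log (M n) * (1 - Real.log (a n) / Real.log (M n))) - ε) *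
      Real.log (M n) = -(Real.log (a n) * (Real.log (M n) - Real.log (a n)) / Real.log (M n)) -
        ε * Real.log (M n)
    field_simp

/-- the same in terms of the exponent of the divisor -/
theorem sfree' {x y : ℤ} (hA : Adm x y) (S : Finset ℕ) (K ε : ℝ) (hε : 0 < ε) :
    ∃ η : ℝ, 0 < η ∧ ∃ p₀ : ℕ, ∀ p ≥ p₀, p.Prime → ∀ M : ℕ, (M : ℤ) * (x - y) = x ^ p - y ^ p →
      ∀ a : ℕ, a ∣ M → ∀ t : ℝ, ε ≤ t → t ≤ 1 - ε → (a : ℝ) = (M : ℝ) ^ t →
      ∀ c d u v k s : ℤ, c ≠ 0 → d ≠ 0 → |(c : ℝ)| ≤ (M : ℝ) ^ η →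
      |(d : ℝ)| ≤ (M : ℝ) ^ η → u ≠ 0 → v ≠ 0 → s ≠ 0 →
      (∀ l : ℕ, l.Prime → (l : ℤ) ∣ u * v * s → l ∈ S) → IsCoprime u v →
      |(u : ℝ)| ≤ (M : ℝ) ^ K → |(v : ℝ)| ≤ (M : ℝ) ^ K →
      c * u * a + d * v = k * s →
      max (|(u : ℝ)| * a) |(v : ℝ)| * (M : ℝ) ^ (-(t * (1 - t)) - ε) < |(k : ℝ)| := by
  obtain ⟨η, hη, p₀, h⟩ := sfree hA S K ε hε
  refine ⟨η, hη, p₀ + 5, fun p hp hpp M hM a ha t ht1 ht2 hat c d u v k s hc0 hd0 hc hd hu0 hv0 hs0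
    hpd huv hu hv hrel => ?_⟩
  obtain ⟨b, hb⟩ := ha
  have hM1 : (1 : ℝ) < M := by
    have h1 := (M_lower hA.one_lt hA.neg_lt hA.lt (by omega) hM).2
    have h2 : x ^ 2 ≤ x ^ (p - 3) := pow_le_pow_right₀ hA.one_lt.le (by omega)
    have h3 := hA.one_lt
    have h4 : (1 : ℤ) < M := by nlinarith
    exact_mod_cast h4
  have hM0 : (0 : ℝ) < M := by linarith
  have hlM : 0 < Real.log M := Real.log_pos hM1
  have ha1 : (M : ℝ) ^ ε ≤ a := by
    rw [hat]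
    exact Real.rpow_le_rpow_of_exponent_le hM1.le ht1
  have hb1 : (M : ℝ) ^ ε ≤ b := by
    have h1 : (a : ℝ) * b = M := by exact_mod_cast hb.symm
    have h2 : (M : ℝ) ^ t * (M : ℝ) ^ (1 - t) = M := by
      rw [← Real.rpow_add hM0, add_sub_cancel, Real.rpow_one]
    have h3 : 0 < (M : ℝ) ^ t := Real.rpow_pos_of_pos hM0 _
    have h4 : (b : ℝ) = (M : ℝ) ^ (1 - t) := by
      rw [hat] at h1
      have : (M : ℝ) ^ t * b = (M : ℝ) ^ t * (M : ℝ) ^ (1 - t) := by rw [h1, h2]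
      exact mul_left_cancel₀ h3.ne' this
    rw [h4]
    exact Real.rpow_le_rpow_of_exponent_le hM1.le (by linarith)
  have key := h p (by omega) hpp M hM a b hb.symm ha1 hb1 c d u v k s hc0 hd0 hc hd hu0 hv0 hs0 hpd
    huv hu hv hrel
  have hx : Real.log a / Real.log M = t := by
    rw [hat, Real.log_rpow hM0]
    field_simp
  rw [hx] at key
  exact key

end Pool.Agent.H556.FX
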