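import Mathlib
import Pool.Agent.H556.FX.Seq

/-!
# Digit changes of multiples of divisors of repunits
-/

set_option autoImplicit false

namespace Pool.Agent.H556.FX

/-- the pair `(10, 1)` -/
lemma adm_ten : Adm 10 1 where
  one_lt := by norm_num
  neg_lt := by norm_num
  lt := by norm_num
  cop := isCoprime_one_right
  pow := by
    rintro r hr ⟨⟨c, hc⟩, -⟩
    have h1 : (2 : ℤ) ∣ c ^ r := by rw [← hc]; norm_num
    have h2 := Int.prime_two.dvd_of_dvd_pow h1
    have h3 : (2 : ℤ) ^ 2 ∣ c ^ r := (pow_dvd_pow_of_dvd h2 2).trans (pow_dvd_pow c hr)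
    rw [← hc] at h3
    norm_num at h3
  four := by
    rintro ⟨c, hc⟩
    have : 0 ≤ c ^ 4 := by positivity
    omega

/-- nine times a number in terms of its digit changes -/
lemma nine_mul (m N : ℕ) : (9 * m : ℤ) = -((m % 10 : ℕ) : ℤ) + ∑ j ∈ Finset.range N,
    (((m / 10 ^ j % 10 : ℕ) : ℤ) - ((m / 10 ^ (j + 1) % 10 : ℕ) : ℤ)) * 10 ^ (j + 1) +
      (9 * ((m / 10 ^ N : ℕ) : ℤ) + ((m / 10 ^ N % 10 : ℕ) : ℤ)) * 10 ^ N := by
  induction N with
  | zero => simp
  | succ N ih =>
    rw [Finset.sum_range_succ, ih]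
    have h1 : ((m / 10 ^ N : ℕ) : ℤ) = 10 * ((m / 10 ^ (N + 1) : ℕ) : ℤ) +
        ((m / 10 ^ N % 10 : ℕ) : ℤ) := by
      have h2 : m / 10 ^ (N + 1) = m / 10 ^ N / 10 := by rw [pow_succ, Nat.div_div_eq_div_mul]
      rw [h2]
      have h3 := Nat.div_add_mod (m / 10 ^ N) 10
      exact_mod_cast h3.symm
    have h4 : (10 : ℤ) ^ (N + 1) = 10 ^ N * 10 := pow_succ _ _
    rw [h4]
    linear_combination (9 * 10 ^ N : ℤ) * h1

/-- sums with few terms as families -/
lemma pack (p : ℕ) (c : ℕ → ℤ) (hc : ∀ j, |c j| ≤ 9) (J : Finset ℕ) (hJ : ∀ j ∈ J, j ≤ p) :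
    ∀ r : ℕ, J.card ≤ r → ∃ (c' : Fin r → ℤ) (e : Fin r → ℕ), (∀ i, |c' i| ≤ 9) ∧
      (∀ i, e i ≤ p) ∧ ∑ j ∈ J, c j * 10 ^ j = ∑ i, c' i * 10 ^ (e i) := by
  classical
  induction J using Finset.induction_on with
  | empty =>
    intro r _
    exact ⟨fun _ => 0, fun _ => 0, by simp, by simp, by simp⟩
  | insert j J hj ih =>
    intro r hr
    rw [Finset.card_insert_of_notMem hj] at hr
    obtain ⟨r', rfl⟩ : ∃ r', r = r' + 1 := ⟨r - 1, by omega⟩
    obtain ⟨c', e, h1, h2, h3⟩ := ih (fun j hj => hJ j (Finset.mem_insert_of_mem hj)) r' (by omega)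
    refine ⟨Fin.cons (c j) c', Fin.cons j e, ?_, ?_, ?_⟩
    · intro i
      induction i using Fin.cases with
      | zero => exact hc j
      | succ i => exact h1 i
    · intro i
      induction i using Fin.cases with
      | zero => exact hJ j (Finset.mem_insert_self _ _)
      | succ i => exact h2 i
    · rw [Finset.sum_insert hj, Fin.sum_univ_succ, h3]
      simp

/-- **Digit changes of multiples of divisors of repunits.** -/
theorem changes (r : ℕ) (δ : ℝ) (hδ : 0 < δ) :
    ∃ p₀ : ℕ, ∀ p ≥ p₀, p.Prime → ∀ M : ℕ, (M : ℤ) * (10 - 1) = 10 ^ p - 1 ^ p →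
      ∀ d m : ℕ, d ∣ M → (M : ℝ) ^ δ ≤ d → d ∣ m → 0 < m → m < M →
      r < ((Finset.range p).filter fun i => m / 10 ^ i % 10 ≠ m / 10 ^ (i + 1) % 10).card := by
  classical
  obtain ⟨ε, hε, p₀, h⟩ := main adm_ten {2, 5} (r + 1) 2 δ hδ
  obtain ⟨N0, hN0⟩ := exists_nat_gt (2 / ε)
  refine ⟨p₀ + 8 + 2 * N0, fun p hp hpp M hM d m hdM hd hdm hm0 hmM => ?_⟩
  by_contra hcon
  push Not at hcon
  obtain ⟨hMpos, hMlow⟩ := M_lower (x := 10) (y := 1) (by norm_num) (by norm_num) (by norm_num)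
    (by omega) hM
  have hM1 : (1 : ℝ) < M := by
    have h2 : (10 : ℤ) ^ 1 ≤ 10 ^ (p - 3) := pow_le_pow_right₀ (by norm_num) (by omega)
    have h3 : (1 : ℤ) < M := by linarith
    exact_mod_cast h3
  -- the digits
  set dig : ℕ → ℤ := fun j => ((m / 10 ^ j % 10 : ℕ) : ℤ) with hdig
  have hdig0 : ∀ j, 0 ≤ dig j ∧ dig j ≤ 9 := by
    intro j
    have := Nat.mod_lt (m / 10 ^ j) (show 0 < 10 by norm_num)
    rw [hdig]
    simp only []
    omega
  have hmp : m < 10 ^ p := by
    have h1 : (m : ℤ) < M := by exact_mod_cast hmM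
    have h2 : (M : ℤ) * 9 < 10 ^ p := by
      rw [one_pow] at hM
      linarith
    have h3 : (m : ℤ) < 10 ^ p := by linarith
    exact_mod_cast h3
  set J : Finset ℕ := (Finset.range p).filter fun i => m / 10 ^ i % 10 ≠ m / 10 ^ (i + 1) % 10
    with hJ
  have hsum : (9 * m : ℤ) = -dig 0 + ∑ j ∈ J, (dig j - dig (j + 1)) * 10 ^ (j + 1) := by
    have h1 := nine_mul m p
    rw [Nat.div_eq_of_lt hmp] at h1
    have h2 : ∑ j ∈ Finset.range p, (dig j - dig (j + 1)) * 10 ^ (j + 1) =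
        ∑ j ∈ J, (dig j - dig (j + 1)) * 10 ^ (j + 1) := by
      rw [hJ, Finset.sum_filter]
      refine Finset.sum_congr rfl fun j _ => ?_
      split_ifs with h3
      · rfl
      · push Not at h3
        have h4 : dig j = dig (j + 1) := by
          rw [hdig]
          simp only []
          exact_mod_cast h3
        rw [h4, sub_self, zero_mul]
    rw [← h2, h1]
    simp [hdig]
  -- reindexing
  set c0 : ℕ → ℤ := fun j => if j = 0 then 0 else dig (j - 1) - dig j with hc0
  have hc09 : ∀ j, |c0 j| ≤ 9 := by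
    intro j
    rw [hc0]
    simp only []
    split_ifs
    · norm_num
    · have h1 := hdig0 (j - 1)
      have h2 := hdig0 j
      rw [abs_le]
      constructor <;> linarith
  set J' : Finset ℕ := J.image (fun j => j + 1) with hJ'
  have hJ'p : ∀ j ∈ J', j ≤ p := by
    intro j hj
    rw [hJ', Finset.mem_image] at hj
    obtain ⟨i, hi, rfl⟩ := hj
    rw [hJ, Finset.mem_filter, Finset.mem_range] at hi
    omega
  have hJ'c : J'.card ≤ r := by
    rw [hJ', Finset.card_image_of_injective _ (fun a b h => by omega)]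
    exact hcon
  obtain ⟨c', e, g1, g2, g3⟩ := pack p c0 hc09 J' hJ'p r hJ'c
  have hsum2 : (9 * m : ℤ) = -dig 0 + ∑ i, c' i * 10 ^ (e i) := by
    rw [← g3, hsum, hJ', Finset.sum_image (fun a _ b _ h => by omega)]
    congr 1
  -- the short sum
  set c : Fin (r + 1) → ℤ := Fin.cons (-dig 0) c' with hc
  set e' : Fin (r + 1) → ℕ := Fin.cons 0 e with he'
  have hG : ∑ i, (c i : ℚ) * ((10 : ℚ) ^ (e' i)) = ((9 * m : ℤ) : ℚ) := by
    rw [hsum2, Fin.sum_univ_succ, hc, he']
    simp only [Fin.cons_zero, Fin.cons_succ, pow_zero, mul_one]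
    push_cast
    rfl
  have hc9 : ∀ i, |c i| ≤ 9 := by
    intro i
    rw [hc]
    induction i using Fin.cases with
    | zero =>
      simp only [Fin.cons_zero]
      have := hdig0 0
      rw [abs_le]
      constructor <;> linarith
    | succ i => simp only [Fin.cons_succ]; exact g1 i
  have he9 : ∀ i, e' i ≤ p := by
    intro i
    rw [he']
    induction i using Fin.cases with
    | zero => simp
    | succ i => simp only [Fin.cons_succ]; exact g2 i
  have h9M : (9 : ℝ) ≤ (M : ℝ) ^ ε := by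
    have h1 : ((10 : ℕ) : ℝ) ^ (p - 3) ≤ M := by exact_mod_cast hMlow
    have h2 : (1 : ℝ) ≤ ((p - 3 : ℕ) : ℝ) * ε := by
      have h3 : 2 * N0 ≤ p - 3 := by omega
      have h4 : ((2 * N0 : ℕ) : ℝ) ≤ ((p - 3 : ℕ) : ℝ) := by exact_mod_cast h3
      rw [div_lt_iff₀ hε] at hN0
      push_cast at h4
      nlinarith
    calc (9 : ℝ) ≤ (10 : ℝ) ^ (1 : ℝ) := by norm_num
      _ ≤ (10 : ℝ) ^ (((p - 3 : ℕ) : ℝ) * ε) := Real.rpow_le_rpow_of_exponent_le (by norm_num) h2
      _ = (((10 : ℕ) : ℝ) ^ (p - 3)) ^ ε := by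
          rw [Real.rpow_mul (by norm_num), Real.rpow_natCast]
          norm_num
      _ ≤ (M : ℝ) ^ ε := Real.rpow_le_rpow (by positivity) h1 hε.le
  have hM2 : (M : ℝ) ^ (2 : ℝ) = (M : ℝ) ^ 2 := by
    rw [← Real.rpow_natCast]
    norm_num
  have key := h p (by omega) hpp M hM c (fun i => (10 : ℚ) ^ (e' i))
    (by
      intro i
      have h1 : |(c i : ℝ)| ≤ 9 := by exact_mod_cast hc9 i
      exact h1.trans h9M)
    (fun i => by positivity)
    (by
      intro i l hl hld
      have h1 : ((10 : ℚ) ^ (e' i)) = (((10 ^ (e' i) : ℕ)) : ℚ) := by push_cast; rfl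
      simp only [h1, Rat.num_natCast, Rat.den_natCast, Int.natAbs_natCast] at hld
      rcases hld with h2 | h2
      · have h3 : l ∣ 10 := hl.dvd_of_dvd_pow h2
        have h4 : l ∈ Nat.primeFactors 10 := Nat.mem_primeFactors.2 ⟨hl, h3, by norm_num⟩
        have h5 : Nat.primeFactors 10 = {2, 5} := by decide +kernel
        rwa [h5] at h4
      · exact absurd (Nat.dvd_one.1 h2) hl.one_lt.ne')
    (by
      intro i
      have h1 : ((10 : ℚ) ^ (e' i)) = (((10 ^ (e' i) : ℕ)) : ℚ) := by push_cast; rfl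
      simp only [h1, Rat.num_natCast, Rat.den_natCast, hM2]
      constructor
      · push_cast
        rw [abs_of_pos (by positivity)]
        have h2 : ((10 : ℕ) : ℝ) ^ (p - 3) ≤ M := by exact_mod_cast hMlow
        calc (10 : ℝ) ^ (e' i) ≤ (10 : ℝ) ^ ((p - 3) * 2) :=
              pow_le_pow_right₀ (by norm_num) ((he9 i).trans (by omega))
          _ = (((10 : ℕ) : ℝ) ^ (p - 3)) ^ 2 := by rw [pow_mul]; norm_num
          _ ≤ (M : ℝ) ^ 2 := pow_le_pow_left₀ (by positivity) h2 2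
      · push_cast
        nlinarith)
    (by
      rw [hG, Rat.num_intCast]
      intro hdv
      have h1 : IsCoprime (M : ℤ) 9 := by
        have h3 : IsCoprime (M : ℤ) 3 := by
          have h4 := coprime_M (x := 10) (y := 1) isCoprime_one_right (by norm_num) hpp hM
            Nat.prime_three (by omega)
          have h5 : Prime (3 : ℤ) := Int.prime_three
          exact ((h5.coprime_iff_not_dvd).2 (by exact_mod_cast h4)).symm
        have h4 : (9 : ℤ) = 3 * 3 := by norm_num
        rw [h4]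
        exact h3.mul_right h3
      have h2 := h1.dvd_of_dvd_mul_left hdv
      have h3 := Int.le_of_dvd (by exact_mod_cast hm0) h2
      have h4 : (m : ℤ) < M := by exact_mod_cast hmM
      omega)
    d hdM (by
      rw [hG, Rat.num_intCast]
      exact Dvd.dvd.mul_left (by exact_mod_cast hdm) _)
  linarith

end Pool.Agent.H556.FX
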